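import Mathlib

/-! # Minors of a matrix of polynomials and its degenerate directions -/

open MvPolynomial Module

namespace MP60829e.TV.GC

set_option linter.unusedSectionVars false

variable {K σ ν κ : Type} [Field K] [Fintype σ] [DecidableEq σ] [Fintype ν] [Fintype κ]
  [DecidableEq κ]

/-- The derivative of `f` at `c` in the direction `v`. -/
noncomputable def dv (c v : σ → K) (f : MvPolynomial σ K) : K :=
  ∑ i, eval c (pderiv i f) * v i

theorem dv_add (c v : σ → K) (f g : MvPolynomial σ K) : dv c v (f + g) = dv c v f + dv c v g := by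
  unfold dv
  rw [← Finset.sum_add_distrib]
  apply Finset.sum_congr rfl
  intro i _
  rw [map_add, map_add, add_mul]

theorem dv_zero (c v : σ → K) : dv c v (0 : MvPolynomial σ K) = 0 := by
  unfold dv
  simp

theorem dv_sum {ι : Type} (s : Finset ι) (c v : σ → K) (f : ι → MvPolynomial σ K) :
    dv c v (∑ t ∈ s, f t) = ∑ t ∈ s, dv c v (f t) := by
  classical
  induction s using Finset.induction_on with
  | empty => rw [Finset.sum_empty, Finset.sum_empty, dv_zero]
  | insert a s ha ih => rw [Finset.sum_insert ha, Finset.sum_insert ha, dv_add, ih]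

theorem dv_mul (c v : σ → K) (f g : MvPolynomial σ K) :
    dv c v (f * g) = eval c f * dv c v g + dv c v f * eval c g := by
  unfold dv
  rw [Finset.mul_sum, Finset.sum_mul, ← Finset.sum_add_distrib]
  apply Finset.sum_congr rfl
  intro i _
  rw [pderiv_mul, map_add, map_mul, map_mul]
  ring

theorem dv_C_mul (c v : σ → K) (a : K) (f : MvPolynomial σ K) :
    dv c v (C a * f) = a * dv c v f := by
  rw [dv_mul, eval_C]
  have h : dv c v (C a : MvPolynomial σ K) = 0 := by
    unfold dv
    simp
  rw [h, zero_mul, add_zero]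

theorem dv_add_right (c v w : σ → K) (f : MvPolynomial σ K) :
    dv c (v + w) f = dv c v f + dv c w f := by
  unfold dv
  rw [← Finset.sum_add_distrib]
  apply Finset.sum_congr rfl
  intro i _
  rw [Pi.add_apply, mul_add]

theorem dv_smul_right (a : K) (c v : σ → K) (f : MvPolynomial σ K) :
    dv c (a • v) f = a * dv c v f := by
  unfold dv
  rw [Finset.mul_sum]
  apply Finset.sum_congr rfl
  intro i _
  rw [Pi.smul_apply, smul_eq_mul]
  ring

theorem dv_zero_right (c : σ → K) (f : MvPolynomial σ K) : dv c 0 f = 0 := by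
  unfold dv
  simp

theorem dv_X_sub_C (c v : σ → K) (i : σ) (a : K) :
    dv c v (X i - C a : MvPolynomial σ K) = v i := by
  unfold dv
  rw [Finset.sum_eq_single i]
  · simp
  · intro j _ hj
    simp [pderiv_X, hj.symm]
  · intro h
    exact absurd (Finset.mem_univ i) h

/-- The linear map of the matrix at the point `c` (rows times matrix). -/
noncomputable def rowMap (A : ν → κ → MvPolynomial σ K) (c : σ → K) : (ν → K) →ₗ[K] (κ → K) where
  toFun y := fun a => ∑ b, y b * eval c (A b a)
  map_add' y y' := by
    funext a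
    rw [Pi.add_apply, ← Finset.sum_add_distrib]
    apply Finset.sum_congr rfl
    intro b _
    rw [Pi.add_apply, add_mul]
  map_smul' r y := by
    funext a
    rw [Pi.smul_apply, smul_eq_mul, RingHom.id_apply, Finset.mul_sum]
    apply Finset.sum_congr rfl
    intro b _
    rw [Pi.smul_apply, smul_eq_mul, mul_assoc]

/-- The linear map of the derivative of the matrix at the point `c` in the direction `v`. -/
noncomputable def dMap (A : ν → κ → MvPolynomial σ K) (c v : σ → K) : (ν → K) →ₗ[K] (κ → K) where
  toFun y := fun a => ∑ b, y b * dv c v (A b a)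
  map_add' y y' := by
    funext a
    rw [Pi.add_apply, ← Finset.sum_add_distrib]
    apply Finset.sum_congr rfl
    intro b _
    rw [Pi.add_apply, add_mul]
  map_smul' r y := by
    funext a
    rw [Pi.smul_apply, smul_eq_mul, RingHom.id_apply, Finset.mul_sum]
    apply Finset.sum_congr rfl
    intro b _
    rw [Pi.smul_apply, smul_eq_mul, mul_assoc]

theorem rowMap_apply (A : ν → κ → MvPolynomial σ K) (c : σ → K) (y : ν → K) (a : κ) :
    rowMap A c y a = ∑ b, y b * eval c (A b a) := rfl

theorem dMap_apply (A : ν → κ → MvPolynomial σ K) (c v : σ → K) (y : ν → K) (a : κ) :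
    dMap A c v y a = ∑ b, y b * dv c v (A b a) := rfl

/-- The degenerate directions at `c`. -/
noncomputable def dirs (A : ν → κ → MvPolynomial σ K) (c : σ → K) : Submodule K (σ → K) where
  carrier := {v | ∀ y, rowMap A c y = 0 → dMap A c v y ∈ LinearMap.range (rowMap A c)}
  add_mem' := by
    intro v w hv hw y hy
    have h : dMap A c (v + w) y = dMap A c v y + dMap A c w y := by
      funext a
      rw [Pi.add_apply, dMap_apply, dMap_apply, dMap_apply, ← Finset.sum_add_distrib]
      apply Finset.sum_congr rfl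
      intro b _
      rw [dv_add_right, mul_add]
    rw [h]
    exact Submodule.add_mem _ (hv y hy) (hw y hy)
  zero_mem' := by
    intro y _
    have h : dMap A c 0 y = 0 := by
      funext a
      rw [dMap_apply, Pi.zero_apply]
      apply Finset.sum_eq_zero
      intro b _
      rw [dv_zero_right, mul_zero]
    rw [h]
    exact Submodule.zero_mem _
  smul_mem' := by
    intro r v hv y hy
    have h : dMap A c (r • v) y = r • dMap A c v y := by
      funext a
      rw [Pi.smul_apply, smul_eq_mul, dMap_apply, dMap_apply, Finset.mul_sum]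
      apply Finset.sum_congr rfl
      intro b _
      rw [dv_smul_right]
      ring
    rw [h]
    exact Submodule.smul_mem _ _ (hv y hy)

theorem mem_dirs {A : ν → κ → MvPolynomial σ K} {c v : σ → K} :
    v ∈ dirs A c ↔ ∀ y, rowMap A c y = 0 → dMap A c v y ∈ LinearMap.range (rowMap A c) := Iff.rfl

/-- Entries of the transformed matrix. -/
noncomputable def ent (A : ν → κ → MvPolynomial σ K) (u : ν → K) (w : κ → K) :
    MvPolynomial σ K := ∑ s, ∑ t, C (u s * w t) * A s t

theorem eval_ent (A : ν → κ → MvPolynomial σ K) (c : σ → K) (u : ν → K) (w : κ → K) :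
    eval c (ent A u w) = ∑ t, rowMap A c u t * w t := by
  unfold ent
  rw [map_sum]
  simp only [map_sum, map_mul, eval_C, rowMap_apply, Finset.sum_mul]
  rw [Finset.sum_comm]
  exact Finset.sum_congr rfl fun t _ => Finset.sum_congr rfl fun s _ => by ring

theorem dv_ent (A : ν → κ → MvPolynomial σ K) (c v : σ → K) (u : ν → K) (w : κ → K) :
    dv c v (ent A u w) = ∑ t, dMap A c v u t * w t := by
  unfold ent
  simp only [dv_sum, dv_C_mul, dMap_apply, Finset.sum_mul]
  rw [Finset.sum_comm]
  exact Finset.sum_congr rfl fun t _ => Finset.sum_congr rfl fun s _ => by ring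

/-- The minors of the transformed matrix. -/
noncomputable def minorP (A : ν → κ → MvPolynomial σ K) {ρ : ℕ} (u : Fin (ρ + 1) → ν → K)
    (w : Fin (ρ + 1) → κ → K) : MvPolynomial σ K :=
  (Matrix.of fun b a => ent A (u b) (w a)).det

theorem eval_minorP (A : ν → κ → MvPolynomial σ K) {ρ : ℕ} (c : σ → K)
    (u : Fin (ρ + 1) → ν → K) (w : Fin (ρ + 1) → κ → K) :
    eval c (minorP A u w) =
      (Matrix.of fun (b a : Fin (ρ + 1)) => ∑ t, rowMap A c (u b) t * w a t).det := by
  unfold minorP
  rw [RingHom.map_det]
  congr 1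
  ext b a
  rw [RingHom.mapMatrix_apply, Matrix.map_apply, Matrix.of_apply, Matrix.of_apply, eval_ent]

/-- All minors of size larger than the rank vanish. -/
theorem eval_minorP_zero (A : ν → κ → MvPolynomial σ K) {ρ : ℕ} (c : σ → K)
    (hρ : finrank K (LinearMap.range (rowMap A c)) ≤ ρ)
    (u : Fin (ρ + 1) → ν → K) (w : Fin (ρ + 1) → κ → K) : eval c (minorP A u w) = 0 := by
  rw [eval_minorP]
  have h1 : ¬ LinearIndependent K fun b : Fin (ρ + 1) =>
      (⟨rowMap A c (u b), LinearMap.mem_range_self _ _⟩ : LinearMap.range (rowMap A c)) := by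
    intro h
    have h2 := h.fintype_card_le_finrank
    rw [Fintype.card_fin] at h2
    omega
  obtain ⟨g, hg, b0, hb0⟩ := Fintype.not_linearIndependent_iff.1 h1
  apply Matrix.exists_vecMul_eq_zero_iff.1
  refine ⟨g, fun h => hb0 (by rw [h, Pi.zero_apply]), ?_⟩
  have hg' : ∑ b, g b • rowMap A c (u b) = 0 := by
    have h2 := congrArg Subtype.val hg
    rw [Submodule.coe_sum] at h2
    exact h2
  funext a
  rw [Matrix.vecMul, dotProduct, Pi.zero_apply]
  have h3 : ∀ t, ∑ b, g b * rowMap A c (u b) t = 0 := by
    intro t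
    have h4 := congrFun hg' t
    rw [Finset.sum_apply, Pi.zero_apply] at h4
    exact h4
  simp only [Matrix.of_apply, Finset.mul_sum]
  rw [Finset.sum_comm]
  apply Finset.sum_eq_zero
  intro t _
  calc ∑ b, g b * (rowMap A c (u b) t * w a t) = (∑ b, g b * rowMap A c (u b) t) * w a t := by
        rw [Finset.sum_mul]
        exact Finset.sum_congr rfl fun b _ => by ring
    _ = 0 := by rw [h3, zero_mul]

/-- The derivative of a determinant which is `diag (0, 1, .., 1)` at the point. -/
theorem dv_det {ρ : ℕ} (M : Matrix (Fin (ρ + 1)) (Fin (ρ + 1)) (MvPolynomial σ K)) (c v : σ → K)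
    (h0 : ∀ a, eval c (M 0 a) = 0) (h1 : ∀ b, eval c (M b 0) = 0)
    (h2 : ∀ b a : Fin ρ, eval c (M b.succ a.succ) = if b = a then 1 else 0) :
    dv c v M.det = dv c v (M 0 0) := by
  rw [Matrix.det_succ_row_zero, dv_sum, Finset.sum_eq_single 0]
  · rw [dv_mul, dv_mul]
    have h3 : eval c (M.submatrix Fin.succ (Fin.succAbove 0)).det = 1 := by
      rw [RingHom.map_det]
      have h4 : (eval c).mapMatrix (M.submatrix Fin.succ (Fin.succAbove 0)) = 1 := by
        ext b a
        rw [RingHom.mapMatrix_apply, Matrix.map_apply, Matrix.submatrix_apply,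
          Fin.succAbove_zero, h2, Matrix.one_apply]
      rw [h4, Matrix.det_one]
    rw [h3, map_mul, h0, mul_zero, zero_mul, zero_add, mul_one, Fin.val_zero, pow_zero, map_one,
      one_mul]
    have h5 : dv c v (1 : MvPolynomial σ K) = 0 := by
      unfold dv
      simp
    rw [mul_zero, add_zero]
  · intro a _ ha
    rw [dv_mul, map_mul, h0, mul_zero, zero_mul, zero_add]
    have h3 : eval c (M.submatrix Fin.succ (Fin.succAbove a)).det = 0 := by
      rw [RingHom.map_det]
      obtain ⟨ρ', rfl⟩ : ∃ ρ', ρ = ρ' + 1 := by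
        refine ⟨ρ - 1, ?_⟩
        rcases Nat.eq_zero_or_pos ρ with h | h
        · subst h
          exact absurd (Subsingleton.elim a 0) ha
        · omega
      apply Matrix.det_eq_zero_of_column_eq_zero 0
      intro b
      rw [RingHom.mapMatrix_apply, Matrix.map_apply, Matrix.submatrix_apply,
        Fin.succAbove_ne_zero_zero ha]
      exact h1 _
    rw [h3, mul_zero]
  · intro h
    exact absurd (Finset.mem_univ _) h

theorem exists_vec (f : (κ → K) →ₗ[K] K) : ∃ w : κ → K, ∀ x, f x = ∑ t, x t * w t := by
  refine ⟨fun t => f (Pi.single t 1), fun x => ?_⟩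
  have h : x = ∑ t, x t • (Pi.single t (1 : K) : κ → K) := by
    funext s
    rw [Finset.sum_apply, Finset.sum_eq_single s]
    · simp
    · intro t _ ht
      simp [ht.symm]
    · intro h
      exact absurd (Finset.mem_univ s) h
  conv_lhs => rw [h]
  rw [map_sum]
  exact Finset.sum_congr rfl fun t _ => by rw [map_smul, smul_eq_mul]

/-- The common kernel of the differentials of the minors consists of degenerate directions. -/
theorem mem_dirs_of_minors (A : ν → κ → MvPolynomial σ K) {ρ : ℕ} (c v : σ → K)
    (hρ : finrank K (LinearMap.range (rowMap A c)) = ρ)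
    (h : ∀ (u : Fin (ρ + 1) → ν → K) (w : Fin (ρ + 1) → κ → K), dv c v (minorP A u w) = 0) :
    v ∈ dirs A c := by
  classical
  rw [mem_dirs]
  intro y0 hy0
  by_contra hne
  obtain ⟨f0, hf0, hf0'⟩ := Submodule.exists_dual_map_eq_bot_of_notMem hne inferInstance
  obtain ⟨w0, hw0⟩ := exists_vec f0
  have hb : ∃ bas : Basis (Fin ρ) K (LinearMap.range (rowMap A c)), True :=
    ⟨(finBasis K _).reindex (finCongr hρ), trivial⟩
  obtain ⟨bas, -⟩ := hb
  have hy : ∀ b, ∃ y, rowMap A c y = (bas b : κ → K) := fun b => (bas b).2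
  choose y hy using hy
  have hz : ∀ a, ∃ z : κ → K, ∀ x : LinearMap.range (rowMap A c),
      bas.coord a x = ∑ t, (x : κ → K) t * z t := by
    intro a
    obtain ⟨g, hg⟩ := LinearMap.exists_extend (bas.coord a)
    obtain ⟨z, hz⟩ := exists_vec g
    refine ⟨z, fun x => ?_⟩
    rw [← hz, ← hg]
    rfl
  choose z hz using hz
  have key := h (Fin.cons y0 y) (Fin.cons w0 z)
  unfold minorP at key
  rw [dv_det] at key
  · rw [Matrix.of_apply, Fin.cons_zero, Fin.cons_zero, dv_ent, ← hw0] at key
    exact hf0 key
  · intro a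
    rw [Matrix.of_apply, eval_ent, Fin.cons_zero, hy0]
    apply Finset.sum_eq_zero
    intro t _
    rw [Pi.zero_apply, zero_mul]
  · intro b
    rw [Matrix.of_apply, eval_ent, Fin.cons_zero, ← hw0]
    have h3 : f0 (rowMap A c ((Fin.cons y0 y : Fin (ρ + 1) → ν → K) b)) ∈
        (LinearMap.range (rowMap A c)).map f0 := Submodule.mem_map_of_mem (LinearMap.mem_range_self _ _)
    rw [hf0'] at h3
    exact (Submodule.mem_bot K).1 h3
  · intro b a
    rw [Matrix.of_apply, eval_ent, Fin.cons_succ, Fin.cons_succ, hy, ← hz]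
    rw [Basis.coord_apply, Basis.repr_self, Finsupp.single_apply]

end MP60829e.TV.GC
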