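import Mathlib

/-! # Nondegenerate common zeros of polynomials of bounded degree in each variable -/

open MvPolynomial Module

namespace MP60829e.TV

section

variable {K : Type*} [Field K] {σ : Type*}

/-- the maximal ideal of a point -/
noncomputable def mI (p : σ → K) : Ideal (MvPolynomial σ K) := RingHom.ker (eval p)

theorem mem_mI {p : σ → K} {f : MvPolynomial σ K} : f ∈ mI p ↔ eval p f = 0 := Iff.rfl

theorem X_sub_mem (p : σ → K) (i : σ) : (X i - C (p i) : MvPolynomial σ K) ∈ mI p := by
  rw [mem_mI]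
  simp

/-- first order Taylor expansion -/
theorem taylor_mem [Fintype σ] (p : σ → K) (f : MvPolynomial σ K) :
    f - C (eval p f) - ∑ i, C (eval p (pderiv i f)) * (X i - C (p i)) ∈ mI p ^ 2 := by
  classical
  induction f using MvPolynomial.induction_on with
  | C a => simp
  | add f g hf hg =>
    have h := Ideal.add_mem _ hf hg
    convert h using 1
    simp only [map_add, add_mul, Finset.sum_add_distrib]
    ring
  | mul_X f j hf =>
    have h1 : (∑ i, C (eval p (pderiv i f)) * (X i - C (p i))) * (X j - C (p j)) ∈ mI p ^ 2 := by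
      rw [pow_two]
      refine Ideal.mul_mem_mul ?_ (X_sub_mem p j)
      exact Ideal.sum_mem _ fun i _ => Ideal.mul_mem_left _ _ (X_sub_mem p i)
    have h2 := Ideal.mul_mem_right (X j : MvPolynomial σ K) _ hf
    convert Ideal.add_mem _ h1 h2 using 1
    have h3 : ∑ i, C (eval p (pderiv i (f * X j))) * (X i - C (p i) : MvPolynomial σ K) =
        (∑ i, C (eval p (pderiv i f)) * (X i - C (p i))) * C (p j) +
          C (eval p f) * (X j - C (p j)) := by
      have h4 : ∀ i, C (eval p (pderiv i (f * X j))) * (X i - C (p i) : MvPolynomial σ K) =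
          C (eval p (pderiv i f)) * (X i - C (p i)) * C (p j) +
            (if i = j then C (eval p f) * (X i - C (p i)) else 0) := by
        intro i
        rw [Derivation.leibniz, smul_eq_mul, smul_eq_mul, pderiv_X, map_add, map_mul, map_mul,
          eval_X]
        by_cases hij : i = j
        · subst hij
          simp
          ring
        · rw [if_neg hij, Pi.single_eq_of_ne (fun h => hij h.symm) ]
          simp
          ring
      rw [Finset.sum_congr rfl fun i _ => h4 i, Finset.sum_add_distrib, Finset.sum_mul]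
      simp
    rw [h3]
    simp only [map_mul, eval_X]
    ring

theorem mem_sq [Fintype σ] {p : σ → K} {f : MvPolynomial σ K} (h0 : eval p f = 0)
    (h1 : ∀ i, eval p (pderiv i f) = 0) : f ∈ mI p ^ 2 := by
  have h := taylor_mem p f
  simpa [h0, h1] using h

/-- The polynomials whose derivatives span `m / m ^ 2`: every element of `m` is congruent to an
element of the span of `E` modulo `m ^ 2`. -/
theorem exists_span_sub_mem [Fintype σ] {p : σ → K} {E : Set (MvPolynomial σ K)}
    (hz : ∀ f ∈ E, eval p f = 0)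
    (hnd : ∀ v : σ → K, (∀ f ∈ E, ∑ i, v i * eval p (pderiv i f) = 0) → v = 0)
    {u : MvPolynomial σ K} (hu : u ∈ mI p) :
    ∃ e ∈ Submodule.span K E, u - e ∈ mI p ^ 2 := by
  classical
  let D : MvPolynomial σ K →ₗ[K] (σ → K) :=
    { toFun := fun f i => eval p (pderiv i f)
      map_add' := fun f g => by
        funext i
        simp
      map_smul' := fun a f => by
        funext i
        simp [smul_eval] }
  have hz' : ∀ f ∈ Submodule.span K E, eval p f = 0 := by
    intro f hf
    induction hf using Submodule.span_induction with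
    | mem x hx => exact hz x hx
    | zero => simp
    | add x y _ _ hx hy => simp [hx, hy]
    | smul a x _ hx => simp [smul_eval, hx]
  have htop : (Submodule.span K E).map D = ⊤ := by
    by_contra hne
    have hlt : (Submodule.span K E).map D < ⊤ := lt_top_iff_ne_top.2 hne
    obtain ⟨φ, hφ, hφ0⟩ := Submodule.exists_le_ker_of_lt_top _ hlt
    let v : σ → K := fun i => φ (Pi.single i 1)
    have hv : ∀ x : σ → K, φ x = ∑ i, v i * x i := by
      intro x
      have : x = ∑ i, x i • (Pi.single i (1 : K) : σ → K) := by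
        funext j
        simp [Finset.sum_apply, Pi.single_apply]
      conv_lhs => rw [this]
      rw [map_sum]
      refine Finset.sum_congr rfl fun i _ => ?_
      rw [map_smul, smul_eq_mul, mul_comm]
    have hv0 : v = 0 := by
      apply hnd
      intro f hf
      have h1 : D f ∈ (Submodule.span K E).map D :=
        Submodule.mem_map_of_mem (Submodule.subset_span hf)
      have h2 := hφ0 h1
      rw [LinearMap.mem_ker, hv] at h2
      exact h2
    apply hφ
    refine LinearMap.ext fun x => ?_
    rw [hv, hv0]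
    simp
  obtain ⟨e, he, heu⟩ : D u ∈ (Submodule.span K E).map D := by
    rw [htop]
    exact Submodule.mem_top
  refine ⟨e, he, mem_sq ?_ ?_⟩
  · rw [map_sub, mem_mI.1 hu, hz' e he, sub_zero]
  · intro i
    have h := congrFun heu i
    change eval p (pderiv i e) = eval p (pderiv i u) at h
    rw [map_sub, map_sub, h, sub_self]

theorem span_le_mI {p : σ → K} {E : Set (MvPolynomial σ K)} (hz : ∀ f ∈ E, eval p f = 0)
    {e : MvPolynomial σ K} (he : e ∈ Submodule.span K E) : e ∈ mI p := by
  induction he using Submodule.span_induction with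
  | mem x hx => exact hz x hx
  | zero => exact Ideal.zero_mem _
  | add x y _ _ hx hy => exact Ideal.add_mem _ hx hy
  | smul a x _ hx =>
    rw [smul_eq_C_mul]
    exact Ideal.mul_mem_left _ _ hx

theorem span_pow_le {p : σ → K} {E : Set (MvPolynomial σ K)} (hz : ∀ f ∈ E, eval p f = 0) (n : ℕ)
    {e : MvPolynomial σ K} (he : e ∈ Submodule.span K E ^ n) : e ∈ mI p ^ n := by
  induction n generalizing e with
  | zero => simp
  | succ n ih =>
    rw [pow_succ] at he
    rw [pow_succ]
    refine Submodule.mul_induction_on he ?_ ?_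
    · intro a ha b hb
      exact Ideal.mul_mem_mul (ih ha) (span_le_mI hz hb)
    · intro a b ha hb
      exact Ideal.add_mem _ ha hb

/-- `m ^ n ⊆ (span E) ^ n + m ^ (n + 1)` -/
theorem pow_step [Fintype σ] {p : σ → K} {E : Set (MvPolynomial σ K)}
    (hz : ∀ f ∈ E, eval p f = 0)
    (hnd : ∀ v : σ → K, (∀ f ∈ E, ∑ i, v i * eval p (pderiv i f) = 0) → v = 0)
    (n : ℕ) {u : MvPolynomial σ K} (hu : u ∈ mI p ^ n) :
    ∃ e ∈ Submodule.span K E ^ n, u - e ∈ mI p ^ (n + 1) := by
  induction n generalizing u with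
  | zero =>
    refine ⟨C (eval p u), ?_, ?_⟩
    · rw [pow_zero, Submodule.mem_one]
      exact ⟨eval p u, rfl⟩
    · rw [zero_add, pow_one, mem_mI]
      simp
  | succ n ih =>
    rw [pow_succ] at hu
    refine Submodule.mul_induction_on (M := mI p ^ n) (N := mI p) hu ?_ ?_
    · intro a ha b hb
      obtain ⟨e, he, hea⟩ := ih ha
      obtain ⟨e', he', heb⟩ := exists_span_sub_mem hz hnd hb
      refine ⟨e * e', ?_, ?_⟩
      · rw [pow_succ]
        exact Submodule.mul_mem_mul he he'
      · have h1 : a * b - e * e' = (a - e) * b + e * (b - e') := by ring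
        rw [h1]
        refine Ideal.add_mem _ ?_ ?_
        · rw [pow_succ]
          exact Ideal.mul_mem_mul hea hb
        · have h2 : e * (b - e') ∈ mI p ^ n * mI p ^ 2 :=
            Ideal.mul_mem_mul (span_pow_le hz n he) heb
          rw [← pow_add] at h2
          exact h2
    · rintro a b ⟨e, he, hea⟩ ⟨e', he', heb⟩
      refine ⟨e + e', Submodule.add_mem _ he he', ?_⟩
      have h1 : a + b - (e + e') = (a - e) + (b - e') := by ring
      rw [h1]
      exact Ideal.add_mem _ hea heb

/-- polynomials of degree at most `D` in each variable -/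
def Bx (K : Type*) [Field K] (σ : Type*) (D : ℕ) : Submodule K (MvPolynomial σ K) where
  carrier := {f | ∀ a : σ →₀ ℕ, coeff a f ≠ 0 → ∀ i, a i ≤ D}
  zero_mem' := by
    intro a ha
    simp at ha
  add_mem' := by
    intro f g hf hg a ha i
    rw [coeff_add] at ha
    by_cases h : coeff a f = 0
    · rw [h, zero_add] at ha
      exact hg a ha i
    · exact hf a h i
  smul_mem' := by
    intro c f hf a ha i
    rw [coeff_smul, smul_eq_mul] at ha
    exact hf a (right_ne_zero_of_mul ha) i

theorem mem_Bx {D : ℕ} {f : MvPolynomial σ K} :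
    f ∈ Bx K σ D ↔ ∀ a : σ →₀ ℕ, coeff a f ≠ 0 → ∀ i, a i ≤ D := Iff.rfl

theorem Bx_mono {D D' : ℕ} (h : D ≤ D') : Bx K σ D ≤ Bx K σ D' :=
  fun _ hf a ha i => (hf a ha i).trans h

theorem mul_mem_Bx {D D' : ℕ} {f g : MvPolynomial σ K} (hf : f ∈ Bx K σ D) (hg : g ∈ Bx K σ D') :
    f * g ∈ Bx K σ (D + D') := by
  classical
  intro a ha i
  rw [coeff_mul] at ha
  obtain ⟨x, hx, hx0⟩ := Finset.exists_ne_zero_of_sum_ne_zero ha
  rw [Finset.HasAntidiagonal.mem_antidiagonal] at hx
  rw [← hx, Finsupp.add_apply]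
  exact Nat.add_le_add (hf _ (left_ne_zero_of_mul hx0) i) (hg _ (right_ne_zero_of_mul hx0) i)

theorem pow_le_Bx {D : ℕ} {S : Submodule K (MvPolynomial σ K)} (hS : S ≤ Bx K σ D) (n : ℕ) :
    S ^ n ≤ Bx K σ (n * D) := by
  classical
  induction n with
  | zero =>
    intro f hf a ha i
    rw [pow_zero, Submodule.mem_one] at hf
    obtain ⟨c, rfl⟩ := hf
    rw [MvPolynomial.algebraMap_eq, coeff_C] at ha
    by_cases h : 0 = a
    · rw [← h]
      simp
    · rw [if_neg h] at ha
      exact absurd rfl ha
  | succ n ih =>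
    intro f hf
    rw [pow_succ] at hf
    refine Submodule.mul_induction_on hf ?_ ?_
    · intro a ha b hb
      rw [Nat.succ_mul]
      exact mul_mem_Bx (ih ha) (hS hb)
    · intro a b ha hb
      exact Submodule.add_mem _ ha hb

theorem exists_mem_Bx [Finite σ] (f : MvPolynomial σ K) : ∃ D, f ∈ Bx K σ D := by
  classical
  have := Fintype.ofFinite σ
  refine ⟨∑ i, f.degreeOf i, fun a ha i => ?_⟩
  refine (MvPolynomial.le_degreeOf_of_mem_support i (mem_support_iff.2 ha)).trans ?_
  exact Finset.single_le_sum (f := fun i => f.degreeOf i) (fun _ _ => Nat.zero_le _)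
    (Finset.mem_univ i)

/-- separating polynomials -/
theorem exists_sep {M : ℕ} {p : Fin M → σ → K} (hp : Function.Injective p) (l : Fin M) :
    ∃ h : MvPolynomial σ K, eval (p l) h = 1 ∧ ∀ k, k ≠ l → eval (p k) h = 0 := by
  classical
  have h1 : ∀ k, k ≠ l → ∃ i, p l i ≠ p k i := by
    intro k hk
    by_contra h
    push Not at h
    exact hk (hp (funext fun i => (h i).symm))
  have h2 : ∀ k, ∃ g : MvPolynomial σ K, k ≠ l → eval (p l) g = 1 ∧ eval (p k) g = 0 := by
    intro k
    by_cases hk : k = l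
    · exact ⟨0, fun h => absurd hk h⟩
    · obtain ⟨i, hi⟩ := h1 k hk
      refine ⟨C ((p l i - p k i)⁻¹) * (X i - C (p k i)), fun _ => ⟨?_, ?_⟩⟩
      · simp only [map_mul, map_sub, eval_X, eval_C]
        exact inv_mul_cancel₀ (sub_ne_zero.2 hi)
      · simp
  choose g hg using h2
  refine ⟨∏ k ∈ Finset.univ.erase l, g k, ?_, ?_⟩
  · rw [map_prod]
    refine Finset.prod_eq_one fun k hk => ?_
    rw [Finset.mem_erase] at hk
    exact (hg k hk.1).1
  · intro k hk
    rw [map_prod]
    refine Finset.prod_eq_zero (i := k) ?_ ?_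
    · rw [Finset.mem_erase]
      exact ⟨hk, Finset.mem_univ _⟩
    · exact (hg k hk).2

/-- Every polynomial is congruent modulo all `(m_l) ^ n` to a polynomial of degree at most
`n d + E₀` in each variable. -/
theorem box_rep [Fintype σ] {M : ℕ} {p : Fin M → σ → K} (hp : Function.Injective p)
    {E : Set (MvPolynomial σ K)} {d : ℕ} (hE : Submodule.span K E ≤ Bx K σ d)
    (hz : ∀ l, ∀ f ∈ E, eval (p l) f = 0)
    (hnd : ∀ l, ∀ v : σ → K, (∀ f ∈ E, ∑ i, v i * eval (p l) (pderiv i f) = 0) → v = 0) :
    ∃ E0 : ℕ, ∀ n : ℕ, ∀ f : MvPolynomial σ K, ∃ g ∈ Bx K σ (n * d + E0),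
      ∀ l, f - g ∈ mI (p l) ^ n := by
  classical
  choose h h1 h0 using fun l => exists_sep hp l
  choose D hD using fun l => exists_mem_Bx (h l)
  refine ⟨∑ l, D l, fun n => ?_⟩
  have hD' : ∀ l, h l ∈ Bx K σ (∑ l, D l) := fun l =>
    Bx_mono (Finset.single_le_sum (f := D) (fun _ _ => Nat.zero_le _) (Finset.mem_univ l)) (hD l)
  induction n with
  | zero =>
    intro f
    refine ⟨0, Submodule.zero_mem _, fun l => ?_⟩
    simp
  | succ n ih =>
    intro f
    obtain ⟨g, hg, hfg⟩ := ih f
    choose e he hue using fun l => pow_step (hz l) (hnd l) n (hfg l)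
    refine ⟨g + ∑ l, h l * e l, ?_, ?_⟩
    · refine Submodule.add_mem _ (Bx_mono ?_ hg) (Submodule.sum_mem _ fun l _ => ?_)
      · rw [Nat.succ_mul]
        omega
      · refine Bx_mono ?_ (mul_mem_Bx (hD' l) (pow_le_Bx hE n (he l)))
        rw [Nat.succ_mul]
        omega
    · intro k
      have e1 : f - (g + ∑ l, h l * e l) =
          (f - g - e k) + (1 - h k) * e k - ∑ l ∈ Finset.univ.erase k, h l * e l := by
        rw [← Finset.add_sum_erase _ _ (Finset.mem_univ k)]
        ring
      rw [e1]
      refine Ideal.sub_mem _ (Ideal.add_mem _ (hue k) ?_) (Ideal.sum_mem _ fun l hl => ?_)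
      · rw [pow_succ, mul_comm (1 - h k)]
        refine Ideal.mul_mem_mul (span_pow_le (hz k) n (he k)) ?_
        rw [mem_mI, map_sub, map_one, h1, sub_self]
      · rw [Finset.mem_erase] at hl
        rw [pow_succ, mul_comm (h l)]
        refine Ideal.mul_mem_mul (span_pow_le (hz k) n (he l)) ?_
        exact mem_mI.2 (h0 l k (Ne.symm hl.1))

/-- translation to the origin -/
noncomputable def tr (p : σ → K) : MvPolynomial σ K →ₐ[K] MvPolynomial σ K :=
  aeval fun i => X i + C (p i)

theorem tr_tr (p : σ → K) (f : MvPolynomial σ K) : tr p (tr (-p) f) = f := by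
  have : (tr p).comp (tr (-p)) = AlgHom.id K _ := by
    refine MvPolynomial.algHom_ext fun i => ?_
    simp [tr]
  exact DFunLike.congr_fun this f

theorem eval_tr (p q : σ → K) (f : MvPolynomial σ K) :
    eval q (tr p f) = eval (fun i => q i + p i) f := by
  have h : ((aeval q : MvPolynomial σ K →ₐ[K] K).comp (tr p)) = aeval fun i => q i + p i := by
    refine MvPolynomial.algHom_ext fun i => ?_
    simp [tr]
  have h2 := DFunLike.congr_fun h f
  rw [AlgHom.comp_apply, MvPolynomial.aeval_eq_eval, MvPolynomial.aeval_eq_eval] at h2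
  exact h2

theorem coeff_of_mem_pow {n : ℕ} {f : MvPolynomial σ K} (hf : f ∈ mI (0 : σ → K) ^ n)
    {a : σ →₀ ℕ} (ha : a.degree < n) : coeff a f = 0 := by
  classical
  induction n generalizing f a with
  | zero => omega
  | succ n ih =>
    rw [pow_succ] at hf
    refine Submodule.mul_induction_on (M := mI (0 : σ → K) ^ n) (N := mI (0 : σ → K)) hf ?_ ?_
    · intro x hx y hy
      rw [coeff_mul]
      refine Finset.sum_eq_zero fun z hz => ?_
      rw [Finset.HasAntidiagonal.mem_antidiagonal] at hz
      by_cases h : z.2 = 0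
      · have h2 : coeff z.2 y = 0 := by
          rw [h]
          have h3 := mem_mI.1 hy
          rw [← constantCoeff_eq]
          rw [← MvPolynomial.eval_zero] 
          exact h3
        rw [h2, mul_zero]
      · have h4 : z.1.degree < n := by
          have h5 : z.1.degree + z.2.degree = a.degree := by
            rw [← hz, map_add]
          have h6 : z.2.degree ≠ 0 := by
            rw [Ne, Finsupp.degree_eq_zero_iff]
            exact h
          omega
        rw [ih hx h4, zero_mul]
    · intro x y hx hy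
      rw [coeff_add, hx, hy, add_zero]

theorem tr_mem {p : σ → K} {n : ℕ} {f : MvPolynomial σ K} (hf : f ∈ mI p ^ n) :
    tr p f ∈ mI (0 : σ → K) ^ n := by
  have h1 : (mI p).map (tr p : MvPolynomial σ K →ₐ[K] MvPolynomial σ K) ≤ mI (0 : σ → K) := by
    rw [Ideal.map_le_iff_le_comap]
    intro g hg
    rw [Ideal.mem_comap, mem_mI]
    have h2 := eval_tr p 0 g
    simp only [Pi.zero_apply, zero_add] at h2
    rw [h2]
    exact hg
  have h3 : tr p f ∈ ((mI p) ^ n).map (tr p : MvPolynomial σ K →ₐ[K] MvPolynomial σ K) :=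
    Ideal.mem_map_of_mem _ hf
  rw [Ideal.map_pow] at h3
  exact Ideal.pow_right_mono h1 n h3

/-- jets of order less than `n` at distinct points can be prescribed -/
theorem jets_surj {M : ℕ} {p : Fin M → σ → K} (hp : Function.Injective p) (n : ℕ)
    (A : Finset (σ →₀ ℕ)) (hA : ∀ a ∈ A, a.degree < n) (c : Fin M → (σ →₀ ℕ) → K) :
    ∃ f : MvPolynomial σ K, ∀ l, ∀ a ∈ A, coeff a (tr (p l) f) = c l a := by
  classical
  let g : Fin M → MvPolynomial σ K := fun l => tr (-(p l)) (∑ a ∈ A, monomial a (c l a))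
  have hcop : Pairwise (Function.onFun IsCoprime fun l => mI (p l) ^ n) := by
    intro l k hlk
    refine IsCoprime.pow ?_
    rw [Ideal.isCoprime_iff_exists]
    obtain ⟨h, h1, h0⟩ := exists_sep hp l
    refine ⟨1 - h, ?_, h, ?_, by ring⟩
    · rw [mem_mI, map_sub, map_one, h1, sub_self]
    · exact mem_mI.2 (h0 k (Ne.symm hlk))
  obtain ⟨f, hf⟩ := Ideal.exists_forall_sub_mem_ideal hcop g
  refine ⟨f, fun l a ha => ?_⟩
  have h1 := coeff_of_mem_pow (tr_mem (hf l)) (hA a ha)
  rw [map_sub, coeff_sub, sub_eq_zero] at h1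
  rw [h1]
  change coeff a (tr (p l) (tr (-(p l)) _)) = _
  rw [tr_tr, coeff_sum]
  rw [Finset.sum_eq_single a]
  · rw [coeff_monomial, if_pos rfl]
  · intro b _ hb
    rw [coeff_monomial, if_neg hb]
  · intro h
    exact absurd ha h

theorem finrank_Bx (K : Type*) [Field K] (σ : Type*) [Fintype σ] (D : ℕ) :
    FiniteDimensional K (Bx K σ D) ∧ finrank K (Bx K σ D) ≤ (D + 1) ^ Fintype.card σ := by
  classical
  let b : (σ → Fin (D + 1)) → MvPolynomial σ K := fun f =>
    monomial (Finsupp.equivFunOnFinite.symm fun i => (f i : ℕ)) 1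
  have hle : Bx K σ D ≤ Submodule.span K (Set.range b) := by
    intro f hf
    rw [MvPolynomial.as_sum f]
    refine Submodule.sum_mem _ fun a ha => ?_
    have h1 : ∀ i, a i ≤ D := hf a (MvPolynomial.mem_support_iff.1 ha)
    have h2 : (monomial a (coeff a f) : MvPolynomial σ K) = coeff a f • monomial a 1 := by
      rw [smul_monomial, smul_eq_mul, mul_one]
    rw [h2]
    refine Submodule.smul_mem _ _ (Submodule.subset_span ?_)
    refine ⟨fun i => ⟨a i, Nat.lt_succ_of_le (h1 i)⟩, ?_⟩
    simp only [b]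
    congr 1
    ext i
    simp
  have hfd : FiniteDimensional K (Submodule.span K (Set.range b)) :=
    FiniteDimensional.span_of_finite K (Set.finite_range b)
  refine ⟨Submodule.finiteDimensional_of_le hle, ?_⟩
  refine (Submodule.finrank_mono hle).trans ?_
  refine (finrank_range_le_card b).trans (le_of_eq ?_)
  simp

/-- many exponents of degree at most `N` -/
theorem card_exponents (σ : Type*) [Fintype σ] (N : ℕ) : ∃ A : Finset (σ →₀ ℕ),
    (∀ a ∈ A, a.degree < N + 1) ∧ N ^ Fintype.card σ ≤ (Fintype.card σ).factorial * A.card := by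
  classical
  let eqv : Sym (Option σ) N ≃ {P : Option σ → ℕ // ∑ i, P i = N} :=
    Sym.equivNatSumOfFintype (Option σ) N
  let F : Sym (Option σ) N → (σ →₀ ℕ) := fun x =>
    Finsupp.equivFunOnFinite.symm fun i => (eqv x).1 (some i)
  have hF : Function.Injective F := by
    intro x y h
    apply eqv.injective
    apply Subtype.ext
    have h1 : ∀ i, (eqv x).1 (some i) = (eqv y).1 (some i) := by
      intro i
      have := DFunLike.congr_fun h i
      simpa [F] using this
    have e1 := (eqv x).2
    have e2 := (eqv y).2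
    rw [Fintype.sum_option] at e1 e2
    simp only [h1] at e1
    funext i
    rcases i with _ | i
    · omega
    · exact h1 i
  refine ⟨Finset.univ.image F, ?_, ?_⟩
  · intro a ha
    rw [Finset.mem_image] at ha
    obtain ⟨x, -, rfl⟩ := ha
    have e1 := (eqv x).2
    rw [Fintype.sum_option] at e1
    have h2 : (F x).degree = ∑ i, (eqv x).1 (some i) := by
      rw [Finsupp.degree_eq_sum]
      simp [F]
    omega
  · rw [Finset.card_image_of_injective _ hF, Finset.card_univ, Sym.card_sym_eq_multichoose,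
      Fintype.card_option]
    set k := Fintype.card σ
    rw [Nat.multichoose_eq]
    have e1 : k + 1 + N - 1 = N + k := by omega
    rw [e1]
    have e2 : (N + k).choose N = (N + k).choose k := by
      rw [← Nat.choose_symm (Nat.le_add_left k N)]
      congr 1
      omega
    rw [e2, ← Nat.descFactorial_eq_factorial_mul_choose]
    refine le_trans ?_ (Nat.pow_sub_le_descFactorial (N + k) k)
    exact Nat.pow_le_pow_left (by omega) k

/-- Divide by `N ^ j` and let `N → ∞`. -/
theorem limit_ineq' (A B D E0 j : ℕ)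
    (h : ∀ N : ℕ, A * N ^ j ≤ B * ((N + 1) * D + E0 + 1) ^ j) : A ≤ B * D ^ j := by
  have h1 : Filter.Tendsto (fun N : ℕ => (B : ℝ) *
      ((D : ℝ) + ((1 : ℝ) * D + E0 + 1) / (N : ℝ)) ^ j) Filter.atTop
      (nhds ((B : ℝ) * ((D : ℝ) + 0) ^ j)) :=
    ((tendsto_const_nhds.add (tendsto_const_div_atTop_nhds_zero_nat _)).pow j).const_mul _
  have h2 : (A : ℝ) ≤ (B : ℝ) * ((D : ℝ) + 0) ^ j := by
    refine ge_of_tendsto h1 ?_
    filter_upwards [Filter.eventually_gt_atTop 0] with N hN
    have hN' : (0 : ℝ) < N := by exact_mod_cast hN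
    have h3 : (A : ℝ) * (N : ℝ) ^ j ≤ B * (((N : ℝ) + 1) * D + E0 + 1) ^ j := by
      exact_mod_cast h N
    have h4 : ((N : ℝ) + 1) * D + E0 + 1 =
        N * ((D : ℝ) + ((1 : ℝ) * D + E0 + 1) / (N : ℝ)) := by
      field_simp
      ring
    rw [h4, mul_pow] at h3
    have h5 : (0 : ℝ) < (N : ℝ) ^ j := by positivity
    refine le_of_mul_le_mul_right ?_ h5
    calc (A : ℝ) * (N : ℝ) ^ j ≤ _ := h3
      _ = _ := by ring
  rw [add_zero] at h2
  exact_mod_cast h2

/-- BEZOUT for nondegenerate common zeros. -/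
theorem nd_bezout [Fintype σ] {M : ℕ} {d : ℕ} (E : Set (MvPolynomial σ K))
    (hE : ∀ f ∈ E, ∀ i, f.degreeOf i ≤ d) (p : Fin M → σ → K) (hp : Function.Injective p)
    (hz : ∀ l, ∀ f ∈ E, eval (p l) f = 0)
    (hnd : ∀ l, ∀ v : σ → K, (∀ f ∈ E, ∑ i, v i * eval (p l) (pderiv i f) = 0) → v = 0) :
    M ≤ (Fintype.card σ).factorial * d ^ Fintype.card σ := by
  classical
  have hE' : Submodule.span K E ≤ Bx K σ d := by
    rw [Submodule.span_le]
    intro f hf a ha i
    exact (MvPolynomial.le_degreeOf_of_mem_support i (mem_support_iff.2 ha)).trans (hE f hf i)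
  obtain ⟨E0, hE0⟩ := box_rep hp hE' hz hnd
  refine limit_ineq' _ _ d E0 _ fun N => ?_
  obtain ⟨A, hA, hcard⟩ := card_exponents σ N
  obtain ⟨hfd, hfr⟩ := finrank_Bx K σ ((N + 1) * d + E0)
  -- the linear map to the jets
  let Φ : MvPolynomial σ K →ₗ[K] (Fin M × A → K) :=
    { toFun := fun f x => coeff x.2.1 (tr (p x.1) f)
      map_add' := fun f g => by
        funext x
        simp
      map_smul' := fun a f => by
        funext x
        simp }
  have hsurj : Function.Surjective (Φ.comp (Bx K σ ((N + 1) * d + E0)).subtype) := by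
    intro c
    obtain ⟨f, hf⟩ := jets_surj hp (N + 1) A hA
      (fun l a => if h : a ∈ A then c (l, ⟨a, h⟩) else 0)
    obtain ⟨g, hg, hfg⟩ := hE0 (N + 1) f
    refine ⟨⟨g, hg⟩, ?_⟩
    funext x
    obtain ⟨l, a, ha⟩ := x
    change coeff a (tr (p l) g) = c (l, ⟨a, ha⟩)
    have h1 := coeff_of_mem_pow (tr_mem (hfg l)) (hA a ha)
    rw [map_sub, coeff_sub, sub_eq_zero] at h1
    rw [← h1, hf l a ha, dif_pos ha]
  have h1 := LinearMap.finrank_le_finrank_of_surjective hsurj
  rw [finrank_fintype_fun_eq_card, Fintype.card_prod, Fintype.card_fin, Fintype.card_coe] at h1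
  calc M * N ^ Fintype.card σ ≤ M * ((Fintype.card σ).factorial * A.card) :=
        Nat.mul_le_mul_left _ hcard
    _ = (Fintype.card σ).factorial * (M * A.card) := by ring
    _ ≤ (Fintype.card σ).factorial * ((N + 1) * d + E0 + 1) ^ Fintype.card σ :=
        Nat.mul_le_mul_left _ (h1.trans hfr)

/-- BEZOUT for nondegenerate common zeros, for a finite set of points. -/
theorem nd_card [Fintype σ] {d : ℕ} (E : Set (MvPolynomial σ K))
    (hE : ∀ f ∈ E, ∀ i, f.degreeOf i ≤ d) (P : Finset (σ → K))
    (hz : ∀ p ∈ P, ∀ f ∈ E, eval p f = 0)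
    (hnd : ∀ p ∈ P, ∀ v : σ → K, (∀ f ∈ E, ∑ i, v i * eval p (pderiv i f) = 0) → v = 0) :
    P.card ≤ (Fintype.card σ).factorial * d ^ Fintype.card σ := by
  let e := P.equivFin.symm
  exact nd_bezout E hE (fun l => (e l : σ → K))
    (fun l k h => e.injective (Subtype.ext h)) (fun l => hz _ (e l).2) (fun l => hnd _ (e l).2)

end

end MP60829e.TV
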