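import Mathlib
import Pool.Agent.Lib.MP_60829e_nt.TV.GridMin
import Pool.Agent.Lib.MP_60829e_nt.TV.NdBez

/-! # Grid points at which a matrix of polynomials has few degenerate directions -/

open MvPolynomial Module

namespace MP60829e.TV.GC

set_option linter.unusedSectionVars false

variable {K σ ν κ : Type} [Field K] [Fintype σ] [DecidableEq σ] [Fintype ν] [Fintype κ]
  [DecidableEq κ]

theorem degreeOf_ent (A : ν → κ → MvPolynomial σ K) {D : ℕ}
    (hA : ∀ s t i, (A s t).degreeOf i ≤ D) (u : ν → K) (w : κ → K) (i : σ) :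
    (ent A u w).degreeOf i ≤ D := by
  unfold ent
  refine (degreeOf_sum_le i _ _).trans (Finset.sup_le fun s _ => ?_)
  refine (degreeOf_sum_le i _ _).trans (Finset.sup_le fun t _ => ?_)
  exact (degreeOf_C_mul_le _ _ _).trans (hA s t i)

theorem degreeOf_minorP (A : ν → κ → MvPolynomial σ K) {D ρ : ℕ}
    (hA : ∀ s t i, (A s t).degreeOf i ≤ D) (u : Fin (ρ + 1) → ν → K) (w : Fin (ρ + 1) → κ → K)
    (i : σ) : (minorP A u w).degreeOf i ≤ D * (ρ + 1) := by
  unfold minorP
  rw [Matrix.det_apply]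
  refine (degreeOf_sum_le i _ _).trans (Finset.sup_le fun s _ => ?_)
  have h1 : ((Equiv.Perm.sign s • ∏ b, (Matrix.of fun b a => ent A (u b) (w a)) (s b) b :
      MvPolynomial σ K)).degreeOf i ≤ (∏ b, ent A (u (s b)) (w b)).degreeOf i := by
    rcases Int.units_eq_one_or (Equiv.Perm.sign s) with h | h
    · rw [h, one_smul]
      exact le_rfl
    · rw [h]
      have h2 : ((-1 : ℤˣ) • ∏ b, (Matrix.of fun b a => ent A (u b) (w a)) (s b) b :
          MvPolynomial σ K) = C (-1) * ∏ b, ent A (u (s b)) (w b) := by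
        rw [Units.smul_def, Units.val_neg, Units.val_one, neg_smul, one_smul, C_neg, C_1,
          neg_one_mul]
        rfl
      rw [h2]
      exact degreeOf_C_mul_le _ _ _
  refine h1.trans ((degreeOf_prod_le i _ _).trans ?_)
  calc ∑ b : Fin (ρ + 1), (ent A (u (s b)) (w b)).degreeOf i ≤ ∑ _b : Fin (ρ + 1), D :=
        Finset.sum_le_sum fun b _ => degreeOf_ent A hA _ _ i
    _ = D * (ρ + 1) := by
        rw [Finset.sum_const, Finset.card_univ, Fintype.card_fin, smul_eq_mul, mul_comm]

/-- A few coordinates determine the elements of a small subspace. -/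
theorem exists_coords : ∀ (n : ℕ) (T : Submodule K (σ → K)), finrank K T ≤ n →
    ∃ J : Finset σ, J.card ≤ n ∧ ∀ v ∈ T, (∀ j ∈ J, v j = 0) → v = 0 := by
  intro n
  induction n with
  | zero =>
    intro T hT
    refine ⟨∅, le_rfl, fun v hv _ => ?_⟩
    have h1 : T = ⊥ := Submodule.finrank_eq_zero.1 (Nat.le_zero.1 hT)
    rw [h1] at hv
    exact (Submodule.mem_bot K).1 hv
  | succ n ih =>
    intro T hT
    by_cases h : T = ⊥
    · refine ⟨∅, Nat.zero_le _, fun v hv _ => ?_⟩
      rw [h] at hv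
      exact (Submodule.mem_bot K).1 hv
    · obtain ⟨v, hv, hv0⟩ := (Submodule.ne_bot_iff T).1 h
      obtain ⟨i, hi⟩ : ∃ i, v i ≠ 0 := by
        by_contra hcon
        push Not at hcon
        exact hv0 (funext hcon)
      obtain ⟨T', hT'⟩ : ∃ T' : Submodule K (σ → K), T' = T ⊓ LinearMap.ker (LinearMap.proj i) :=
        ⟨_, rfl⟩
      have hlt : finrank K T' < finrank K T := by
        apply Submodule.finrank_lt_finrank_of_lt
        rw [hT']
        refine lt_of_le_of_ne inf_le_left fun h2 => hi ?_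
        rw [← h2] at hv
        exact hv.2
      obtain ⟨J, hJ, hJ'⟩ := ih T' (by omega)
      refine ⟨insert i J, (Finset.card_insert_le _ _).trans (by omega), fun w hw hw0 => ?_⟩
      apply hJ' w
      · rw [hT']
        exact ⟨hw, hw0 i (Finset.mem_insert_self _ _)⟩
      · intro j hj
        exact hw0 j (Finset.mem_insert_of_mem hj)

/-- Points with given rank, given coordinates in `J` and directions determined by `J`. -/
theorem class_card (A : ν → κ → MvPolynomial σ K) {D ρ : ℕ} (hD : 1 ≤ D)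
    (hA : ∀ s t i, (A s t).degreeOf i ≤ D) (J : Finset σ) (e : σ → K) (F : Finset (σ → K))
    (hρ : ∀ c ∈ F, finrank K (LinearMap.range (rowMap A c)) = ρ)
    (hJ : ∀ c ∈ F, ∀ v ∈ dirs A c, (∀ j ∈ J, v j = 0) → v = 0)
    (he : ∀ c ∈ F, ∀ j ∈ J, c j = e j) :
    F.card ≤ (Fintype.card σ).factorial * (D * (ρ + 1)) ^ Fintype.card σ := by
  obtain ⟨E, hE⟩ : ∃ E : Set (MvPolynomial σ K), E =
      {f | (∃ (u : Fin (ρ + 1) → ν → K) (w : Fin (ρ + 1) → κ → K), f = minorP A u w) ∨
        ∃ j ∈ J, f = X j - C (e j)} := ⟨_, rfl⟩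
  refine nd_card E ?_ F ?_ ?_
  · intro f hf i
    rw [hE] at hf
    rcases hf with ⟨u, w, rfl⟩ | ⟨j, _, rfl⟩
    · exact degreeOf_minorP A hA u w i
    · refine (degreeOf_sub_le i _ _).trans ?_
      rw [degreeOf_C, Nat.max_zero]
      calc (X j : MvPolynomial σ K).degreeOf i ≤ 1 := by
            refine (degreeOf_le_totalDegree _ _).trans ?_
            rw [totalDegree_X]
        _ ≤ D * (ρ + 1) := Nat.mul_pos hD (Nat.succ_pos _)
  · intro c hc f hf
    rw [hE] at hf
    rcases hf with ⟨u, w, rfl⟩ | ⟨j, hj, rfl⟩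
    · exact eval_minorP_zero A c (hρ c hc).le u w
    · rw [map_sub, eval_X, eval_C, he c hc j hj, sub_self]
  · intro c hc v hv
    have hv' : ∀ f ∈ E, dv c v f = 0 := by
      intro f hf
      rw [← hv f hf]
      exact Finset.sum_congr rfl fun i _ => mul_comm _ _
    apply hJ c hc v
    · refine mem_dirs_of_minors A c v (hρ c hc) fun u w => hv' _ ?_
      rw [hE]
      exact Or.inl ⟨u, w, rfl⟩
    · intro j hj
      have h1 := hv' (X j - C (e j)) (by
        rw [hE]
        exact Or.inr ⟨j, hj, rfl⟩)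
      rwa [dv_X_sub_C] at h1

/-- **Grid count.** -/
theorem grid (A : ν → κ → MvPolynomial σ K) {D : ℕ} (hD : 1 ≤ D)
    (hA : ∀ s t i, (A s t).degreeOf i ≤ D) (m : ℕ) (S : Finset K) (hS : S.Nonempty)
    (F : Finset (σ → K)) (hF : ∀ c ∈ F, (∀ i, c i ∈ S) ∧ finrank K (dirs A c) ≤ m) :
    F.card ≤ (Fintype.card ν + 1) * 2 ^ Fintype.card σ *
      ((Fintype.card σ).factorial * (D * (Fintype.card ν + 1)) ^ Fintype.card σ) * S.card ^ m := by
  classical
  rcases F.eq_empty_or_nonempty with hF0 | hF0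
  · rw [hF0, Finset.card_empty]
    exact Nat.zero_le _
  obtain ⟨b, hb⟩ : ∃ b : ℕ, b = (Fintype.card σ).factorial *
      (D * (Fintype.card ν + 1)) ^ Fintype.card σ := ⟨_, rfl⟩
  rw [← hb]
  -- the coordinate sets
  have hJ : ∀ c : σ → K, ∃ J : Finset σ, c ∈ F → J.card ≤ m ∧
      ∀ v ∈ dirs A c, (∀ j ∈ J, v j = 0) → v = 0 := by
    intro c
    by_cases hc : c ∈ F
    · obtain ⟨J, h1, h2⟩ := exists_coords m (dirs A c) (hF c hc).2
      exact ⟨J, fun _ => ⟨h1, h2⟩⟩
    · exact ⟨∅, fun h => absurd h hc⟩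
  choose J hJ using hJ
  have hrank : ∀ c : σ → K, finrank K (LinearMap.range (rowMap A c)) ≤ Fintype.card ν := by
    intro c
    refine (LinearMap.finrank_range_le _).trans ?_
    rw [finrank_fintype_fun_eq_card]
  have hclass : ∀ x ∈ Finset.range (Fintype.card ν + 1) ×ˢ (Finset.univ : Finset (Finset σ)),
      (F.filter fun c => (finrank K (LinearMap.range (rowMap A c)), J c) = x).card ≤
        b * S.card ^ m := by
    rintro ⟨ρ, I⟩ hx
    obtain ⟨G, hG⟩ : ∃ G : Finset (σ → K), G =
      F.filter fun c => (finrank K (LinearMap.range (rowMap A c)), J c) = (ρ, I) := ⟨_, rfl⟩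
    rw [← hG]
    rcases G.eq_empty_or_nonempty with h0 | ⟨c0, hc0⟩
    · rw [h0, Finset.card_empty]
      exact Nat.zero_le _
    have hGF : ∀ c ∈ G, c ∈ F ∧ finrank K (LinearMap.range (rowMap A c)) = ρ ∧ J c = I := by
      intro c hc
      rw [hG, Finset.mem_filter, Prod.mk.injEq] at hc
      exact hc
    have hIm : I.card ≤ m := by
      rw [← (hGF c0 hc0).2.2]
      exact (hJ c0 (hGF c0 hc0).1).1
    have h1 : G.card ≤ b * (Fintype.piFinset fun _ : I => S).card := by
      refine Finset.card_le_mul_card_image_of_maps_to (f := fun (c : σ → K) (j : I) => c j) ?_ b ?_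
      · intro c hc
        rw [Fintype.mem_piFinset]
        exact fun j => (hF c (hGF c hc).1).1 j
      · intro e _
        have h2 : ρ + 1 ≤ Fintype.card ν + 1 := by
          have := Finset.mem_range.1 (Finset.mem_product.1 hx).1
          omega
        refine (class_card A hD hA I (fun i => if h : i ∈ I then e ⟨i, h⟩ else 0) _ ?_ ?_ ?_).trans
          (?_ : (Fintype.card σ).factorial * (D * (ρ + 1)) ^ Fintype.card σ ≤ b)
        · intro c hc
          exact (hGF c (Finset.mem_filter.1 hc).1).2.1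
        · intro c hc
          have h3 := hGF c (Finset.mem_filter.1 hc).1
          rw [← h3.2.2]
          exact (hJ c h3.1).2
        · intro c hc j hj
          rw [dif_pos hj]
          exact congrFun (Finset.mem_filter.1 hc).2 ⟨j, hj⟩
        · rw [hb]
          exact Nat.mul_le_mul_left _ (Nat.pow_le_pow_left (Nat.mul_le_mul_left _ h2) _)
    refine h1.trans (Nat.mul_le_mul_left _ ?_)
    rw [Fintype.card_piFinset, Finset.prod_const, Finset.card_univ, Fintype.card_coe]
    exact Nat.pow_le_pow_right (Finset.card_pos.2 hS) hIm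
  have h1 := Finset.card_le_mul_card_image_of_maps_to (s := F)
    (t := Finset.range (Fintype.card ν + 1) ×ˢ (Finset.univ : Finset (Finset σ)))
    (f := fun c => (finrank K (LinearMap.range (rowMap A c)), J c))
    (fun c _ => Finset.mem_product.2 ⟨Finset.mem_range.2 (Nat.lt_succ_of_le (hrank c)),
      Finset.mem_univ _⟩) (b * S.card ^ m) hclass
  refine h1.trans (le_of_eq ?_)
  rw [Finset.card_product, Finset.card_range, Finset.card_univ, Fintype.card_finset]
  ring

end MP60829e.TV.GC
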