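import Mathlib
import Pool.Agent.Lib.MP_60829e_nt.TV.NdBez

/-! # Total degree and degree in each variable -/

open MvPolynomial Module

namespace MP60829e.TV

/-- Total degree at most `D` implies degree at most `D` in each variable. -/
theorem Bx_of_totalDegree {K τ : Type} [Field K] {D : ℕ} {f : MvPolynomial τ K}
    (h : f.totalDegree ≤ D) : f ∈ Bx K τ D := by
  classical
  intro a ha i
  refine le_trans ?_ ((le_totalDegree (mem_support_iff.2 ha)).trans h)
  by_cases hi : i ∈ a.support
  · exact Finset.single_le_sum (f := fun i => a i) (fun _ _ => Nat.zero_le _) hi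
  · rw [Finsupp.notMem_support_iff.1 hi]
    exact Nat.zero_le _

end MP60829e.TV
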