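import Mathlib
import Pool.Agent.Lib.MP_60829e_nt.TV.Van

/-! # Linear forms applied to the coefficients; evaluation at points over the small field -/

open MvPolynomial Module

namespace MP60829e.TV

variable {K R σ : Type} [Field K] [CommRing R] [Algebra K R]

/-- The value of a polynomial over the `K`-algebra `R` at a point over `K`. -/
noncomputable def ev (c : σ → K) : MvPolynomial σ R →ₗ[K] R :=
  (aeval (R := R) fun s => algebraMap K R (c s)).toLinearMap.restrictScalars K

/-- The derivative at `c` in the direction `v`. -/
noncomputable def dv [Fintype σ] (c v : σ → K) (G : MvPolynomial σ R) : R :=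
  ∑ s, v s • ev c (pderiv s G)

/-- Apply a `K`-linear form to the coefficients. -/
noncomputable def star (φ : R →ₗ[K] K) (G : MvPolynomial σ R) : MvPolynomial σ K :=
  ∑ a ∈ G.support, monomial a (φ (coeff a G))

theorem coeff_star (φ : R →ₗ[K] K) (G : MvPolynomial σ R) (a : σ →₀ ℕ) :
    coeff a (star φ G) = φ (coeff a G) := by
  classical
  unfold star
  rw [coeff_sum]
  by_cases ha : a ∈ G.support
  · rw [Finset.sum_eq_single a]
    · rw [coeff_monomial, if_pos rfl]
    · intro b _ hb
      rw [coeff_monomial, if_neg hb]
    · intro h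
      exact absurd ha h
  · rw [notMem_support_iff.1 ha, map_zero]
    refine Finset.sum_eq_zero fun b hb => ?_
    rw [coeff_monomial, if_neg]
    intro h
    exact ha (h ▸ hb)

theorem star_add (φ : R →ₗ[K] K) (G H : MvPolynomial σ R) :
    star φ (G + H) = star φ G + star φ H := by
  ext a
  rw [coeff_add, coeff_star, coeff_star, coeff_star, coeff_add, map_add]

theorem star_smul (φ : R →ₗ[K] K) (q : K) (G : MvPolynomial σ R) :
    star φ (q • G) = q • star φ G := by
  ext a
  rw [coeff_smul, coeff_star, coeff_star, coeff_smul, map_smul]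

theorem star_zero (φ : R →ₗ[K] K) : star φ (0 : MvPolynomial σ R) = 0 := by
  ext a
  rw [coeff_star, coeff_zero, coeff_zero, map_zero]

theorem star_sum {ι : Type} (φ : R →ₗ[K] K) (s : Finset ι) (G : ι → MvPolynomial σ R) :
    star φ (∑ i ∈ s, G i) = ∑ i ∈ s, star φ (G i) := by
  classical
  induction s using Finset.induction_on with
  | empty => rw [Finset.sum_empty, Finset.sum_empty, star_zero]
  | insert i s hi ih => rw [Finset.sum_insert hi, Finset.sum_insert hi, star_add, ih]

/-- PROOF. Induction on `G` (`MvPolynomial.induction_on'`), or expand both sides. -/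
theorem eval_star (φ : R →ₗ[K] K) (c : σ → K) (G : MvPolynomial σ R) :
    eval c (star φ G) = φ (ev c G) := by
  classical
  have h1 : ev c G = ∑ a ∈ G.support, (a.prod fun s k => c s ^ k) • coeff a G := by
    change aeval (R := R) (fun s => algebraMap K R (c s)) G = _
    rw [aeval_def, eval₂_eq]
    refine Finset.sum_congr rfl fun a _ => ?_
    rw [Algebra.smul_def, Finsupp.prod, map_prod, Algebra.algebraMap_self, RingHom.id_apply,
      mul_comm]
    congr 1
    refine Finset.prod_congr rfl fun s _ => ?_
    rw [map_pow]
  rw [h1]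
  unfold star
  rw [map_sum, map_sum]
  refine Finset.sum_congr rfl fun a _ => ?_
  rw [eval_monomial, map_smul, smul_eq_mul, mul_comm]

/-- PROOF. Compare coefficients (`coeff_pderiv` if available) or induction on monomials. -/
theorem pderiv_star (φ : R →ₗ[K] K) (s : σ) (G : MvPolynomial σ R) :
    pderiv s (star φ G) = star φ (pderiv s G) := by
  classical
  have hmon : ∀ (a : σ →₀ ℕ) (x : R), star φ (monomial a x) = monomial a (φ x) := by
    intro a x
    ext b
    rw [coeff_star, coeff_monomial, coeff_monomial]
    split_ifs
    · rfl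
    · exact map_zero φ
  have hG : G = ∑ a ∈ G.support, monomial a (coeff a G) := (support_sum_monomial_coeff G).symm
  have h1 : star φ G = ∑ a ∈ G.support, monomial a (φ (coeff a G)) := rfl
  rw [h1, map_sum]
  conv_rhs => rw [hG, map_sum, star_sum]
  refine Finset.sum_congr rfl fun a _ => ?_
  rw [pderiv_monomial, pderiv_monomial, hmon]
  congr 1
  rw [mul_comm, ← nsmul_eq_mul, mul_comm, ← nsmul_eq_mul, map_nsmul]

/-- PROOF. The support of `star φ G` is contained in the support of `G`. -/
theorem totalDegree_star (φ : R →ₗ[K] K) (G : MvPolynomial σ R) :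
    (star φ G).totalDegree ≤ G.totalDegree := by
  classical
  refine Finset.sup_mono ?_
  intro a ha
  rw [MvPolynomial.mem_support_iff] at ha ⊢
  intro h
  exact ha (by rw [coeff_star, h, map_zero])

theorem dv_star [Fintype σ] (φ : R →ₗ[K] K) (c v : σ → K) (G : MvPolynomial σ R) :
    ∑ s, v s * eval c (pderiv s (star φ G)) = φ (dv c v G) := by
  unfold dv
  rw [map_sum]
  refine Finset.sum_congr rfl fun s _ => ?_
  rw [map_smul, smul_eq_mul, pderiv_star, eval_star]

end MP60829e.TV
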