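import Mathlib
import Pool.Agent.Lib.MP_60829e_nt.TV.Star
import Pool.Agent.Lib.MP_60829e_nt.TV.GridCount

/-! # The grid lemma -/

open MvPolynomial Module

namespace MP60829e.TV

variable {K R σ : Type} [Field K] [CommRing R] [Algebra K R]

/-- The space of the values at `c` of the combinations of the polynomials `G k`. -/
noncomputable def vals {N : ℕ} (G : Fin N → MvPolynomial σ R) (c : σ → K) : Submodule K R :=
  Submodule.span K (Set.range fun k => ev c (G k))

/-- There is a space of tangent directions of dimension larger than `m` along which the relations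
at `c` persist. -/
def Good [Fintype σ] {N : ℕ} (L : Submodule K R) (G : Fin N → MvPolynomial σ R) (m : ℕ)
    (c : σ → K) : Prop :=
  ∃ T : Submodule K (σ → K), m < finrank K T ∧ ∀ v ∈ T, ∀ y : Fin N → K,
    ∑ k, y k • ev c (G k) ∈ L → ∑ k, y k • dv c v (G k) ∈ L ⊔ vals G c

/-- The value of a polynomial is a combination of its coefficients. -/
theorem ev_mem (c : σ → K) (H : MvPolynomial σ R) (Y : Submodule K R)
    (h : ∀ a, coeff a H ∈ Y) : ev c H ∈ Y := by
  have h1 : ev c H = ∑ a ∈ H.support, (a.prod fun s e => c s ^ e) • coeff a H := by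
    unfold ev
    rw [LinearMap.restrictScalars_apply, AlgHom.toLinearMap_apply, aeval_def, eval₂_eq]
    apply Finset.sum_congr rfl
    intro a _
    rw [Algebra.smul_def, mul_comm, Finsupp.prod, map_prod]
    simp only [map_pow, Algebra.algebraMap_self, RingHom.id_apply]
  rw [h1]
  exact Submodule.sum_mem _ fun a _ => Submodule.smul_mem _ _ (h a)

/-- Linear forms which separate the points of a finite dimensional space modulo `L`. -/
theorem exists_forms (L : Submodule K R) (Z : Finset R) : ∃ (q : ℕ) (φ : Fin q → R →ₗ[K] K),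
    (∀ j, ∀ x ∈ L, φ j x = 0) ∧
      ∀ x ∈ L ⊔ Submodule.span K (Z : Set R), (∀ j, φ j x = 0) → x ∈ L := by
  obtain ⟨Y, hY⟩ : ∃ Y : Submodule K (R ⧸ L), Y = (Submodule.span K (Z : Set R)).map L.mkQ :=
    ⟨_, rfl⟩
  haveI : FiniteDimensional K Y := by
    rw [hY]
    haveI : FiniteDimensional K (Submodule.span K (Z : Set R)) :=
      FiniteDimensional.span_finset K Z
    infer_instance
  have hψ : ∀ j : Fin (finrank K Y), ∃ ψ : (R ⧸ L) →ₗ[K] K,
      ψ ∘ₗ Y.subtype = (finBasis K Y).coord j := fun j => LinearMap.exists_extend _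
  choose ψ hψ using hψ
  refine ⟨finrank K Y, fun j => ψ j ∘ₗ L.mkQ, fun j x hx => ?_, fun x hx h => ?_⟩
  · rw [LinearMap.comp_apply, (Submodule.Quotient.mk_eq_zero L).2 hx |> fun h : L.mkQ x = 0 => h,
      map_zero]
  · have hxY : L.mkQ x ∈ Y := by
      rw [hY]
      obtain ⟨u, hu, w, hw, rfl⟩ := Submodule.mem_sup.1 hx
      refine ⟨w, hw, ?_⟩
      rw [map_add]
      have h1 : L.mkQ u = 0 := (Submodule.Quotient.mk_eq_zero L).2 hu
      rw [h1, zero_add]
    have h2 : (⟨L.mkQ x, hxY⟩ : Y) = 0 := by
      apply (finBasis K Y).ext_elem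
      intro j
      rw [map_zero, Finsupp.zero_apply]
      have h3 := congrArg (fun f => f ⟨L.mkQ x, hxY⟩) (hψ j)
      simp only [LinearMap.comp_apply, Submodule.subtype_apply] at h3
      rw [← Basis.coord_apply, ← h3]
      exact h j
    have h3 : L.mkQ x = 0 := congrArg Subtype.val h2
    exact (Submodule.Quotient.mk_eq_zero L).1 h3

theorem grid_count [Fintype σ] {N D m : ℕ} (hD : 1 ≤ D) (L : Submodule K R)
    (G : Fin N → MvPolynomial σ R) (hG : ∀ k, (G k).totalDegree ≤ D) (S : Finset K)
    (hS : S.Nonempty) :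
    {c : σ → K | (∀ s, c s ∈ S) ∧ ¬ Good L G m c}.ncard ≤
      (N + 1) * (2 ^ Fintype.card σ * ((Fintype.card σ).factorial *
        ((N + 1) * D) ^ Fintype.card σ)) * S.card ^ m := by
  classical
  -- the coefficients
  obtain ⟨Z, hZ⟩ : ∃ Z : Finset R, Z = (Finset.univ.biUnion fun k =>
      (G k).support.image fun a => coeff a (G k)) ∪ (Finset.univ.biUnion fun k =>
      Finset.univ.biUnion fun s => (pderiv s (G k)).support.image fun a =>
        coeff a (pderiv s (G k))) := ⟨_, rfl⟩
  obtain ⟨q, φ, hφL, hφ⟩ := exists_forms L Z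
  have hc1 : ∀ k a, coeff a (G k) ∈ Submodule.span K (Z : Set R) := by
    intro k a
    by_cases ha : coeff a (G k) = 0
    · rw [ha]
      exact Submodule.zero_mem _
    · apply Submodule.subset_span
      rw [hZ, Finset.mem_coe, Finset.mem_union]
      left
      rw [Finset.mem_biUnion]
      exact ⟨k, Finset.mem_univ _, Finset.mem_image.2 ⟨a, mem_support_iff.2 ha, rfl⟩⟩
  have hc2 : ∀ k s a, coeff a (pderiv s (G k)) ∈ Submodule.span K (Z : Set R) := by
    intro k s a
    by_cases ha : coeff a (pderiv s (G k)) = 0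
    · rw [ha]
      exact Submodule.zero_mem _
    · apply Submodule.subset_span
      rw [hZ, Finset.mem_coe, Finset.mem_union]
      right
      rw [Finset.mem_biUnion]
      refine ⟨k, Finset.mem_univ _, ?_⟩
      rw [Finset.mem_biUnion]
      exact ⟨s, Finset.mem_univ _, Finset.mem_image.2 ⟨a, mem_support_iff.2 ha, rfl⟩⟩
  have hev : ∀ (c : σ → K) k, ev c (G k) ∈ Submodule.span K (Z : Set R) := fun c k => ev_mem c _ _ (hc1 k)
  have hdv : ∀ (c v : σ → K) k, dv c v (G k) ∈ Submodule.span K (Z : Set R) := by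
    intro c v k
    unfold dv
    exact Submodule.sum_mem _ fun s _ => Submodule.smul_mem _ _ (ev_mem c _ _ (hc2 k s))
  obtain ⟨A, hA⟩ : ∃ A : Fin N → Fin q → MvPolynomial σ K, A = fun k j => star (φ j) (G k) :=
    ⟨_, rfl⟩
  have hrow : ∀ c y j, GC.rowMap A c y j = φ j (∑ k, y k • ev c (G k)) := by
    intro c y j
    rw [GC.rowMap_apply, hA, map_sum]
    exact Finset.sum_congr rfl fun k _ => by rw [map_smul, smul_eq_mul, eval_star]
  have hdm : ∀ c v y j, GC.dMap A c v y j = φ j (∑ k, y k • dv c v (G k)) := by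
    intro c v y j
    rw [GC.dMap_apply, hA, map_sum]
    refine Finset.sum_congr rfl fun k _ => ?_
    rw [map_smul, smul_eq_mul, ← dv_star]
    unfold GC.dv
    congr 1
    exact Finset.sum_congr rfl fun s _ => mul_comm _ _
  -- few directions at the exceptional points
  have hbad : ∀ c : σ → K, ¬ Good L G m c → finrank K (GC.dirs A c) ≤ m := by
    intro c hc
    by_contra hlt
    push Not at hlt
    apply hc
    refine ⟨GC.dirs A c, hlt, fun v hv y hy => ?_⟩
    have h1 : GC.rowMap A c y = 0 := by
      funext j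
      rw [hrow, Pi.zero_apply]
      exact hφL j _ hy
    obtain ⟨y', hy'⟩ := hv y h1
    have h2 : ∑ k, y k • dv c v (G k) - ∑ k, y' k • ev c (G k) ∈ L := by
      apply hφ
      · apply Submodule.mem_sup_right
        exact Submodule.sub_mem _ (Submodule.sum_mem _ fun k _ => Submodule.smul_mem _ _
          (hdv c v k)) (Submodule.sum_mem _ fun k _ => Submodule.smul_mem _ _ (hev c k))
      · intro j
        rw [map_sub, ← hdm, ← hrow, hy', sub_self]
    have h3 : ∑ k, y k • dv c v (G k) = (∑ k, y k • dv c v (G k) - ∑ k, y' k • ev c (G k)) +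
        ∑ k, y' k • ev c (G k) := by ring
    rw [h3]
    refine Submodule.add_mem _ (Submodule.mem_sup_left h2) (Submodule.mem_sup_right ?_)
    exact Submodule.sum_mem _ fun k _ => Submodule.smul_mem _ _
      (Submodule.subset_span ⟨k, rfl⟩)
  have hdeg : ∀ k j s, (A k j).degreeOf s ≤ D := by
    intro k j s
    rw [hA]
    exact (degreeOf_le_totalDegree _ _).trans ((totalDegree_star _ _).trans (hG k))
  -- the exceptional set is finite
  have hfin : {c : σ → K | (∀ s, c s ∈ S) ∧ ¬ Good L G m c}.Finite := by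
    refine (Set.Finite.pi' fun _ : σ => S.finite_toSet).subset ?_
    rintro c ⟨hc, _⟩
    exact hc
  rw [Set.ncard_eq_toFinset_card _ hfin]
  have key := GC.grid A hD hdeg m S hS hfin.toFinset (by
    intro c hc
    rw [Set.Finite.mem_toFinset] at hc
    exact ⟨hc.1, hbad c hc.2⟩)
  rw [Fintype.card_fin] at key
  refine key.trans (le_of_eq ?_)
  rw [mul_comm D (N + 1)]
  ring

end MP60829e.TV
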