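import Mathlib
import Pool.Agent.Lib.MP_60829e_nt.TV.NdBez

/-! # Lemma B in the form used by the grid lemma -/

open MvPolynomial Module

namespace MP60829e.TV

/-- The number of nondegenerate common zeros of polynomials of degree at most `d` in each of `j`
variables is at most `j! d ^ j`. -/
theorem bezout {K : Type*} [Field K] {j : Type*} [Fintype j]
    (E : Set (MvPolynomial j K)) (d : ℕ) (hd : ∀ f ∈ E, ∀ i, f.degreeOf i ≤ d)
    (Z : Finset (j → K)) (hz : ∀ f ∈ E, ∀ c ∈ Z, eval c f = 0)
    (hnd : ∀ c ∈ Z, ∀ v : j → K, (∀ f ∈ E, ∑ i, eval c (pderiv i f) * v i = 0) → v = 0) :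
    Z.card ≤ (Fintype.card j).factorial * d ^ Fintype.card j := by
  refine nd_card E hd Z (fun p hp f hf => hz f hf p hp) fun p hp v hv => ?_
  refine hnd p hp v fun f hf => ?_
  rw [← hv f hf]
  exact Finset.sum_congr rfl fun i _ => mul_comm _ _

end MP60829e.TV
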