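import Mathlib
import Pool.Agent.Lib.MP_60829e_nt.TV.Van
import Pool.Agent.Lib.MP_60829e_nt.TV.Bezout

/-! # Bezout inequality for nondegenerate common zeros -/

open MvPolynomial Module

namespace MP60829e.TV

/-- Nondegenerate common zeros of a space of polynomials. -/
theorem bezout_nondeg {K : Type} [Field K] {τ : Type} [Fintype τ] {d : ℕ}
    {E : Submodule K (MvPolynomial τ K)} (hd : E ≤ Bx K τ d) (Z : Finset (τ → K))
    (hE : ∀ f ∈ E, ∀ z ∈ Z, eval z f = 0)
    (hnd : ∀ z ∈ Z, ∀ v : τ → K, (∀ f ∈ E, ∑ i, v i * eval z (pderiv i f) = 0) → v = 0) :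
    Z.card ≤ (Fintype.card τ).factorial * d ^ Fintype.card τ := by
  classical
  refine bezout (E : Set (MvPolynomial τ K)) d (fun f hf i => ?_) Z (fun f hf c hc => hE f hf c hc)
    (fun c hc v hv => hnd c hc v fun f hf => ?_)
  · rw [degreeOf_le_iff]
    intro a ha
    exact hd hf a (mem_support_iff.1 ha) i
  · rw [← hv f hf]
    exact Finset.sum_congr rfl fun i _ => mul_comm _ _

end MP60829e.TV
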