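import Mathlib

/-! # A coordinate subspace transversal to a given subspace -/

open Module

namespace MP60829e.TV

private theorem exists_sep_coord {K σ : Type} [Field K] [Fintype σ] (n : ℕ) :
    ∀ T : Submodule K (σ → K), finrank K T ≤ n →
      ∃ J : Finset σ, J.card ≤ n ∧ ∀ v ∈ T, (∀ s ∈ J, v s = 0) → v = 0 := by
  classical
  induction n with
  | zero =>
    intro T hT
    have h0 : T = ⊥ := Submodule.finrank_eq_zero.1 (Nat.le_zero.1 hT)
    refine ⟨∅, le_refl _, fun v hv _ => ?_⟩
    rw [h0] at hv
    exact (Submodule.mem_bot K).1 hv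
  | succ n ih =>
    intro T hT
    by_cases h0 : T = ⊥
    · refine ⟨∅, by simp, fun v hv _ => ?_⟩
      rw [h0] at hv
      exact (Submodule.mem_bot K).1 hv
    · obtain ⟨v, hv, hv0⟩ := Submodule.exists_mem_ne_zero_of_ne_bot h0
      obtain ⟨s, hs⟩ := Function.ne_iff.1 hv0
      have hlt : T ⊓ LinearMap.ker (LinearMap.proj s : (σ → K) →ₗ[K] K) < T := by
        refine lt_of_le_of_ne inf_le_left fun h => hs ?_
        have h1 : v ∈ T ⊓ LinearMap.ker (LinearMap.proj s : (σ → K) →ₗ[K] K) := by
          rw [h]
          exact hv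
        exact h1.2
      have h2 := Submodule.finrank_lt_finrank_of_lt hlt
      obtain ⟨J, hJ, hJ'⟩ := ih _ (by omega : finrank K ↥(T ⊓ LinearMap.ker
        (LinearMap.proj s : (σ → K) →ₗ[K] K)) ≤ n)
      refine ⟨insert s J, (Finset.card_insert_le s J).trans (by omega), fun w hw h => ?_⟩
      refine hJ' w ⟨hw, ?_⟩ fun t ht => h t (Finset.mem_insert_of_mem ht)
      exact h s (Finset.mem_insert_self s J)

/-- PROOF. The images of the standard basis vectors span `(σ → K) ⧸ T`, a space of dimension
`≥ card σ - m`; choose a subset `I'` of `σ` whose images are a basis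
(`exists_linearIndependent..`, `Submodule.exists_fun_fin_finrank_span_eq` or similar) and a subset
`I ⊆ I'` with `card σ - m` elements (`Finset.exists_subset_card_eq`).  A vector of `T` supported
in `I` is a combination of standard vectors in `I'` with image `0`, so it is `0`. -/
theorem exists_coord {K σ : Type} [Field K] [Fintype σ] (T : Submodule K (σ → K)) {m : ℕ}
    (hT : finrank K T ≤ m) : ∃ I : Finset σ, I.card = Fintype.card σ - m ∧
      ∀ v ∈ T, (∀ s, s ∉ I → v s = 0) → v = 0 := by
  classical
  obtain ⟨J, hJ, hJ'⟩ := exists_sep_coord m T hT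
  have h1 : J.card ≤ min m (Fintype.card σ) := le_min hJ (Finset.card_le_univ J)
  obtain ⟨J', hJJ', hcard⟩ := Finset.exists_superset_card_eq h1 (min_le_right _ _)
  refine ⟨J'ᶜ, ?_, fun v hv h => ?_⟩
  · rw [Finset.card_compl, hcard]
    omega
  · refine hJ' v hv fun s hs => h s ?_
    rw [Finset.mem_compl, not_not]
    exact hJJ' hs

end MP60829e.TV
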