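import Mathlib
import Pool.Agent.Lib.MP_60829e_nt.TV.BezN
import Pool.Agent.Lib.MP_60829e_nt.TV.Coord

/-! # Points of a grid where the tangent space of a system of equations is small -/

open MvPolynomial Module

namespace MP60829e.TV

section slice

variable {K σ : Type} [Field K] [Fintype σ] [DecidableEq σ] (I : Finset σ) (z0 : σ → K)

/-- the substitution `X s ↦ z0 s` outside `I` -/
private noncomputable def gs (s : σ) : MvPolynomial I K :=
  if h : s ∈ I then X ⟨s, h⟩ else C (z0 s)

private theorem eval_gs {z : σ → K} (hz : ∀ s, s ∉ I → z s = z0 s) (f : MvPolynomial σ K) :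
    eval (fun i : I => z i) (aeval (gs I z0) f) = eval z f := by
  have h : ((aeval fun i : I => z i : MvPolynomial I K →ₐ[K] K).comp (aeval (gs I z0))) =
      aeval z := by
    refine MvPolynomial.algHom_ext fun s => ?_
    rw [AlgHom.comp_apply, aeval_X, aeval_X]
    unfold gs
    split_ifs with hs
    · rw [aeval_X]
    · rw [hz s hs, aeval_C]
      rfl
  have h2 := DFunLike.congr_fun h f
  rw [AlgHom.comp_apply, MvPolynomial.aeval_eq_eval, MvPolynomial.aeval_eq_eval] at h2
  exact h2

private theorem pderiv_gs (i : I) (f : MvPolynomial σ K) :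
    pderiv i (aeval (gs I z0) f) = aeval (gs I z0) (pderiv (i : σ) f) := by
  induction f using MvPolynomial.induction_on with
  | C a => simp
  | add f g hf hg => simp only [map_add, hf, hg]
  | mul_X f s hf =>
    have h1 : pderiv i (gs I z0 s) = aeval (gs I z0) (pderiv (i : σ) (X s : MvPolynomial σ K)) := by
      rw [pderiv_X]
      unfold gs
      split_ifs with hs
      · rw [pderiv_X]
        by_cases hi : s = i
        · subst hi
          simp
        · rw [Pi.single_eq_of_ne, Pi.single_eq_of_ne, map_zero]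
          · exact hi
          · intro h
            exact hi (congrArg Subtype.val h)
      · rw [pderiv_C, Pi.single_eq_of_ne, map_zero]
        intro h
        exact hs (h ▸ i.2)
    rw [map_mul, Derivation.leibniz, Derivation.leibniz, aeval_X, hf, h1]
    simp only [smul_eq_mul, map_add, map_mul, aeval_X]

private theorem gs_mem_Bx {d : ℕ} {f : MvPolynomial σ K} (hf : f ∈ Bx K σ d) :
    aeval (gs I z0) f ∈ Bx K I d := by
  classical
  rw [MvPolynomial.as_sum f, map_sum]
  refine Submodule.sum_mem _ fun a ha => ?_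
  have had : ∀ s, a s ≤ d := hf a (mem_support_iff.1 ha)
  rw [aeval_monomial, MvPolynomial.algebraMap_eq, ← smul_eq_C_mul]
  refine Submodule.smul_mem _ _ ?_
  have h1 : (a.prod fun s n => gs I z0 s ^ n) =
      (∏ s ∈ Finset.univ.filter (· ∉ I), z0 s ^ a s) • monomial (a.subtypeDomain (· ∈ I)) (1 : K) := by
    rw [Finsupp.prod_fintype _ _ (fun s => pow_zero _),
      ← Finset.prod_filter_mul_prod_filter_not Finset.univ (· ∈ I), mul_comm]
    rw [smul_eq_C_mul, map_prod]
    congr 1
    · refine Finset.prod_congr rfl fun s hs => ?_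
      rw [Finset.mem_filter] at hs
      rw [gs, dif_neg hs.2, C_pow]
    · rw [monomial_eq, C_1, one_mul, Finsupp.prod_fintype _ _ (fun s => pow_zero _)]
      rw [Finset.prod_subtype (Finset.univ.filter (· ∈ I)) (p := (· ∈ I)) (by simp)]
      refine Finset.prod_congr rfl fun s _ => ?_
      rw [gs, dif_pos s.2]
      rfl
  rw [h1]
  refine Submodule.smul_mem _ _ ?_
  intro b hb i
  rw [coeff_monomial] at hb
  by_cases h : a.subtypeDomain (· ∈ I) = b
  · rw [← h]
    exact had i
  · rw [if_neg h] at hb
    exact absurd rfl hb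

end slice

/-- Restriction of the system to a coordinate subspace.
PROOF. `F = image of E under aeval g`, `g s = X ⟨s, _⟩` for `s ∈ I`, `g s = C (z0 s)` otherwise
(an algebra map `MvPolynomial σ K → MvPolynomial I K`; the image of `Bx σ d` lies in `Bx I d`).
The restrictions to `I` of the points of `Z` are distinct nondegenerate common zeros of `F`:
`eval (z restricted) (aeval g f) = eval z f`, `pderiv s (aeval g f) = aeval g (pderiv s f)` for
`s ∈ I` (chain rule, by induction on `f`), and a vector `v` on `I` is extended by `0`.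
`bezout_nondeg`. -/
theorem slice_count {K σ : Type} [Field K] [Fintype σ] [DecidableEq σ] {d : ℕ}
    {E : Submodule K (MvPolynomial σ K)} (hd : E ≤ Bx K σ d) (I : Finset σ) (z0 : σ → K)
    (Z : Finset (σ → K)) (hI : ∀ z ∈ Z, ∀ s, s ∉ I → z s = z0 s)
    (hE : ∀ z ∈ Z, ∀ f ∈ E, eval z f = 0)
    (hnd : ∀ z ∈ Z, ∀ v : σ → K, (∀ s, s ∉ I → v s = 0) →
      (∀ f ∈ E, ∑ s, v s * eval z (pderiv s f) = 0) → v = 0) :
    Z.card ≤ I.card.factorial * d ^ I.card := by
  classical
  let F : Submodule K (MvPolynomial I K) := E.map (aeval (gs I z0)).toLinearMap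
  have hF : F ≤ Bx K I d := by
    rintro _ ⟨f, hf, rfl⟩
    exact gs_mem_Bx I z0 (hd hf)
  let ρ : (σ → K) → (I → K) := fun z i => z i
  have hinj : Set.InjOn ρ Z := by
    intro z hz w hw h
    funext s
    by_cases hs : s ∈ I
    · exact congrFun h ⟨s, hs⟩
    · rw [hI z hz s hs, hI w hw s hs]
  have h1 := bezout_nondeg (K := K) (τ := I) (d := d) hF (Z.image ρ) ?_ ?_
  · rw [Finset.card_image_of_injOn hinj, Fintype.card_coe] at h1
    exact h1
  · rintro _ ⟨f, hf, rfl⟩ w hw
    obtain ⟨z, hz, rfl⟩ := Finset.mem_image.1 hw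
    change eval (fun i : I => z i) (aeval (gs I z0) f) = 0
    rw [eval_gs I z0 (hI z hz)]
    exact hE z hz f hf
  · rintro w hw v hv
    obtain ⟨z, hz, rfl⟩ := Finset.mem_image.1 hw
    let v' : σ → K := fun s => if h : s ∈ I then v ⟨s, h⟩ else 0
    have hv' : v' = 0 := by
      refine hnd z hz v' (fun s hs => dif_neg hs) fun f hf => ?_
      have h2 := hv (aeval (gs I z0) f) ⟨f, hf, rfl⟩
      have h3 : ∀ i : I, v i * eval (ρ z) (pderiv i (aeval (gs I z0) f)) =
          v' i * eval z (pderiv (i : σ) f) := by
        intro i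
        rw [pderiv_gs]
        change _ * eval (fun i : I => z i) _ = _
        rw [eval_gs I z0 (hI z hz)]
        simp [v', i.2]
      rw [Finset.sum_congr rfl fun i _ => h3 i] at h2
      rw [← Finset.sum_filter_add_sum_filter_not Finset.univ (· ∈ I)]
      have h4 : ∑ s ∈ Finset.univ.filter (fun s => ¬ s ∈ I), v' s * eval z (pderiv s f) = 0 := by
        refine Finset.sum_eq_zero fun s hs => ?_
        rw [Finset.mem_filter] at hs
        rw [show v' s = 0 from dif_neg hs.2, zero_mul]
      rw [h4, add_zero, ← h2]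
      exact Finset.sum_subtype (Finset.univ.filter (· ∈ I)) (p := (· ∈ I)) (by simp) _
    funext i
    have h5 := congrFun hv' i
    simpa [v', i.2] using h5

/-- PROOF. `j = Fintype.card σ`.  If `m ≥ j`: `Z.card ≤ S.card ^ j ≤ S.card ^ m`.  Otherwise
every `c ∈ Z` has by `exists_coord` (applied to the `T` of `hT`) a set `I`, `I.card = j - m`, such
that no nonzero vector supported in `I` is tangent.  There are at most `2 ^ j` sets `I`; for fixed
`I` the map `c ↦ c` restricted to the complement of `I` has at most `S.card ^ m` values and each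
fibre has at most `(j - m)! * d ^ (j - m) ≤ j! * d ^ j` elements by `slice_count`. -/
theorem nondeg_count {K σ : Type} [Field K] [Fintype σ] {d m : ℕ} (hd1 : 1 ≤ d)
    {E : Submodule K (MvPolynomial σ K)} (hd : E ≤ Bx K σ d) (S : Finset K) (hS : S.Nonempty)
    (Z : Finset (σ → K)) (hZS : ∀ c ∈ Z, ∀ s, c s ∈ S) (hE : ∀ c ∈ Z, ∀ f ∈ E, eval c f = 0)
    (hT : ∀ c ∈ Z, ∃ T : Submodule K (σ → K), finrank K T ≤ m ∧
      ∀ v : σ → K, (∀ f ∈ E, ∑ s, v s * eval c (pderiv s f) = 0) → v ∈ T) :
    Z.card ≤ 2 ^ Fintype.card σ * ((Fintype.card σ).factorial * d ^ Fintype.card σ) *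
      S.card ^ m := by
  classical
  set j := Fintype.card σ with hj
  have hS1 : 1 ≤ S.card := hS.card_pos
  -- choice of the coordinates
  have hchoice : ∀ c : σ → K, ∃ I : Finset σ, c ∈ Z → I.card = j - m ∧
      ∀ v : σ → K, (∀ f ∈ E, ∑ s, v s * eval c (pderiv s f) = 0) → (∀ s, s ∉ I → v s = 0) →
        v = 0 := by
    intro c
    by_cases hc : c ∈ Z
    · obtain ⟨T, hTm, hT'⟩ := hT c hc
      obtain ⟨I, hI, hI'⟩ := exists_coord T hTm
      exact ⟨I, fun _ => ⟨hI, fun v hv hv' => hI' v (hT' v hv) hv'⟩⟩
    · exact ⟨∅, fun h => absurd h hc⟩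
  choose I hI using hchoice
  let φ : (σ → K) → Finset σ × (σ → K) := fun c => (I c, fun s => if s ∈ I c then 0 else c s)
  have hfib : ∀ a ∈ Z.image φ, (Z.filter fun x => φ x = a).card ≤ j.factorial * d ^ j := by
    intro a ha
    obtain ⟨c, hc, rfl⟩ := Finset.mem_image.1 ha
    have h1 : ∀ x ∈ Z.filter (fun x => φ x = φ c), x ∈ Z ∧ I x = I c ∧
        ∀ s, s ∉ I c → x s = c s := by
      intro x hx
      rw [Finset.mem_filter] at hx
      have h2 : I x = I c := congrArg Prod.fst hx.2
      refine ⟨hx.1, h2, fun s hs => ?_⟩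
      have h3 := congrFun (congrArg Prod.snd hx.2) s
      simp only [φ] at h3
      rwa [h2, if_neg hs, if_neg hs] at h3
    have h4 := slice_count hd (I c) c (Z.filter fun x => φ x = φ c)
      (fun x hx => (h1 x hx).2.2) (fun x hx => hE x (h1 x hx).1) (fun x hx v hv hv' => by
        have h5 := (hI x (h1 x hx).1).2 v hv'
        rw [(h1 x hx).2.1] at h5
        exact h5 hv)
    refine h4.trans ?_
    have h6 : (I c).card ≤ j := Finset.card_le_univ _
    exact Nat.mul_le_mul (Nat.factorial_le h6) (Nat.pow_le_pow_right hd1 h6)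
  have h7 := Finset.card_le_mul_card_image Z _ hfib
  have himg : (Z.image φ).card ≤ 2 ^ j * S.card ^ m := by
    let W : Finset σ → Finset (Finset σ × (σ → K)) := fun J =>
      (Fintype.piFinset fun s => if s ∈ J then ({0} : Finset K) else S).image fun w => (J, w)
    have hW : ∀ J : Finset σ, (W J).card ≤ S.card ^ (j - J.card) := by
      intro J
      refine Finset.card_image_le.trans ?_
      rw [Fintype.card_piFinset]
      have h8 : ∀ s, (if s ∈ J then ({0} : Finset K) else S).card =
          if s ∈ J then 1 else S.card := by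
        intro s
        split_ifs <;> simp
      rw [Finset.prod_congr rfl fun s _ => h8 s, Finset.prod_ite, Finset.prod_const_one, one_mul,
        Finset.prod_const]
      refine Nat.pow_le_pow_right hS1 (le_of_eq ?_)
      have h9 : (Finset.univ.filter fun s => s ∉ J) = Jᶜ := by
        ext s
        simp
      rw [h9, Finset.card_compl]
    have hsub : Z.image φ ⊆ (Finset.univ.filter fun J : Finset σ => J.card = j - m).biUnion W := by
      intro a ha
      obtain ⟨c, hc, rfl⟩ := Finset.mem_image.1 ha
      rw [Finset.mem_biUnion]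
      refine ⟨I c, ?_, ?_⟩
      · rw [Finset.mem_filter]
        exact ⟨Finset.mem_univ _, (hI c hc).1⟩
      · rw [Finset.mem_image]
        refine ⟨fun s => if s ∈ I c then 0 else c s, ?_, rfl⟩
        rw [Fintype.mem_piFinset]
        intro s
        by_cases hs : s ∈ I c
        · simp [hs]
        · simp only [if_neg hs]
          exact hZS c hc s
    refine (Finset.card_le_card hsub).trans (Finset.card_biUnion_le.trans ?_)
    calc ∑ J ∈ Finset.univ.filter (fun J : Finset σ => J.card = j - m), (W J).card
        ≤ ∑ _J ∈ Finset.univ.filter (fun J : Finset σ => J.card = j - m), S.card ^ m := by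
          refine Finset.sum_le_sum fun J hJ => (hW J).trans ?_
          rw [Finset.mem_filter] at hJ
          refine Nat.pow_le_pow_right hS1 ?_
          rw [hJ.2]
          omega
      _ = (Finset.univ.filter fun J : Finset σ => J.card = j - m).card * S.card ^ m := by
          rw [Finset.sum_const, smul_eq_mul]
      _ ≤ 2 ^ j * S.card ^ m := by
          refine Nat.mul_le_mul_right _ ?_
          refine (Finset.card_le_univ _).trans (le_of_eq ?_)
          rw [Fintype.card_finset]
  calc Z.card ≤ _ := h7
    _ ≤ (j.factorial * d ^ j) * (2 ^ j * S.card ^ m) := Nat.mul_le_mul_left _ himg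
    _ = 2 ^ j * (j.factorial * d ^ j) * S.card ^ m := by ring

end MP60829e.TV
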