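import Mathlib
import Pool.Agent.Lib.MP_60829e_nt.TV.Nondeg
import Pool.Agent.Lib.MP_60829e_nt.TV.Grid

/-! # The grid lemma with the exact exponent of the degree -/

open MvPolynomial Module

namespace MP60829e.TV

/-- Points of a grid where the tangent space is small; the degree enters with the power
`card - m`. -/
theorem nondeg_fine {K σ : Type} [Field K] [Fintype σ] {d m : ℕ} 
    {E : Submodule K (MvPolynomial σ K)} (hd : E ≤ Bx K σ d) (S : Finset K) (hS : S.Nonempty)
    (Z : Finset (σ → K)) (hZS : ∀ c ∈ Z, ∀ s, c s ∈ S) (hE : ∀ c ∈ Z, ∀ f ∈ E, eval c f = 0)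
    (hT : ∀ c ∈ Z, ∃ T : Submodule K (σ → K), finrank K T ≤ m ∧
      ∀ v : σ → K, (∀ f ∈ E, ∑ s, v s * eval c (pderiv s f) = 0) → v ∈ T) :
    Z.card ≤ 2 ^ Fintype.card σ * ((Fintype.card σ).factorial * d ^ (Fintype.card σ - m)) *
      S.card ^ m := by
  classical
  set j := Fintype.card σ with hj
  have hS1 : 1 ≤ S.card := hS.card_pos
  -- choice of the coordinates
  have hchoice : ∀ c : σ → K, ∃ I : Finset σ, c ∈ Z → I.card = j - m ∧
      ∀ v : σ → K, (∀ f ∈ E, ∑ s, v s * eval c (pderiv s f) = 0) → (∀ s, s ∉ I → v s = 0) →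
        v = 0 := by
    intro c
    by_cases hc : c ∈ Z
    · obtain ⟨T, hTm, hT'⟩ := hT c hc
      obtain ⟨I, hI, hI'⟩ := exists_coord T hTm
      exact ⟨I, fun _ => ⟨hI, fun v hv hv' => hI' v (hT' v hv) hv'⟩⟩
    · exact ⟨∅, fun h => absurd h hc⟩
  choose I hI using hchoice
  let φ : (σ → K) → Finset σ × (σ → K) := fun c => (I c, fun s => if s ∈ I c then 0 else c s)
  have hfib : ∀ a ∈ Z.image φ,
      (Z.filter fun x => φ x = a).card ≤ j.factorial * d ^ (j - m) := by
    intro a ha
    obtain ⟨c, hc, rfl⟩ := Finset.mem_image.1 ha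
    have h1 : ∀ x ∈ Z.filter (fun x => φ x = φ c), x ∈ Z ∧ I x = I c ∧
        ∀ s, s ∉ I c → x s = c s := by
      intro x hx
      rw [Finset.mem_filter] at hx
      have h2 : I x = I c := congrArg Prod.fst hx.2
      refine ⟨hx.1, h2, fun s hs => ?_⟩
      have h3 := congrFun (congrArg Prod.snd hx.2) s
      simp only [φ] at h3
      rwa [h2, if_neg hs, if_neg hs] at h3
    have h4 := slice_count hd (I c) c (Z.filter fun x => φ x = φ c)
      (fun x hx => (h1 x hx).2.2) (fun x hx => hE x (h1 x hx).1) (fun x hx v hv hv' => by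
        have h5 := (hI x (h1 x hx).1).2 v hv'
        rw [(h1 x hx).2.1] at h5
        exact h5 hv)
    refine h4.trans ?_
    have h6 : (I c).card ≤ j := Finset.card_le_univ _
    rw [(hI c hc).1] at h6 ⊢
    exact Nat.mul_le_mul_right _ (Nat.factorial_le h6)
  have h7 := Finset.card_le_mul_card_image Z _ hfib
  have himg : (Z.image φ).card ≤ 2 ^ j * S.card ^ m := by
    let W : Finset σ → Finset (Finset σ × (σ → K)) := fun J =>
      (Fintype.piFinset fun s => if s ∈ J then ({0} : Finset K) else S).image fun w => (J, w)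
    have hW : ∀ J : Finset σ, (W J).card ≤ S.card ^ (j - J.card) := by
      intro J
      refine Finset.card_image_le.trans ?_
      rw [Fintype.card_piFinset]
      have h8 : ∀ s, (if s ∈ J then ({0} : Finset K) else S).card =
          if s ∈ J then 1 else S.card := by
        intro s
        split_ifs <;> simp
      rw [Finset.prod_congr rfl fun s _ => h8 s, Finset.prod_ite, Finset.prod_const_one, one_mul,
        Finset.prod_const]
      refine Nat.pow_le_pow_right hS1 (le_of_eq ?_)
      have h9 : (Finset.univ.filter fun s => s ∉ J) = Jᶜ := by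
        ext s
        simp
      rw [h9, Finset.card_compl]
    have hsub : Z.image φ ⊆ (Finset.univ.filter fun J : Finset σ => J.card = j - m).biUnion W := by
      intro a ha
      obtain ⟨c, hc, rfl⟩ := Finset.mem_image.1 ha
      rw [Finset.mem_biUnion]
      refine ⟨I c, ?_, ?_⟩
      · rw [Finset.mem_filter]
        exact ⟨Finset.mem_univ _, (hI c hc).1⟩
      · rw [Finset.mem_image]
        refine ⟨fun s => if s ∈ I c then 0 else c s, ?_, rfl⟩
        rw [Fintype.mem_piFinset]
        intro s
        by_cases hs : s ∈ I c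
        · simp [hs]
        · simp only [if_neg hs]
          exact hZS c hc s
    refine (Finset.card_le_card hsub).trans (Finset.card_biUnion_le.trans ?_)
    calc ∑ J ∈ Finset.univ.filter (fun J : Finset σ => J.card = j - m), (W J).card
        ≤ ∑ _J ∈ Finset.univ.filter (fun J : Finset σ => J.card = j - m), S.card ^ m := by
          refine Finset.sum_le_sum fun J hJ => (hW J).trans ?_
          rw [Finset.mem_filter] at hJ
          refine Nat.pow_le_pow_right hS1 ?_
          rw [hJ.2]
          omega
      _ = (Finset.univ.filter fun J : Finset σ => J.card = j - m).card * S.card ^ m := by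
          rw [Finset.sum_const, smul_eq_mul]
      _ ≤ 2 ^ j * S.card ^ m := by
          refine Nat.mul_le_mul_right _ ?_
          refine (Finset.card_le_univ _).trans (le_of_eq ?_)
          rw [Fintype.card_finset]
  calc Z.card ≤ _ := h7
    _ ≤ (j.factorial * d ^ (j - m)) * (2 ^ j * S.card ^ m) := Nat.mul_le_mul_left _ himg
    _ = 2 ^ j * (j.factorial * d ^ (j - m)) * S.card ^ m := by ring

/-- Grid count, fine form. -/
theorem grid_fine {K σ ν κ : Type} [Field K] [Fintype σ] [DecidableEq σ] [Fintype ν] [Fintype κ]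
    [DecidableEq κ] (A : ν → κ → MvPolynomial σ K) {D : ℕ}
    (hA : ∀ s t i, (A s t).degreeOf i ≤ D) (m : ℕ) (S : Finset K) (hS : S.Nonempty)
    (F : Finset (σ → K)) (hF : ∀ c ∈ F, (∀ i, c i ∈ S) ∧ finrank K (GC.dirs A c) ≤ m) :
    F.card ≤ (Fintype.card ν + 1) * (2 ^ Fintype.card σ * ((Fintype.card σ).factorial *
      (D * (Fintype.card ν + 1)) ^ (Fintype.card σ - m)) * S.card ^ m) := by
  classical
  have hrank : ∀ c : σ → K, finrank K (LinearMap.range (GC.rowMap A c)) ≤ Fintype.card ν := by
    intro c
    refine (LinearMap.finrank_range_le _).trans ?_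
    rw [finrank_fintype_fun_eq_card]
  have hclass : ∀ ρ ∈ Finset.range (Fintype.card ν + 1),
      (F.filter fun c => finrank K (LinearMap.range (GC.rowMap A c)) = ρ).card ≤
        2 ^ Fintype.card σ * ((Fintype.card σ).factorial *
          (D * (Fintype.card ν + 1)) ^ (Fintype.card σ - m)) * S.card ^ m := by
    intro ρ hρ
    let E : Submodule K (MvPolynomial σ K) := Submodule.span K {f | ∃ (u : Fin (ρ + 1) → ν → K)
      (w : Fin (ρ + 1) → κ → K), f = GC.minorP A u w}
    have hE : E ≤ Bx K σ (D * (Fintype.card ν + 1)) := by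
      rw [Submodule.span_le]
      rintro f ⟨u, w, rfl⟩
      rw [SetLike.mem_coe, mem_Bx]
      intro a ha i
      have h1 := GC.degreeOf_minorP A hA u w i
      rw [degreeOf_le_iff] at h1
      refine (h1 a (mem_support_iff.2 ha)).trans (Nat.mul_le_mul_left _ ?_)
      have := Finset.mem_range.1 hρ
      omega
    refine nondeg_fine (E := E) hE S hS _ ?_ ?_ ?_
    · intro c hc
      exact (hF c (Finset.mem_filter.1 hc).1).1
    · intro c hc f hf
      have hcρ := (Finset.mem_filter.1 hc).2
      induction hf using Submodule.span_induction with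
      | mem x hx =>
        obtain ⟨u, w, rfl⟩ := hx
        exact GC.eval_minorP_zero A c hcρ.le u w
      | zero => exact map_zero _
      | add x y _ _ hx hy => rw [map_add, hx, hy, add_zero]
      | smul a x _ hx => rw [smul_eval, hx, mul_zero]
    · intro c hc
      have hcρ := (Finset.mem_filter.1 hc).2
      refine ⟨GC.dirs A c, (hF c (Finset.mem_filter.1 hc).1).2, fun v hv => ?_⟩
      refine GC.mem_dirs_of_minors A c v hcρ fun u w => ?_
      have h1 := hv (GC.minorP A u w) (Submodule.subset_span ⟨u, w, rfl⟩)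
      rw [← h1]
      unfold GC.dv
      exact Finset.sum_congr rfl fun i _ => mul_comm _ _
  have h1 : F.card = ∑ ρ ∈ Finset.range (Fintype.card ν + 1),
      (F.filter fun c => finrank K (LinearMap.range (GC.rowMap A c)) = ρ).card := by
    apply Finset.card_eq_sum_card_fiberwise
    intro c _
    exact Finset.mem_coe.2 (Finset.mem_range.2 (Nat.lt_succ_of_le (hrank c)))
  rw [h1]
  refine (Finset.sum_le_sum hclass).trans (le_of_eq ?_)
  rw [Finset.sum_const, Finset.card_range, smul_eq_mul]

/-- The grid lemma, fine form. -/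
theorem good_count {K R σ : Type} [Field K] [CommRing R] [Algebra K R] [Fintype σ] {N D m : ℕ}
    (L : Submodule K R) (G : Fin N → MvPolynomial σ R) (hG : ∀ k, (G k).totalDegree ≤ D)
    (S : Finset K) (hS : S.Nonempty) :
    {c : σ → K | (∀ s, c s ∈ S) ∧ ¬ Good L G m c}.ncard ≤
      (N + 1) * (2 ^ Fintype.card σ * ((Fintype.card σ).factorial *
        (D * (N + 1)) ^ (Fintype.card σ - m)) * S.card ^ m) := by
  classical
  -- the coefficients
  obtain ⟨Z, hZ⟩ : ∃ Z : Finset R, Z = (Finset.univ.biUnion fun k =>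
      (G k).support.image fun a => coeff a (G k)) ∪ (Finset.univ.biUnion fun k =>
      Finset.univ.biUnion fun s => (pderiv s (G k)).support.image fun a =>
        coeff a (pderiv s (G k))) := ⟨_, rfl⟩
  obtain ⟨q, φ, hφL, hφ⟩ := exists_forms L Z
  have hc1 : ∀ k a, coeff a (G k) ∈ Submodule.span K (Z : Set R) := by
    intro k a
    by_cases ha : coeff a (G k) = 0
    · rw [ha]
      exact Submodule.zero_mem _
    · apply Submodule.subset_span
      rw [hZ, Finset.mem_coe, Finset.mem_union]
      left
      rw [Finset.mem_biUnion]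
      exact ⟨k, Finset.mem_univ _, Finset.mem_image.2 ⟨a, mem_support_iff.2 ha, rfl⟩⟩
  have hc2 : ∀ k s a, coeff a (pderiv s (G k)) ∈ Submodule.span K (Z : Set R) := by
    intro k s a
    by_cases ha : coeff a (pderiv s (G k)) = 0
    · rw [ha]
      exact Submodule.zero_mem _
    · apply Submodule.subset_span
      rw [hZ, Finset.mem_coe, Finset.mem_union]
      right
      rw [Finset.mem_biUnion]
      refine ⟨k, Finset.mem_univ _, ?_⟩
      rw [Finset.mem_biUnion]
      exact ⟨s, Finset.mem_univ _, Finset.mem_image.2 ⟨a, mem_support_iff.2 ha, rfl⟩⟩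
  have hev : ∀ (c : σ → K) k, ev c (G k) ∈ Submodule.span K (Z : Set R) := fun c k => ev_mem c _ _ (hc1 k)
  have hdv : ∀ (c v : σ → K) k, dv c v (G k) ∈ Submodule.span K (Z : Set R) := by
    intro c v k
    unfold dv
    exact Submodule.sum_mem _ fun s _ => Submodule.smul_mem _ _ (ev_mem c _ _ (hc2 k s))
  obtain ⟨A, hA⟩ : ∃ A : Fin N → Fin q → MvPolynomial σ K, A = fun k j => star (φ j) (G k) :=
    ⟨_, rfl⟩
  have hrow : ∀ c y j, GC.rowMap A c y j = φ j (∑ k, y k • ev c (G k)) := by
    intro c y j
    rw [GC.rowMap_apply, hA, map_sum]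
    exact Finset.sum_congr rfl fun k _ => by rw [map_smul, smul_eq_mul, eval_star]
  have hdm : ∀ c v y j, GC.dMap A c v y j = φ j (∑ k, y k • dv c v (G k)) := by
    intro c v y j
    rw [GC.dMap_apply, hA, map_sum]
    refine Finset.sum_congr rfl fun k _ => ?_
    rw [map_smul, smul_eq_mul, ← dv_star]
    unfold GC.dv
    congr 1
    exact Finset.sum_congr rfl fun s _ => mul_comm _ _
  -- few directions at the exceptional points
  have hbad : ∀ c : σ → K, ¬ Good L G m c → finrank K (GC.dirs A c) ≤ m := by
    intro c hc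
    by_contra hlt
    push Not at hlt
    apply hc
    refine ⟨GC.dirs A c, hlt, fun v hv y hy => ?_⟩
    have h1 : GC.rowMap A c y = 0 := by
      funext j
      rw [hrow, Pi.zero_apply]
      exact hφL j _ hy
    obtain ⟨y', hy'⟩ := hv y h1
    have h2 : ∑ k, y k • dv c v (G k) - ∑ k, y' k • ev c (G k) ∈ L := by
      apply hφ
      · apply Submodule.mem_sup_right
        exact Submodule.sub_mem _ (Submodule.sum_mem _ fun k _ => Submodule.smul_mem _ _
          (hdv c v k)) (Submodule.sum_mem _ fun k _ => Submodule.smul_mem _ _ (hev c k))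
      · intro j
        rw [map_sub, ← hdm, ← hrow, hy', sub_self]
    have h3 : ∑ k, y k • dv c v (G k) = (∑ k, y k • dv c v (G k) - ∑ k, y' k • ev c (G k)) +
        ∑ k, y' k • ev c (G k) := by ring
    rw [h3]
    refine Submodule.add_mem _ (Submodule.mem_sup_left h2) (Submodule.mem_sup_right ?_)
    exact Submodule.sum_mem _ fun k _ => Submodule.smul_mem _ _
      (Submodule.subset_span ⟨k, rfl⟩)
  have hdeg : ∀ k j s, (A k j).degreeOf s ≤ D := by
    intro k j s
    rw [hA]
    exact (degreeOf_le_totalDegree _ _).trans ((totalDegree_star _ _).trans (hG k))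
  -- the exceptional set is finite
  have hfin : {c : σ → K | (∀ s, c s ∈ S) ∧ ¬ Good L G m c}.Finite := by
    refine (Set.Finite.pi' fun _ : σ => S.finite_toSet).subset ?_
    rintro c ⟨hc, _⟩
    exact hc
  rw [Set.ncard_eq_toFinset_card _ hfin]
  have key := grid_fine A hdeg m S hS hfin.toFinset (by
    intro c hc
    rw [Set.Finite.mem_toFinset] at hc
    exact ⟨hc.1, hbad c hc.2⟩)
  rw [Fintype.card_fin] at key
  exact key

end MP60829e.TV
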