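import Mathlib
import Pool.Agent.Lib.MP_60829e_nt.TV.Star

/-! # Substituting linear combinations of fixed numbers -/

open MvPolynomial Module

namespace MP60829e.TV

variable {K R : Type} [Field K] [CommRing R] [Algebra K R] {n r : ℕ}

/-- The point with coordinates `∑ j, c (i, j) • t j`. -/
noncomputable def pt (t : Fin r → R) (c : Fin n × Fin r → K) (i : Fin n) : R :=
  ∑ j, c (i, j) • t j

/-- The polynomial in the coefficients obtained by substituting `∑ j, X (i, j) t j` for `X i`. -/
noncomputable def sub (t : Fin r → R) (f : MvPolynomial (Fin n) R) :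
    MvPolynomial (Fin n × Fin r) R :=
  aeval (fun i => ∑ j, C (t j) * X (i, j)) f

theorem ev_mul {σ : Type} (c : σ → K) (G H : MvPolynomial σ R) :
    ev c (G * H) = ev c G * ev c H := map_mul (aeval (R := R) fun s => algebraMap K R (c s)) G H

theorem ev_C {σ : Type} (c : σ → K) (a : R) : ev c (C a : MvPolynomial σ R) = a :=
  (algHom_C (aeval (R := R) fun s => algebraMap K R (c s)) a)

theorem ev_X {σ : Type} (c : σ → K) (s : σ) : ev c (X s : MvPolynomial σ R) =
    algebraMap K R (c s) := aeval_X _ s

theorem dv_add {σ : Type} [Fintype σ] (c v : σ → K) (G H : MvPolynomial σ R) :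
    dv c v (G + H) = dv c v G + dv c v H := by
  unfold dv
  rw [← Finset.sum_add_distrib]
  refine Finset.sum_congr rfl fun s _ => ?_
  rw [map_add, map_add, smul_add]

theorem dv_mul {σ : Type} [Fintype σ] (c v : σ → K) (G H : MvPolynomial σ R) :
    dv c v (G * H) = dv c v G * ev c H + ev c G * dv c v H := by
  unfold dv
  rw [Finset.sum_mul, Finset.mul_sum, ← Finset.sum_add_distrib]
  refine Finset.sum_congr rfl fun s _ => ?_
  rw [pderiv_mul, map_add, ev_mul, ev_mul, smul_add, smul_mul_assoc, mul_smul_comm]

theorem dv_C {σ : Type} [Fintype σ] (c v : σ → K) (a : R) :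
    dv c v (C a : MvPolynomial σ R) = 0 := by
  unfold dv
  refine Finset.sum_eq_zero fun s _ => ?_
  rw [pderiv_C, map_zero, smul_zero]

theorem dv_sum {σ ι : Type} [Fintype σ] (c v : σ → K) (s : Finset ι)
    (G : ι → MvPolynomial σ R) : dv c v (∑ i ∈ s, G i) = ∑ i ∈ s, dv c v (G i) := by
  classical
  induction s using Finset.induction_on with
  | empty =>
    rw [Finset.sum_empty, Finset.sum_empty, ← C_0, dv_C]
  | insert i s hi ih => rw [Finset.sum_insert hi, Finset.sum_insert hi, dv_add, ih]

theorem dv_X {σ : Type} [Fintype σ] (c v : σ → K) (s : σ) :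
    dv c v (X s : MvPolynomial σ R) = algebraMap K R (v s) := by
  classical
  unfold dv
  rw [Finset.sum_eq_single s]
  · rw [pderiv_X_self, ← C_1, ev_C, Algebra.smul_def, mul_one]
  · intro s' _ hs'
    rw [pderiv_X_of_ne (Ne.symm hs'), map_zero, smul_zero]
  · intro h
    exact absurd (Finset.mem_univ s) h

theorem ev_sub (t : Fin r → R) (c : Fin n × Fin r → K) (f : MvPolynomial (Fin n) R) :
    ev c (sub t f) = eval (pt t c) f := by
  induction f using MvPolynomial.induction_on with
  | C a =>
    unfold sub
    rw [algHom_C, algebraMap_eq, ev_C, eval_C]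
  | add p q hp hq =>
    have h1 : sub t (p + q) = sub t p + sub t q := map_add _ _ _
    rw [h1, map_add, hp, hq, map_add]
  | mul_X p i hp =>
    have h1 : sub t (p * X i) = sub t p * sub t (X i) := map_mul _ _ _
    have h2 : sub t (X i : MvPolynomial (Fin n) R) = ∑ j, C (t j) * X (i, j) := aeval_X _ i
    rw [h1, ev_mul, hp, map_mul, eval_X, h2, map_sum]
    congr 1
    unfold pt
    refine Finset.sum_congr rfl fun j _ => ?_
    rw [ev_mul, ev_C, ev_X, Algebra.smul_def, mul_comm]

/-- Chain rule. -/
theorem dv_sub (t : Fin r → R) (c v : Fin n × Fin r → K) (f : MvPolynomial (Fin n) R) :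
    dv c v (sub t f) = ∑ i, eval (pt t c) (pderiv i f) * pt t v i := by
  classical
  induction f using MvPolynomial.induction_on with
  | C a =>
    have h1 : sub t (C a : MvPolynomial (Fin n) R) = C a := algHom_C _ a
    rw [h1, dv_C]
    symm
    refine Finset.sum_eq_zero fun i _ => ?_
    rw [pderiv_C, map_zero, zero_mul]
  | add p q hp hq =>
    have h1 : sub t (p + q) = sub t p + sub t q := map_add _ _ _
    rw [h1, dv_add, hp, hq, ← Finset.sum_add_distrib]
    refine Finset.sum_congr rfl fun i _ => ?_
    rw [map_add, map_add, add_mul]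
  | mul_X p i hp =>
    have h1 : sub t (p * X i) = sub t p * sub t (X i) := map_mul _ _ _
    have h2 : sub t (X i : MvPolynomial (Fin n) R) = ∑ j, C (t j) * X (i, j) := aeval_X _ i
    have h3 : dv c v (sub t (X i : MvPolynomial (Fin n) R)) = pt t v i := by
      rw [h2, dv_sum]
      unfold pt
      refine Finset.sum_congr rfl fun j _ => ?_
      rw [dv_mul, dv_C, zero_mul, zero_add, ev_C, dv_X, Algebra.smul_def, mul_comm]
    rw [h1, dv_mul, hp, h3, ev_sub, ev_sub, eval_X]
    have h4 : ∀ i', eval (pt t c) (pderiv i' (p * X i)) * pt t v i' =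
        eval (pt t c) (pderiv i' p) * pt t v i' * pt t c i +
          (if i' = i then eval (pt t c) p * pt t v i else 0) := by
      intro i'
      rw [pderiv_mul, map_add, map_mul, map_mul, eval_X]
      split_ifs with h
      · subst h
        rw [pderiv_X_self, map_one]
        ring
      · rw [pderiv_X_of_ne (Ne.symm h), map_zero]
        ring
    rw [Finset.sum_congr rfl fun i' _ => h4 i', Finset.sum_add_distrib, Finset.sum_ite_eq',
      if_pos (Finset.mem_univ i), Finset.sum_mul]

theorem totalDegree_lin (t : Fin r → R) (i : Fin n) :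
    (∑ j, C (t j) * X (i, j) : MvPolynomial (Fin n × Fin r) R).totalDegree ≤ 1 := by
  refine (totalDegree_finsetSum _ _).trans (Finset.sup_le fun j _ => ?_)
  refine (totalDegree_mul _ _).trans ?_
  rw [totalDegree_C, zero_add]
  by_cases hR : Nontrivial R
  · rw [totalDegree_X]
  · rw [not_nontrivial_iff_subsingleton] at hR
    have h1 : (X (i, j) : MvPolynomial (Fin n × Fin r) R) = 0 := Subsingleton.elim _ _
    rw [h1, totalDegree_zero]
    exact Nat.zero_le _

theorem totalDegree_sub (t : Fin r → R) (f : MvPolynomial (Fin n) R) :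
    (sub t f).totalDegree ≤ f.totalDegree := by
  classical
  have h1 : sub t f = ∑ m ∈ f.support, C (coeff m f) *
      ∏ i, (∑ j, C (t j) * X (i, j) : MvPolynomial (Fin n × Fin r) R) ^ m i := by
    unfold sub
    rw [aeval_def, eval₂_eq']
    rfl
  rw [h1]
  refine (totalDegree_finsetSum _ _).trans (Finset.sup_le fun m hm => ?_)
  refine (totalDegree_mul _ _).trans ?_
  rw [totalDegree_C, zero_add]
  refine (totalDegree_finsetProd _ _).trans ?_
  have h2 := le_totalDegree hm
  rw [Finsupp.sum_fintype _ _ fun _ => rfl] at h2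
  refine le_trans (Finset.sum_le_sum fun i _ => ?_) h2
  refine (totalDegree_pow _ _).trans ?_
  calc m i * _ ≤ m i * 1 := Nat.mul_le_mul_left _ (totalDegree_lin t i)
    _ = m i := mul_one _

theorem sub_add (t : Fin r → R) (f g : MvPolynomial (Fin n) R) :
    sub t (f + g) = sub t f + sub t g := map_add _ _ _

theorem sub_smul (t : Fin r → R) (q : K) (f : MvPolynomial (Fin n) R) :
    sub t (q • f) = q • sub t f := by
  unfold sub
  rw [← algebraMap_smul R q f, map_smul, algebraMap_smul]

/-- A space of dimension larger than `(n - 1) r + κ` of matrices contains a space of dimension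
larger than `κ` of matrices supported in the row `i`; if the `t j` are independent, the
corresponding combinations form a space of the same dimension. -/
theorem row_space (t : Fin r → R) (ht : LinearIndependent K t) {κ : ℕ}
    (T : Submodule K (Fin n × Fin r → K)) (hT : (n - 1) * r + κ < finrank K T) (i : Fin n) :
    ∃ Z : Submodule K R, FiniteDimensional K Z ∧ κ < finrank K Z ∧
      ∀ z ∈ Z, ∃ v ∈ T, pt t v i = z ∧ ∀ i', i' ≠ i → pt t v i' = 0 := by
  classical
  obtain ⟨φ, hφ⟩ : ∃ φ : (Fin n × Fin r → K) →ₗ[K] ({i' : Fin n // i' ≠ i} × Fin r → K),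
      φ = LinearMap.funLeft K K fun p : {i' : Fin n // i' ≠ i} × Fin r => (p.1.1, p.2) :=
    ⟨_, rfl⟩
  have hφ' : ∀ v p, φ v p = v (p.1.1, p.2) := by
    intro v p
    rw [hφ]
    rfl
  obtain ⟨ψ, hψ⟩ : ∃ ψ : (Fin n × Fin r → K) →ₗ[K] R, ψ =
      (Fintype.linearCombination K t).comp (LinearMap.funLeft K K fun j : Fin r => (i, j)) :=
    ⟨_, rfl⟩
  have hψ' : ∀ v, ψ v = pt t v i := by
    intro v
    rw [hψ]
    rfl
  obtain ⟨T0, hT0⟩ : ∃ T0 : Submodule K (Fin n × Fin r → K), T0 = T ⊓ LinearMap.ker φ :=
    ⟨_, rfl⟩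
  have h1 : κ < finrank K T0 := by
    have h2 := LinearMap.finrank_range_add_finrank_ker (φ.domRestrict T)
    have h3 : finrank K (LinearMap.range (φ.domRestrict T)) ≤ (n - 1) * r := by
      refine (Submodule.finrank_le _).trans (le_of_eq ?_)
      rw [finrank_fintype_fun_eq_card, Fintype.card_prod, Fintype.card_fin,
        Fintype.card_subtype_compl, Fintype.card_fin, Fintype.card_unique]
    have h4 : finrank K (LinearMap.ker (φ.domRestrict T)) = finrank K T0 := by
      have h5 : T0 = (LinearMap.ker (φ.domRestrict T)).map T.subtype := by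
        rw [hT0]
        ext v
        rw [Submodule.mem_map, Submodule.mem_inf, LinearMap.mem_ker]
        constructor
        · rintro ⟨hv, hv'⟩
          exact ⟨⟨v, hv⟩, hv', rfl⟩
        · rintro ⟨w, hw, rfl⟩
          exact ⟨w.2, hw⟩
      rw [h5]
      exact (LinearEquiv.finrank_eq (Submodule.equivMapOfInjective _ T.injective_subtype _))
    omega
  refine ⟨T0.map ψ, inferInstance, ?_, ?_⟩
  · have h2 : Function.Injective (ψ.domRestrict T0) := by
      rw [← LinearMap.ker_eq_bot, LinearMap.ker_eq_bot']
      rintro ⟨v, hv⟩ hv0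
      have hv1 : v ∈ T ⊓ LinearMap.ker φ := by
        rw [← hT0]
        exact hv
      have h3 : ψ v = 0 := hv0
      rw [hψ'] at h3
      have h4 := (Fintype.linearIndependent_iff.1 ht) (fun j => v (i, j)) h3
      apply Subtype.ext
      funext p
      by_cases hp : p.1 = i
      · have h5 := h4 p.2
        rw [← hp] at h5
        exact h5
      · have h5 : φ v = 0 := hv1.2
        have h6 := congrFun h5 (⟨p.1, hp⟩, p.2)
        rw [hφ'] at h6
        exact h6
    have h3 := LinearMap.finrank_range_of_inj h2
    have h4 : LinearMap.range (ψ.domRestrict T0) = T0.map ψ := by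
      rw [LinearMap.range_domRestrict]
    rw [← h4, h3]
    exact h1
  · rintro z ⟨v, hv, rfl⟩
    have hv1 : v ∈ T ⊓ LinearMap.ker φ := by
      rw [← hT0]
      exact hv
    refine ⟨v, hv1.1, (hψ' v).symm, fun i' hi' => ?_⟩
    unfold pt
    refine Finset.sum_eq_zero fun j _ => ?_
    have h5 : φ v = 0 := hv1.2
    have h6 := congrFun h5 (⟨i', hi'⟩, j)
    rw [hφ'] at h6
    have h7 : v (i', j) = 0 := h6
    rw [h7, zero_smul]

end MP60829e.TV
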