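import Mathlib
import Pool.Agent.Lib.MP_60829e_nt.TV.Van

/-! # The derivative of a determinant at a bordered identity matrix -/

open MvPolynomial Module

namespace MP60829e.TV

/-- PROOF. Laplace expansion along row `0` (`Matrix.det_succ_row_zero`):
`det m = ∑ b, (-1) ^ b * m 0 b * det (m.submatrix Fin.succ (Fin.succAbove b))`.  Derivative at `c`:
all `m 0 b` vanish at `c`, so only the derivatives of `m 0 b` count, times the value at `c` of the
minor; for `b ≠ 0` this minor has the column `0` of `m`, which is zero at `c` (rows `succ a`); for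
`b = 0` the minor is the identity matrix at `c`. -/
theorem det_deriv {K σ : Type} [Field K] [Fintype σ] {ρ : ℕ}
    (m : Matrix (Fin (ρ + 1)) (Fin (ρ + 1)) (MvPolynomial σ K)) (c v : σ → K)
    (h0 : ∀ b, eval c (m 0 b) = 0) (h0' : ∀ a, eval c (m a 0) = 0)
    (h1 : ∀ a b : Fin ρ, eval c (m a.succ b.succ) = if a = b then 1 else 0) :
    ∑ s, v s * eval c (pderiv s m.det) = ∑ s, v s * eval c (pderiv s (m 0 0)) := by
  classical
  refine Finset.sum_congr rfl fun s _ => ?_
  congr 1
  rw [Matrix.det_succ_row_zero, map_sum, map_sum, Fin.sum_univ_succ]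
  have hminor : eval c (m.submatrix Fin.succ (Fin.succAbove 0)).det = 1 := by
    rw [RingHom.map_det]
    have : (eval c).mapMatrix (m.submatrix Fin.succ (Fin.succAbove 0)) = 1 := by
      ext a b
      rw [RingHom.mapMatrix_apply, Matrix.map_apply, Matrix.submatrix_apply, Fin.zero_succAbove,
        h1, Matrix.one_apply]
    rw [this, Matrix.det_one]
  have hzero : ∀ b : Fin ρ,
      eval c (m.submatrix Fin.succ (Fin.succAbove b.succ)).det = 0 := by
    intro b
    rw [RingHom.map_det]
    refine Matrix.det_eq_zero_of_column_eq_zero ⟨0, lt_of_le_of_lt (Nat.zero_le _) b.2⟩ fun a => ?_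
    rw [RingHom.mapMatrix_apply, Matrix.map_apply, Matrix.submatrix_apply]
    have hb : Fin.succAbove b.succ (⟨0, lt_of_le_of_lt (Nat.zero_le _) b.2⟩ : Fin ρ) = 0 := by
      rw [Fin.succAbove_of_castSucc_lt]
      · rfl
      · rw [Fin.lt_def]
        simp
    rw [hb]
    exact h0' _
  have key : ∀ b : Fin (ρ + 1),
      eval c (pderiv s ((-1) ^ (b : ℕ) * m 0 b * (m.submatrix Fin.succ (Fin.succAbove b)).det)) =
      (-1) ^ (b : ℕ) * eval c (pderiv s (m 0 b)) *
        eval c (m.submatrix Fin.succ (Fin.succAbove b)).det := by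
    intro b
    have h2 : ((-1) ^ (b : ℕ) : MvPolynomial σ K) = C ((-1) ^ (b : ℕ)) := by simp
    have h3 : eval c (C ((-1) ^ (b : ℕ)) * m 0 b) = 0 := by rw [map_mul, h0 b, mul_zero]
    rw [h2, pderiv_mul, pderiv_C_mul, map_add, map_mul, map_mul, map_mul, eval_C, h3, zero_mul,
      add_zero]
  rw [key 0, hminor]
  have hrest : ∑ i : Fin ρ, eval c (pderiv s ((-1) ^ ((i.succ : Fin (ρ + 1)) : ℕ) * m 0 i.succ *
      (m.submatrix Fin.succ (Fin.succAbove i.succ)).det)) = 0 := by
    refine Finset.sum_eq_zero fun i _ => ?_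
    rw [key, hzero, mul_zero]
  rw [hrest]
  simp

/-- PROOF. `Matrix.det_apply`, `totalDegree_finset_sum`, `totalDegree_finsetProd`. -/
theorem det_degree {K σ : Type} [Field K] {ρ D : ℕ}
    (m : Matrix (Fin ρ) (Fin ρ) (MvPolynomial σ K)) (h : ∀ a b, (m a b).totalDegree ≤ D) :
    m.det.totalDegree ≤ ρ * D := by
  classical
  rw [Matrix.det_apply]
  refine totalDegree_finsetSum_le fun σ' _ => ?_
  refine (totalDegree_smul_le _ _).trans ?_
  refine (totalDegree_finsetProd _ _).trans ?_
  calc ∑ i, (m (σ' i) i).totalDegree ≤ ∑ _i : Fin ρ, D := Finset.sum_le_sum fun i _ => h _ _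
    _ = ρ * D := by simp

end MP60829e.TV
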