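import Mathlib
import Pool.Agent.Lib.MP_60829e_nt.TV.Step

/-! # From small partial derivatives to linear polynomials -/

open MvPolynomial Module

namespace MP60829e.TV

/-- Iterated partial derivatives. -/
noncomputable def dl {n : ℕ} (ws : List (Fin n)) (f : MvPolynomial (Fin n) ℂ) :
    MvPolynomial (Fin n) ℂ := ws.foldr (fun i g => pderiv i g) f

/-- The family of the derivatives `dl ws (g k)` and the constant `1`. -/
noncomputable def fam {n N : ℕ} (g : Fin N → MvPolynomial (Fin n) ℂ) (ws : List (Fin n)) :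
    Fin (N + 1) → MvPolynomial (Fin n) ℂ := Fin.snoc (fun k => dl ws (g k)) 1

/-- A polynomial without derivatives is constant. -/
theorem const_of_pderiv {n : ℕ} (f : MvPolynomial (Fin n) ℂ) (h : ∀ i, pderiv i f = 0) :
    ∃ a : ℂ, f = C a := by
  classical
  refine ⟨coeff 0 f, ?_⟩
  ext b
  rw [coeff_C]
  split_ifs with hb
  · rw [hb]
  · obtain ⟨i, hi⟩ : ∃ i, b i ≠ 0 := by
      by_contra hcon
      push Not at hcon
      exact hb (Finsupp.ext fun i => (hcon i).symm)
    have h1 := congrArg (coeff (b - Finsupp.single i 1)) (h i)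
    rw [coeff_pderiv, coeff_zero] at h1
    have h2 : b - Finsupp.single i 1 + Finsupp.single i 1 = b := by
      ext j
      rw [Finsupp.add_apply, Finsupp.tsub_apply, Finsupp.single_apply]
      split_ifs with hj
      · subst hj
        omega
      · omega
    rw [h2] at h1
    rcases mul_eq_zero.1 h1 with h3 | h3
    · exact h3
    · exfalso
      have h4 : (((b - Finsupp.single i 1 : Fin n →₀ ℕ) i : ℕ) : ℂ) + 1 ≠ 0 :=
        Nat.cast_add_one_ne_zero _
      exact h4 h3

/-- The degree drops by differentiation. -/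
theorem totalDegree_pderiv {n d : ℕ} (i : Fin n) (f : MvPolynomial (Fin n) ℂ)
    (h : f.totalDegree ≤ d + 1) : (pderiv i f).totalDegree ≤ d := by
  classical
  apply Finset.sup_le
  intro b hb
  rw [MvPolynomial.mem_support_iff, coeff_pderiv] at hb
  have h1 : coeff (b + Finsupp.single i 1) f ≠ 0 := fun h2 => hb (by rw [h2, zero_mul])
  have h2 := (le_totalDegree (MvPolynomial.mem_support_iff.2 h1)).trans h
  rw [Finsupp.sum_add_index' (fun _ => rfl) (fun _ _ _ => rfl), Finsupp.sum_single_index rfl] at h2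
  omega

/-- Derivatives of elements of the span of the family. -/
theorem pderiv_mem_fam {𝕜 : IntermediateField ℚ ℂ} {n N : ℕ}
    (g : Fin N → MvPolynomial (Fin n) ℂ) (ws : List (Fin n)) (j : Fin n)
    (h : MvPolynomial (Fin n) ℂ) (hh : h ∈ Submodule.span 𝕜 (Set.range (fam g ws))) :
    pderiv j h ∈ Submodule.span 𝕜 (Set.range (fam g (j :: ws))) := by
  refine Submodule.span_induction (p := fun f _ => pderiv j f ∈
    Submodule.span 𝕜 (Set.range (fam g (j :: ws)))) ?_ ?_ ?_ ?_ hh
  · rintro f ⟨k, rfl⟩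
    refine Fin.lastCases ?_ (fun k => ?_) k
    · unfold fam
      rw [Fin.snoc_last, pderiv_one]
      exact Submodule.zero_mem _
    · have h1 : pderiv j (fam g ws k.castSucc) = fam g (j :: ws) k.castSucc := by
        unfold fam
        rw [Fin.snoc_castSucc, Fin.snoc_castSucc]
        rfl
      rw [h1]
      exact Submodule.subset_span ⟨_, rfl⟩
  · rw [map_zero]
    exact Submodule.zero_mem _
  · intro f f' _ _ hf hf'
    rw [map_add]
    exact Submodule.add_mem _ hf hf'
  · intro q f _ hf
    have h1 : pderiv j (q • f) = q • pderiv j f := by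
      rw [← algebraMap_smul ℂ q f, Derivation.map_smul, algebraMap_smul]
    rw [h1]
    exact Submodule.smul_mem _ _ hf

/-- No nonzero element of the span of the family vanishes at the point. -/
theorem descend {𝕜 : IntermediateField ℚ ℂ} {n r N D : ℕ} (t : Fin r → ℂ)
    (ht : LinearIndependent 𝕜 t) (g : Fin N → MvPolynomial (Fin n) ℂ) (c : Fin n × Fin r → 𝕜)
    (hc : ∀ ws : List (Fin n), ws.length ≤ D →
      Good (⊥ : Submodule 𝕜 ℂ) (fun k => sub t (fam g ws k)) ((n - 1) * r + (N + 1)) c)
    (d : ℕ) (ws : List (Fin n)) (hws : ws.length + d ≤ D) (h : MvPolynomial (Fin n) ℂ)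
    (hd : h.totalDegree ≤ d) (h0 : h ≠ 0)
    (hh : h ∈ Submodule.span 𝕜 (Set.range (fam g ws))) : eval (pt t c) h ≠ 0 := by
  induction d generalizing ws h with
  | zero =>
    intro he
    have h1 := totalDegree_eq_zero_iff_eq_C.1 (Nat.le_zero.1 hd)
    rw [h1, eval_C] at he
    rw [he, C_0] at h1
    exact h0 h1
  | succ d ih =>
    intro he
    have hp : ∃ j, pderiv j h ≠ 0 := by
      by_contra hcon
      push Not at hcon
      obtain ⟨a, ha⟩ := const_of_pderiv h hcon
      rw [ha, eval_C] at he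
      rw [he, C_0] at ha
      exact h0 ha
    obtain ⟨j, hj⟩ := hp
    have h1 := step_two t ht (fam g ws) c (hc ws (by omega)) h h0 hh he j
    exact ih (j :: ws) (by rw [List.length_cons]; omega) (pderiv j h)
      (totalDegree_pderiv j h hd) hj (pderiv_mem_fam g ws j h hh) h1

/-- A good point: relations modulo `LgOf` are linear. -/
theorem linear_of_good {𝕜 : IntermediateField ℚ ℂ} [Algebra.IsAlgebraic ℚ 𝕜] {n r N D : ℕ}
    (t : Fin r → ℂ) (ht : LinearIndependent 𝕜 t) (htL : ∀ j, t j ∈ SK.LzOf 𝕜)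
    (g : Fin N → MvPolynomial (Fin n) ℂ) (c : Fin n × Fin r → 𝕜)
    (hc1 : Good (SK.LgOf 𝕜) (fun k => sub t (g k)) ((n - 1) * r + (N + 6)) c)
    (hc2 : ∀ ws : List (Fin n), ws.length ≤ D →
      Good (⊥ : Submodule 𝕜 ℂ) (fun k => sub t (fam g ws k)) ((n - 1) * r + (N + 1)) c)
    (f : MvPolynomial (Fin n) ℂ) (hfD : f.totalDegree ≤ D)
    (hf : f ∈ Submodule.span 𝕜 (Set.range g)) (hL : eval (pt t c) f ∈ SK.LgOf 𝕜) :
    ∃ (a : ℂ) (q : Fin n → 𝕜), f = C a + ∑ i, C (q i : ℂ) * X i := by
  classical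
  by_cases hf0 : f = 0
  · refine ⟨0, fun _ => 0, ?_⟩
    rw [hf0]
    simp
  have hq : ∀ i, ∃ q : 𝕜, eval (pt t c) (pderiv i f) = q := fun i =>
    step_one t ht htL g c hc1 f hf0 hf hL i
  choose q hq using hq
  have hall : ∀ i, pderiv i f = C (q i : ℂ) := by
    intro i
    by_contra hne
    have h0 : pderiv i f - C (q i : ℂ) ≠ 0 := sub_ne_zero.2 hne
    have hD : 1 ≤ D := by
      by_contra hD
      have h1 : f.totalDegree = 0 := by omega
      have h2 := totalDegree_eq_zero_iff_eq_C.1 h1
      have h3 : pderiv i f = 0 := by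
        rw [h2]
        exact pderiv_C
      have h4 := hq i
      rw [h3, map_zero] at h4
      rw [h3, ← h4, C_0] at hne
      exact hne rfl
    obtain ⟨D', hD'⟩ : ∃ D', D = D' + 1 := ⟨D - 1, by omega⟩
    have hnil : f ∈ Submodule.span 𝕜 (Set.range (fam g [])) := by
      refine Submodule.span_mono ?_ hf
      rintro _ ⟨k, rfl⟩
      refine ⟨k.castSucc, ?_⟩
      unfold fam
      rw [Fin.snoc_castSucc]
      rfl
    have hmem : pderiv i f - C (q i : ℂ) ∈ Submodule.span 𝕜 (Set.range (fam g [i])) := by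
      refine Submodule.sub_mem _ (pderiv_mem_fam g [] i f hnil) ?_
      have h1 : (C (q i : ℂ) : MvPolynomial (Fin n) ℂ) = q i • fam g [i] (Fin.last N) := by
        unfold fam
        rw [Fin.snoc_last, ← algebraMap_smul ℂ (q i) (1 : MvPolynomial (Fin n) ℂ), smul_eq_C_mul,
          mul_one]
        rfl
      rw [h1]
      exact Submodule.smul_mem _ _ (Submodule.subset_span ⟨_, rfl⟩)
    refine descend t ht g c hc2 D' [i] (by
      rw [List.length_singleton]
      omega) (pderiv i f - C (q i : ℂ)) ?_ h0 hmem ?_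
    · refine (MvPolynomial.totalDegree_sub _ _).trans (max_le (totalDegree_pderiv i f (by omega)) ?_)
      rw [totalDegree_C]
      exact Nat.zero_le _
    · rw [map_sub, eval_C, hq, sub_self]
  obtain ⟨a, ha⟩ := const_of_pderiv (f - ∑ i, C (q i : ℂ) * X i) (by
    intro i
    rw [map_sub, hall, map_sum, sub_eq_zero, Finset.sum_eq_single i]
    · rw [pderiv_C_mul, pderiv_X_self, mul_one]
    · intro j _ hj
      rw [pderiv_C_mul, pderiv_X_of_ne hj, mul_zero]
    · intro h
      exact absurd (Finset.mem_univ i) h)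
  refine ⟨a, q, ?_⟩
  rw [← ha]
  ring

end MP60829e.TV
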