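import Mathlib
import Pool.Agent.Lib.MP_60829e_nt.TV.Down
import Pool.Agent.Lib.MP_60829e_nt.TV.Fine

/-! # The exceptional points of a grid: dependence on the degree, sparse polynomials -/

open MvPolynomial Module

namespace MP60829e.TV

/-- Partial derivatives commute. -/
theorem pderiv_comm {n : ℕ} (i j : Fin n) (f : MvPolynomial (Fin n) ℂ) :
    pderiv i (pderiv j f) = pderiv j (pderiv i f) := by
  classical
  by_cases hij : i = j
  · rw [hij]
  · ext m
    rw [coeff_pderiv, coeff_pderiv, coeff_pderiv, coeff_pderiv]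
    have h1 : (m + Finsupp.single i 1 : Fin n →₀ ℕ) j = m j := by
      rw [Finsupp.add_apply, Finsupp.single_apply, if_neg hij, add_zero]
    have h2 : (m + Finsupp.single j 1 : Fin n →₀ ℕ) i = m i := by
      rw [Finsupp.add_apply, Finsupp.single_apply, if_neg (Ne.symm hij), add_zero]
    rw [h1, h2, add_right_comm]
    ring

theorem dl_perm {n : ℕ} {ws ws' : List (Fin n)} (h : ws.Perm ws')
    (f : MvPolynomial (Fin n) ℂ) : dl ws f = dl ws' f := by
  unfold dl
  have : LeftCommutative (fun (i : Fin n) (g : MvPolynomial (Fin n) ℂ) => pderiv i g) :=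
    ⟨fun i j g => pderiv_comm i j g⟩
  exact h.foldr_eq f

/-- The standard word with given multiplicities. -/
def word {n : ℕ} (α : Fin n → ℕ) : List (Fin n) :=
  (List.finRange n).flatMap fun i => List.replicate (α i) i

theorem count_word {n : ℕ} (α : Fin n → ℕ) (i : Fin n) : (word α).count i = α i := by
  classical
  unfold word
  rw [List.count_flatMap]
  have h1 : (fun j => List.count i (List.replicate (α j) j)) = fun j => if j = i then α i else 0 := by
    funext j
    rw [List.count_replicate]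
    by_cases hj : j = i
    · subst hj
      simp
    · simp [hj]
  have h2 : (List.count i ∘ fun j => List.replicate (α j) j) =
      fun j => if j = i then α i else 0 := h1
  rw [h2]
  have h3 := List.sum_toFinset (fun j => if j = i then α i else 0) (List.nodup_finRange n)
  rw [← h3]
  simp

theorem perm_word {n D : ℕ} (ws : List (Fin n)) (h : ws.length ≤ D) :
    ∃ α : Fin n → Fin (D + 1), ws.Perm (word fun i => (α i : ℕ)) := by
  classical
  refine ⟨fun i => ⟨ws.count i, Nat.lt_succ_of_le (List.count_le_length.trans h)⟩, ?_⟩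
  rw [List.perm_iff_count]
  intro i
  rw [count_word]

theorem fam_perm {n N : ℕ} {ws ws' : List (Fin n)} (h : ws.Perm ws')
    (g : Fin N → MvPolynomial (Fin n) ℂ) : fam g ws = fam g ws' := by
  unfold fam
  congr 1
  funext k
  exact dl_perm h _

theorem totalDegree_dl {n D : ℕ} (ws : List (Fin n)) (f : MvPolynomial (Fin n) ℂ)
    (h : f.totalDegree ≤ D) : (dl ws f).totalDegree ≤ D := by
  induction ws with
  | nil => exact h
  | cons i ws ih => exact totalDegree_pderiv i _ (ih.trans (Nat.le_succ D))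

theorem totalDegree_fam {n N D : ℕ} (ws : List (Fin n)) (g : Fin N → MvPolynomial (Fin n) ℂ)
    (h : ∀ k, (g k).totalDegree ≤ D) (k : Fin (N + 1)) : (fam g ws k).totalDegree ≤ D := by
  refine Fin.lastCases ?_ (fun k => ?_) k
  · unfold fam
    rw [Fin.snoc_last, totalDegree_one]
    exact Nat.zero_le _
  · unfold fam
    rw [Fin.snoc_castSucc]
    exact totalDegree_dl ws _ (h k)

/-- The exceptional matrices for the span of the family `g`. -/
def exc {𝕜 : IntermediateField ℚ ℂ} {n r N : ℕ} (t : Fin r → ℂ)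
    (g : Fin N → MvPolynomial (Fin n) ℂ) (S : Finset 𝕜) : Set (Fin n × Fin r → 𝕜) :=
  {c | (∀ s, c s ∈ S) ∧ ∃ f ∈ Submodule.span 𝕜 (Set.range g), eval (pt t c) f ∈ SK.LgOf 𝕜 ∧
    ¬ ∃ (a : ℂ) (q : Fin n → 𝕜), f = C a + ∑ i, C (q i : ℂ) * X i}

theorem finite_grid {K σ : Type} [Fintype σ] (S : Finset K) (p : (σ → K) → Prop) :
    {c : σ → K | (∀ s, c s ∈ S) ∧ p c}.Finite := by
  refine (Set.Finite.pi' fun _ : σ => S.finite_toSet).subset ?_
  rintro c ⟨hc, _⟩
  exact hc

theorem totalDegree_of_span {𝕜 : IntermediateField ℚ ℂ} {n N D : ℕ}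
    (g : Fin N → MvPolynomial (Fin n) ℂ) (hg : ∀ k, (g k).totalDegree ≤ D)
    (f : MvPolynomial (Fin n) ℂ) (hf : f ∈ Submodule.span 𝕜 (Set.range g)) :
    f.totalDegree ≤ D := by
  refine Submodule.span_induction (p := fun f _ => f.totalDegree ≤ D) ?_ ?_ ?_ ?_ hf
  · rintro f ⟨k, rfl⟩
    exact hg k
  · rw [totalDegree_zero]
    exact Nat.zero_le _
  · intro f f' _ _ hf hf'
    exact (totalDegree_add _ _).trans (max_le hf hf')
  · intro q f _ hf
    rw [← algebraMap_smul ℂ q f]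
    exact (totalDegree_smul_le _ _).trans hf

/-- Number of the exceptional matrices, raw form. -/
theorem exc_raw {𝕜 : IntermediateField ℚ ℂ} [Algebra.IsAlgebraic ℚ 𝕜] {n r N D : ℕ}
    (t : Fin r → ℂ) (ht : LinearIndependent 𝕜 t) (htL : ∀ j, t j ∈ SK.LzOf 𝕜)
    (g : Fin N → MvPolynomial (Fin n) ℂ) (hg : ∀ k, (g k).totalDegree ≤ D)
    (S : Finset 𝕜) (hS : S.Nonempty) :
    (exc t g S).ncard ≤
      (N + 1) * (2 ^ (n * r) * ((n * r).factorial *
        (D * (N + 1)) ^ (n * r - ((n - 1) * r + (N + 6)))) * S.card ^ ((n - 1) * r + (N + 6))) +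
      (D + 1) ^ n * ((N + 1 + 1) * (2 ^ (n * r) * ((n * r).factorial *
        (D * (N + 1 + 1)) ^ (n * r - ((n - 1) * r + (N + 1)))) *
          S.card ^ ((n - 1) * r + (N + 1)))) := by
  classical
  have hcard : Fintype.card (Fin n × Fin r) = n * r := by
    rw [Fintype.card_prod, Fintype.card_fin, Fintype.card_fin]
  obtain ⟨U, hU⟩ : ∃ U : Set (Fin n × Fin r → 𝕜), U = {c | (∀ s, c s ∈ S) ∧
      ¬ Good (SK.LgOf 𝕜) (fun k => sub t (g k)) ((n - 1) * r + (N + 6)) c} := ⟨_, rfl⟩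
  obtain ⟨V, hV⟩ : ∃ V : (Fin n → Fin (D + 1)) → Set (Fin n × Fin r → 𝕜),
      V = fun α => {c | (∀ s, c s ∈ S) ∧ ¬ Good (⊥ : Submodule 𝕜 ℂ)
        (fun k => sub t (fam g (word fun i => (α i : ℕ)) k)) ((n - 1) * r + (N + 1)) c} := ⟨_, rfl⟩
  have hsub : exc t g S ⊆ U ∪ ⋃ α ∈ (Finset.univ : Finset (Fin n → Fin (D + 1))), V α := by
    rintro c ⟨hcS, f, hf, hfL, hflin⟩
    by_contra hcon
    rw [Set.mem_union, not_or] at hcon
    apply hflin
    refine linear_of_good (D := D) t ht htL g c ?_ ?_ f (totalDegree_of_span g hg f hf) hf hfL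
    · by_contra h1
      exact hcon.1 (by rw [hU]; exact ⟨hcS, h1⟩)
    · intro ws hws
      by_contra h1
      apply hcon.2
      obtain ⟨α, hα⟩ := perm_word ws hws
      rw [Set.mem_iUnion₂]
      refine ⟨α, Finset.mem_univ _, ?_⟩
      rw [hV]
      refine ⟨hcS, ?_⟩
      rw [← fam_perm hα g]
      exact h1
  have hUf : U.Finite := by
    rw [hU]
    exact finite_grid S _
  have hVf : ∀ α, (V α).Finite := by
    intro α
    rw [hV]
    exact finite_grid S _
  have hUc : U.ncard ≤ (N + 1) * (2 ^ (n * r) * ((n * r).factorial *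
      (D * (N + 1)) ^ (n * r - ((n - 1) * r + (N + 6)))) *
        S.card ^ ((n - 1) * r + (N + 6))) := by
    rw [hU]
    have h1 := good_count (m := (n - 1) * r + (N + 6)) (D := D) (SK.LgOf 𝕜)
      (fun k => sub t (g k)) (fun k => (totalDegree_sub t (g k)).trans (hg k)) S hS
    rw [hcard] at h1
    exact h1
  have hVc : ∀ α, (V α).ncard ≤ (N + 1 + 1) * (2 ^ (n * r) * ((n * r).factorial *
      (D * (N + 1 + 1)) ^ (n * r - ((n - 1) * r + (N + 1)))) *
        S.card ^ ((n - 1) * r + (N + 1))) := by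
    intro α
    rw [hV]
    have h1 := good_count (m := (n - 1) * r + (N + 1)) (D := D) (⊥ : Submodule 𝕜 ℂ)
      (fun k => sub t (fam g (word fun i => (α i : ℕ)) k))
      (fun k => (totalDegree_sub t _).trans (totalDegree_fam _ g hg k)) S hS
    rw [hcard] at h1
    exact h1
  have hfin : (U ∪ ⋃ α ∈ (Finset.univ : Finset (Fin n → Fin (D + 1))), V α).Finite :=
    hUf.union (Set.Finite.biUnion (Finset.finite_toSet _) fun α _ => hVf α)
  refine (Set.ncard_le_ncard hsub hfin).trans ((Set.ncard_union_le _ _).trans ?_)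
  refine Nat.add_le_add hUc ?_
  refine (Finset.set_ncard_biUnion_le _ _).trans ?_
  refine (Finset.sum_le_sum fun α _ => hVc α).trans (le_of_eq ?_)
  rw [Finset.sum_const, smul_eq_mul, Finset.card_univ, Fintype.card_fun, Fintype.card_fin,
    Fintype.card_fin]

/-- The constant. -/
def cst (n r N : ℕ) : ℕ :=
  (N + 1) * 2 ^ (n * r) * (n * r).factorial * (N + 1) ^ (r - (N + 6)) +
    2 ^ n * ((N + 2) * 2 ^ (n * r) * (n * r).factorial * (N + 2) ^ (r - (N + 6) + 5)) + 1

theorem grid_card {K σ : Type} [Fintype σ] (S : Finset K) (p : (σ → K) → Prop) :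
    {c : σ → K | (∀ s, c s ∈ S) ∧ p c}.ncard ≤ S.card ^ Fintype.card σ := by
  classical
  have h1 : {c : σ → K | (∀ s, c s ∈ S) ∧ p c} ⊆
      ((Fintype.piFinset fun _ : σ => S : Finset (σ → K)) : Set (σ → K)) := by
    rintro c ⟨hc, _⟩
    rw [Finset.mem_coe, Fintype.mem_piFinset]
    exact hc
  refine (Set.ncard_le_ncard h1 (Finset.finite_toSet _)).trans (le_of_eq ?_)
  rw [Set.ncard_coe_finset, Fintype.card_piFinset, Finset.prod_const, Finset.card_univ]

theorem exc_card {𝕜 : IntermediateField ℚ ℂ} [Algebra.IsAlgebraic ℚ 𝕜] {n r N D : ℕ}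
    (t : Fin r → ℂ) (ht : LinearIndependent 𝕜 t) (htL : ∀ j, t j ∈ SK.LzOf 𝕜)
    (g : Fin N → MvPolynomial (Fin n) ℂ) (hg : ∀ k, (g k).totalDegree ≤ D)
    (S : Finset 𝕜) (hS : S.Nonempty) :
    (exc t g S).ncard * S.card ^ (r - (N + 6)) ≤
      cst n r N * D ^ (n + (r - (N + 6))) * S.card ^ (n * r) := by
  classical
  have hcard : Fintype.card (Fin n × Fin r) = n * r := by
    rw [Fintype.card_prod, Fintype.card_fin, Fintype.card_fin]
  have hs1 : 1 ≤ S.card := hS.card_pos
  have htriv : (exc t g S).ncard ≤ S.card ^ (n * r) := by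
    have h1 := grid_card S (fun c : Fin n × Fin r → 𝕜 => ∃ f ∈ Submodule.span 𝕜 (Set.range g),
      eval (pt t c) f ∈ SK.LgOf 𝕜 ∧
      ¬ ∃ (a : ℂ) (q : Fin n → 𝕜), f = C a + ∑ i, C (q i : ℂ) * X i)
    rw [hcard] at h1
    exact h1
  have hcst : 1 ≤ cst n r N := Nat.le_add_left _ _
  -- constant polynomials are not exceptional
  have hzero : (D = 0 ∨ n = 0) → (exc t g S).ncard = 0 := by
    intro h
    have h1 : exc t g S = ∅ := by
      rw [Set.eq_empty_iff_forall_notMem]
      rintro c ⟨_, f, hf, _, hfl⟩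
      apply hfl
      have h2 : ∃ a : ℂ, f = C a := by
        rcases h with h | h
        · have h3 := totalDegree_of_span g hg f hf
          rw [h] at h3
          exact ⟨_, totalDegree_eq_zero_iff_eq_C.1 (Nat.le_zero.1 h3)⟩
        · subst h
          exact const_of_pderiv f fun i => i.elim0
      obtain ⟨a, ha⟩ := h2
      refine ⟨a, fun _ => 0, ?_⟩
      rw [ha]
      simp
    rw [h1, Set.ncard_empty]
  by_cases h0 : D = 0 ∨ n = 0
  · rw [hzero h0, zero_mul]
    exact Nat.zero_le _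
  push Not at h0
  have hD1 : 1 ≤ D := Nat.one_le_iff_ne_zero.2 h0.1
  have hn1 : 1 ≤ n := Nat.one_le_iff_ne_zero.2 h0.2
  by_cases hSD : S.card ≤ D
  · calc (exc t g S).ncard * S.card ^ (r - (N + 6))
        ≤ S.card ^ (n * r) * D ^ (r - (N + 6)) :=
          Nat.mul_le_mul htriv (Nat.pow_le_pow_left hSD _)
      _ ≤ S.card ^ (n * r) * D ^ (n + (r - (N + 6))) :=
          Nat.mul_le_mul_left _ (Nat.pow_le_pow_right hD1 (Nat.le_add_left _ _))
      _ = 1 * D ^ (n + (r - (N + 6))) * S.card ^ (n * r) := by ring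
      _ ≤ cst n r N * D ^ (n + (r - (N + 6))) * S.card ^ (n * r) :=
          Nat.mul_le_mul_right _ (Nat.mul_le_mul_right _ hcst)
  by_cases he : r - (N + 6) = 0
  · rw [he, pow_zero, mul_one, add_zero]
    calc (exc t g S).ncard ≤ S.card ^ (n * r) := htriv
      _ = 1 * 1 * S.card ^ (n * r) := by ring
      _ ≤ cst n r N * D ^ n * S.card ^ (n * r) :=
        Nat.mul_le_mul_right _ (Nat.mul_le_mul hcst (Nat.one_le_pow _ _ hD1))
  -- the main case
  obtain ⟨e, heq⟩ : ∃ e, r = N + 6 + e := ⟨r - (N + 6), by omega⟩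
  have he1 : r - (N + 6) = e := by omega
  obtain ⟨n', rfl⟩ : ∃ n', n = n' + 1 := ⟨n - 1, by omega⟩
  have hnr : (n' + 1) * r = n' * r + (N + 6) + e := by
    rw [add_mul, one_mul]
    omega
  have hm1 : (n' + 1) * r - ((n' + 1 - 1) * r + (N + 6)) = e := by
    rw [Nat.add_sub_cancel, hnr]
    omega
  have hm2 : (n' + 1) * r - ((n' + 1 - 1) * r + (N + 1)) = e + 5 := by
    rw [Nat.add_sub_cancel, hnr]
    omega
  have hraw := exc_raw t ht htL g hg S hS
  rw [hm1, hm2, Nat.add_sub_cancel] at hraw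
  rw [he1]
  obtain ⟨s, hs⟩ : ∃ s, s = S.card := ⟨_, rfl⟩
  rw [← hs] at hraw hs1 hSD ⊢
  have hDs : D ≤ s := by omega
  have hD2 : D + 1 ≤ 2 * D := by omega
  obtain ⟨M, hM⟩ : ∃ M, M = (n' + 1) * r := ⟨_, rfl⟩
  have hMs : s ^ M = s ^ (n' * r + (N + 6)) * s ^ e := by
    rw [hM, hnr, pow_add]
  have hMs2 : s ^ M = s ^ (n' * r + (N + 1)) * s ^ 5 * s ^ e := by
    rw [hM, hnr, ← pow_add, ← pow_add]
    congr 1
  unfold cst
  rw [he1]
  rw [← hM] at hraw ⊢
  calc (exc t g S).ncard * s ^ e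
      ≤ ((N + 1) * (2 ^ M * (M.factorial * (D * (N + 1)) ^ e) * s ^ (n' * r + (N + 6))) +
        (D + 1) ^ (n' + 1) * ((N + 1 + 1) * (2 ^ M * (M.factorial *
          (D * (N + 1 + 1)) ^ (e + 5)) * s ^ (n' * r + (N + 1))))) * s ^ e :=
        Nat.mul_le_mul_right _ hraw
    _ = (N + 1) * 2 ^ M * M.factorial * (N + 1) ^ e * D ^ e * s ^ M +
        (D + 1) ^ (n' + 1) * ((N + 2) * 2 ^ M * M.factorial * (N + 2) ^ (e + 5)) * D ^ e *
          (s ^ (n' * r + (N + 1)) * D ^ 5 * s ^ e) := by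
        rw [hMs, mul_pow, mul_pow, pow_add D e 5]
        ring
    _ ≤ (N + 1) * 2 ^ M * M.factorial * (N + 1) ^ e * D ^ (n' + 1 + e) * s ^ M +
        (2 ^ (n' + 1) * D ^ (n' + 1)) * ((N + 2) * 2 ^ M * M.factorial * (N + 2) ^ (e + 5)) *
          D ^ e * s ^ M := by
        refine Nat.add_le_add ?_ ?_
        · refine Nat.mul_le_mul_right _ (Nat.mul_le_mul_left _ ?_)
          exact Nat.pow_le_pow_right hD1 (Nat.le_add_left _ _)
        · refine Nat.mul_le_mul (Nat.mul_le_mul_right _ (Nat.mul_le_mul_right _ ?_)) ?_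
          · rw [← mul_pow]
            exact Nat.pow_le_pow_left hD2 _
          · rw [hMs2]
            refine Nat.mul_le_mul_right _ (Nat.mul_le_mul_left _ ?_)
            exact Nat.pow_le_pow_left hDs _
    _ = ((N + 1) * 2 ^ M * M.factorial * (N + 1) ^ e +
        2 ^ (n' + 1) * ((N + 2) * 2 ^ M * M.factorial * (N + 2) ^ (e + 5))) *
          D ^ (n' + 1 + e) * s ^ M := by
        rw [pow_add D (n' + 1) e]
        ring
    _ ≤ _ := by
        refine Nat.mul_le_mul_right _ (Nat.mul_le_mul_right _ ?_)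
        exact Nat.le_succ _

end MP60829e.TV
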