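import Mathlib
import Pool.Agent.Lib.MP_60829e_nt.TV.Sparse

/-! # The theorem on thin exceptional sets -/

open MvPolynomial Module

namespace MP60829e.TV

/-- The space in the statements is `LgOf`. -/
theorem span_union (𝕜 : IntermediateField ℚ ℂ) :
    Submodule.span 𝕜 ({1} ∪ {z : ℂ | IsAlgebraic ℚ (Complex.exp z)}) = SK.LgOf 𝕜 := by
  rw [Submodule.span_union]
  rfl

/-- The point of a matrix in curried form. -/
theorem pt_curry {𝕜 : IntermediateField ℚ ℂ} {n r : ℕ} (t : Fin r → ℂ) (c : Fin n → Fin r → 𝕜) :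
    pt t (fun p : Fin n × Fin r => c p.1 p.2) = fun i => ∑ j, (c i j : ℂ) * t j := by
  funext i
  unfold pt
  exact Finset.sum_congr rfl fun j _ => Algebra.smul_def _ _

theorem exists_gens {𝕜 : IntermediateField ℚ ℂ} {n N : ℕ}
    (P : Submodule 𝕜 (MvPolynomial (Fin n) ℂ)) (hP : FiniteDimensional 𝕜 P)
    (hN : finrank 𝕜 P ≤ N) : ∃ g : Fin N → MvPolynomial (Fin n) ℂ, (∀ k, g k ∈ P) ∧
      ∀ f ∈ P, f ∈ Submodule.span 𝕜 (Set.range g) := by
  classical
  refine ⟨fun k => if h : (k : ℕ) < finrank 𝕜 P then (finBasis 𝕜 P ⟨k, h⟩ : P).1 else 0,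
    fun k => ?_, fun f hf => ?_⟩
  · dsimp only
    split_ifs with h
    · exact (finBasis 𝕜 P ⟨k, h⟩).2
    · exact P.zero_mem
  · have h1 := (finBasis 𝕜 P).sum_repr ⟨f, hf⟩
    have h2 : f = (∑ i, ((finBasis 𝕜 P).repr ⟨f, hf⟩) i • (finBasis 𝕜 P) i : P).1 :=
      (congrArg Subtype.val h1).symm
    rw [h2]
    simp only [Submodule.coe_sum, Submodule.coe_smul]
    refine Submodule.sum_mem _ fun k _ => Submodule.smul_mem _ _ (Submodule.subset_span ?_)
    refine ⟨⟨k, k.2.trans_le hN⟩, ?_⟩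
    dsimp only
    rw [dif_pos k.2]

/-- Passage to real numbers. -/
theorem to_real {x s K D a e m : ℕ} (hs : 1 ≤ s) (h : x * s ^ e ≤ K * D ^ (a + e) * s ^ m) :
    (x : ℝ) ≤ K * D ^ a * ((D : ℝ) / s) ^ e * s ^ m := by
  have hs0 : (0 : ℝ) < s := by exact_mod_cast hs
  have h1 : (x : ℝ) * s ^ e ≤ K * D ^ (a + e) * s ^ m := by exact_mod_cast h
  have h2 : (K : ℝ) * D ^ a * ((D : ℝ) / s) ^ e * s ^ m =
      K * D ^ (a + e) * s ^ m / s ^ e := by
    rw [div_pow, pow_add]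
    ring
  rw [h2, le_div_iff₀ (pow_pos hs0 e)]
  exact h1

theorem inj_curry {K : Type} {n r : ℕ} :
    Function.Injective (fun (c : Fin n → Fin r → K) (p : Fin n × Fin r) => c p.1 p.2) := by
  intro c c' h
  funext i j
  exact congrFun h (i, j)

/-- The first part: a fixed space of polynomials. -/
theorem part_one {𝕜 : IntermediateField ℚ ℂ} [Algebra.IsAlgebraic ℚ 𝕜] {n r N D : ℕ}
    (t : Fin r → ℂ) (ht : LinearIndependent 𝕜 t) (htL : ∀ j, t j ∈ SK.LzOf 𝕜)
    (S : Finset 𝕜) (hS : S.Nonempty) (P : Submodule 𝕜 (MvPolynomial (Fin n) ℂ))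
    (hPf : FiniteDimensional 𝕜 P) (hPN : finrank 𝕜 P ≤ N) (hPD : ∀ f ∈ P, f.totalDegree ≤ D) :
    {c : Fin n → Fin r → 𝕜 | (∀ i j, c i j ∈ S) ∧ ∃ f ∈ P,
        eval (fun i => ∑ j, (c i j : ℂ) * t j) f ∈
          Submodule.span 𝕜 ({1} ∪ {z : ℂ | IsAlgebraic ℚ (Complex.exp z)}) ∧
        ¬ ∃ (a : ℂ) (q : Fin n → 𝕜), f = C a + ∑ i, C (q i : ℂ) * X i}.ncard *
          S.card ^ (r - (N + 6)) ≤
      cst n r N * D ^ (n + (r - (N + 6))) * S.card ^ (n * r) := by
  obtain ⟨g, hg1, hg2⟩ := exists_gens P hPf hPN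
  refine le_trans (Nat.mul_le_mul_right _ ?_)
    (exc_card t ht htL g (fun k => hPD _ (hg1 k)) S hS)
  refine Set.ncard_le_ncard_of_injOn (fun (c : Fin n → Fin r → 𝕜) (p : Fin n × Fin r) =>
    c p.1 p.2) ?_ inj_curry.injOn (finite_grid S _)
  rintro c ⟨hc, f, hf, hfL, hfl⟩
  refine ⟨fun p => hc p.1 p.2, f, hg2 f hf, ?_, hfl⟩
  rw [span_union] at hfL
  rw [pt_curry]
  exact hfL

/-- The monomials of a support. -/
noncomputable def mons {n N D : ℕ} (τ : Fin N → Fin n → Fin (D + 1)) (k : Fin N) :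
    MvPolynomial (Fin n) ℂ :=
  if ∑ i, (τ k i : ℕ) ≤ D then
    monomial (Finsupp.equivFunOnFinite.symm fun i => (τ k i : ℕ)) 1 else 0

theorem totalDegree_mons {n N D : ℕ} (τ : Fin N → Fin n → Fin (D + 1)) (k : Fin N) :
    (mons τ k).totalDegree ≤ D := by
  unfold mons
  split_ifs with h
  · refine (totalDegree_monomial_le _ _).trans ?_
    rw [Finsupp.sum_fintype _ _ fun _ => rfl]
    exact h
  · rw [totalDegree_zero]
    exact Nat.zero_le _

theorem deg_cases {n : ℕ} (m : Fin n →₀ ℕ) (h : ¬ 2 ≤ ∑ i, m i) :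
    m = 0 ∨ ∃ i, m = Finsupp.single i 1 := by
  classical
  by_cases h0 : m = 0
  · exact Or.inl h0
  right
  obtain ⟨i, hi⟩ : ∃ i, m i ≠ 0 := by
    by_contra hcon
    push Not at hcon
    exact h0 (Finsupp.ext hcon)
  refine ⟨i, Finsupp.ext fun j => ?_⟩
  have h1 : m i ≤ ∑ i, m i := Finset.single_le_sum (fun _ _ => Nat.zero_le _) (Finset.mem_univ i)
  rw [Finsupp.single_apply]
  split_ifs with hj
  · rw [← hj]
    omega
  · by_contra hj0
    have h2 : ∑ x ∈ {i, j}, m x ≤ ∑ x, m x :=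
      Finset.sum_le_sum_of_subset (Finset.subset_univ _)
    rw [Finset.sum_pair hj] at h2
    omega

/-- A polynomial with a monomial of degree at least `2` is not linear. -/
theorem not_linear {𝕜 : IntermediateField ℚ ℂ} {n : ℕ} (f : MvPolynomial (Fin n) ℂ)
    (m : Fin n →₀ ℕ) (hm : 2 ≤ ∑ i, m i) (hf : coeff m f ≠ 0) :
    ¬ ∃ (a : ℂ) (q : Fin n → 𝕜), f = C a + ∑ i, C (q i : ℂ) * X i := by
  classical
  rintro ⟨a, q, h⟩
  apply hf
  rw [h, coeff_add, coeff_C, coeff_sum, if_neg, zero_add]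
  · refine Finset.sum_eq_zero fun i _ => ?_
    rw [coeff_C_mul, coeff_X, if_neg, mul_zero]
    rintro rfl
    have h1 : ∑ j, (Finsupp.single i 1 : Fin n →₀ ℕ) j = 1 := by
      rw [Finset.sum_eq_single i]
      · rw [Finsupp.single_apply, if_pos rfl]
      · intro j _ hj
        rw [Finsupp.single_apply, if_neg (Ne.symm hj)]
      · intro h
        exact absurd (Finset.mem_univ i) h
    omega
  · rintro rfl
    simp at hm

/-- Enumeration of a small set of exponents. -/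
theorem exists_enum {n N D : ℕ} (W : Finset (Fin n →₀ ℕ)) (hN : W.card ≤ N)
    (hD : ∀ m ∈ W, ∑ i, m i ≤ D) : ∃ τ : Fin N → Fin n → Fin (D + 1), ∀ m ∈ W, ∃ k,
      m = Finsupp.equivFunOnFinite.symm fun i => (τ k i : ℕ) := by
  classical
  have hle : ∀ m ∈ W, ∀ i, m i < D + 1 := by
    intro m hm i
    have h1 : m i ≤ ∑ i, m i :=
      Finset.single_le_sum (fun _ _ => Nat.zero_le _) (Finset.mem_univ i)
    have h2 := hD m hm
    omega
  refine ⟨fun k i => if h : (k : ℕ) < W.card then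
    ⟨(W.equivFin.symm ⟨k, h⟩).1 i, hle _ (W.equivFin.symm ⟨k, h⟩).2 i⟩ else 0, ?_⟩
  intro m hm
  have h1 : ((W.equivFin ⟨m, hm⟩ : Fin W.card) : ℕ) < W.card := (W.equivFin ⟨m, hm⟩).2
  refine ⟨⟨(W.equivFin ⟨m, hm⟩ : Fin W.card), h1.trans_le hN⟩, ?_⟩
  ext i
  rw [Finsupp.equivFunOnFinite_symm_apply_apply]
  simp only [dif_pos h1, Fin.eta, Equiv.symm_apply_apply]

/-- The exceptional matrices for all polynomials over `𝕜` with few nonlinear terms. -/
theorem part_two {𝕜 : IntermediateField ℚ ℂ} [Algebra.IsAlgebraic ℚ 𝕜] {n r N D : ℕ}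
    (t : Fin r → ℂ) (ht : LinearIndependent 𝕜 t) (htL : ∀ j, t j ∈ SK.LzOf 𝕜)
    (S : Finset 𝕜) (hS : S.Nonempty) :
    {c : Fin n → Fin r → 𝕜 | (∀ i j, c i j ∈ S) ∧ ∃ f : MvPolynomial (Fin n) 𝕜,
        f.totalDegree ≤ D ∧ 2 ≤ f.totalDegree ∧
        (f.support.filter fun m => 2 ≤ ∑ i, m i).card ≤ N ∧
        aeval (fun i => ∑ j, (c i j : ℂ) * t j) f ∈
          Submodule.span 𝕜 ({1} ∪ {z : ℂ | IsAlgebraic ℚ (Complex.exp z)})}.ncard *
          S.card ^ (r - (N + 6)) ≤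
      2 ^ (n * N) * cst n r N * D ^ (n * (N + 1) + (r - (N + 6))) * S.card ^ (n * r) := by
  classical
  -- the union over the supports
  have hfin : (⋃ τ ∈ (Finset.univ : Finset (Fin N → Fin n → Fin (D + 1))),
      exc t (mons τ) S).Finite :=
    Set.Finite.biUnion (Finset.finite_toSet _) fun τ _ => finite_grid S _
  have h1 : {c : Fin n → Fin r → 𝕜 | (∀ i j, c i j ∈ S) ∧ ∃ f : MvPolynomial (Fin n) 𝕜,
        f.totalDegree ≤ D ∧ 2 ≤ f.totalDegree ∧
        (f.support.filter fun m => 2 ≤ ∑ i, m i).card ≤ N ∧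
        aeval (fun i => ∑ j, (c i j : ℂ) * t j) f ∈
          Submodule.span 𝕜 ({1} ∪ {z : ℂ | IsAlgebraic ℚ (Complex.exp z)})}.ncard ≤
      (⋃ τ ∈ (Finset.univ : Finset (Fin N → Fin n → Fin (D + 1))), exc t (mons τ) S).ncard := by
    refine Set.ncard_le_ncard_of_injOn (fun (c : Fin n → Fin r → 𝕜) (p : Fin n × Fin r) =>
      c p.1 p.2) ?_ inj_curry.injOn hfin
    rintro c ⟨hc, f, hfD, hf2, hfN, hfL⟩
    have hdeg : ∀ m ∈ f.support, ∑ i, m i ≤ D := by
      intro m hm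
      have h3 := (le_totalDegree hm).trans hfD
      rwa [Finsupp.sum_fintype _ _ fun _ => rfl] at h3
    obtain ⟨τ, hτ⟩ := exists_enum (N := N) (D := D)
      (f.support.filter fun m => 2 ≤ ∑ i, m i) hfN
      fun m hm => hdeg m (Finset.mem_filter.1 hm).1
    rw [Set.mem_iUnion₂]
    refine ⟨τ, Finset.mem_univ _, fun p => hc p.1 p.2,
      ∑ m ∈ f.support.filter (fun m => 2 ≤ ∑ i, m i), monomial m ((coeff m f : 𝕜) : ℂ), ?_, ?_, ?_⟩
    · refine Submodule.sum_mem _ fun m hm => ?_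
      obtain ⟨k, hk⟩ := hτ m hm
      have hmD := hdeg m (Finset.mem_filter.1 hm).1
      have h3 : mons τ k = monomial m 1 := by
        unfold mons
        rw [if_pos, ← hk]
        rw [hk] at hmD
        simpa using hmD
      have h4 : (monomial m ((coeff m f : 𝕜) : ℂ) : MvPolynomial (Fin n) ℂ) =
          (coeff m f) • mons τ k := by
        rw [h3, ← algebraMap_smul ℂ (coeff m f) (monomial m (1 : ℂ)), smul_monomial, smul_eq_mul,
          mul_one]
        rfl
      rw [h4]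
      exact Submodule.smul_mem _ _ (Submodule.subset_span ⟨k, rfl⟩)
    · rw [pt_curry]
      rw [span_union] at hfL
      have h3 : ∀ m ∈ f.support.filter (fun m => ¬ 2 ≤ ∑ i, m i),
          ((coeff m f : 𝕜) : ℂ) * ∏ i, (∑ j, (c i j : ℂ) * t j) ^ m i ∈ SK.LgOf 𝕜 := by
        intro m hm
        rw [Finset.mem_filter] at hm
        have h5 : ((coeff m f : 𝕜) : ℂ) * ∏ i, (∑ j, (c i j : ℂ) * t j) ^ m i =
            (coeff m f) • ∏ i, (∑ j, (c i j : ℂ) * t j) ^ m i := by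
          rw [Algebra.smul_def]
          rfl
        rw [h5]
        apply Submodule.smul_mem
        rcases deg_cases m hm.2 with h6 | ⟨i, h6⟩
        · rw [h6]
          simp only [Finsupp.coe_zero, Pi.zero_apply, pow_zero, Finset.prod_const_one]
          rw [← span_union]
          exact Submodule.subset_span (Or.inl rfl)
        · rw [h6, Finset.prod_eq_single i]
          · rw [Finsupp.single_eq_same, pow_one]
            apply SK.Lz_le_Lg
            refine Submodule.sum_mem _ fun j _ => ?_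
            have h7 : (c i j : ℂ) * t j = c i j • t j := by
              rw [Algebra.smul_def]
              rfl
            rw [h7]
            exact Submodule.smul_mem _ _ (htL j)
          · intro j _ hj
            rw [Finsupp.single_eq_of_ne hj, pow_zero]
          · intro h
            exact absurd (Finset.mem_univ i) h
      have h4 : aeval (fun i => ∑ j, (c i j : ℂ) * t j) f =
          ∑ m ∈ f.support.filter (fun m => 2 ≤ ∑ i, m i),
            ((coeff m f : 𝕜) : ℂ) * ∏ i, (∑ j, (c i j : ℂ) * t j) ^ m i +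
          ∑ m ∈ f.support.filter (fun m => ¬ 2 ≤ ∑ i, m i),
            ((coeff m f : 𝕜) : ℂ) * ∏ i, (∑ j, (c i j : ℂ) * t j) ^ m i := by
        rw [Finset.sum_filter_add_sum_filter_not, aeval_def, eval₂_eq']
        rfl
      have h5 : eval (fun i => ∑ j, (c i j : ℂ) * t j)
          (∑ m ∈ f.support.filter (fun m => 2 ≤ ∑ i, m i), monomial m ((coeff m f : 𝕜) : ℂ)) =
          ∑ m ∈ f.support.filter (fun m => 2 ≤ ∑ i, m i),
            ((coeff m f : 𝕜) : ℂ) * ∏ i, (∑ j, (c i j : ℂ) * t j) ^ m i := by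
        rw [map_sum]
        refine Finset.sum_congr rfl fun m _ => ?_
        rw [eval_monomial, Finsupp.prod_fintype _ _ fun _ => pow_zero _]
      rw [h5]
      rw [h4] at hfL
      exact (Submodule.add_mem_iff_left _ (Submodule.sum_mem _ h3)).1 hfL
    · -- a nonlinear monomial
      obtain ⟨m, hm, hm2⟩ : ∃ m ∈ f.support, 2 ≤ ∑ i, m i := by
        by_contra hcon
        push Not at hcon
        have h3 : f.totalDegree ≤ 1 := by
          apply Finset.sup_le
          intro m hm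
          rw [Finsupp.sum_fintype _ _ fun _ => rfl]
          have h6 := hcon m hm
          omega
        omega
      refine not_linear _ m hm2 ?_
      rw [coeff_sum, Finset.sum_eq_single m]
      · rw [coeff_monomial, if_pos rfl]
        intro h6
        rw [MvPolynomial.mem_support_iff] at hm
        exact hm (by exact_mod_cast h6)
      · intro m' _ hm'
        rw [coeff_monomial, if_neg hm']
      · intro h6
        exact absurd (Finset.mem_filter.2 ⟨hm, hm2⟩) h6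
  -- the degree zero is trivial
  by_cases hD : D = 0
  · have h2 : {c : Fin n → Fin r → 𝕜 | (∀ i j, c i j ∈ S) ∧ ∃ f : MvPolynomial (Fin n) 𝕜,
        f.totalDegree ≤ D ∧ 2 ≤ f.totalDegree ∧
        (f.support.filter fun m => 2 ≤ ∑ i, m i).card ≤ N ∧
        aeval (fun i => ∑ j, (c i j : ℂ) * t j) f ∈
          Submodule.span 𝕜 ({1} ∪ {z : ℂ | IsAlgebraic ℚ (Complex.exp z)})} = ∅ := by
      rw [Set.eq_empty_iff_forall_notMem]
      rintro c ⟨_, f, hf, hf2, _⟩
      omega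
    rw [h2, Set.ncard_empty, zero_mul]
    exact Nat.zero_le _
  have hD1 : 1 ≤ D := Nat.one_le_iff_ne_zero.2 hD
  have h2 : (⋃ τ ∈ (Finset.univ : Finset (Fin N → Fin n → Fin (D + 1))),
      exc t (mons τ) S).ncard * S.card ^ (r - (N + 6)) ≤
      ∑ _τ : Fin N → Fin n → Fin (D + 1),
        cst n r N * D ^ (n + (r - (N + 6))) * S.card ^ (n * r) := by
    refine (Nat.mul_le_mul_right _ (Finset.set_ncard_biUnion_le _ _)).trans ?_
    rw [Finset.sum_mul]
    exact Finset.sum_le_sum fun τ _ =>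
      exc_card t ht htL (mons τ) (totalDegree_mons τ) S hS
  refine (Nat.mul_le_mul_right _ h1).trans (h2.trans ?_)
  rw [Finset.sum_const, smul_eq_mul, Finset.card_univ, Fintype.card_fun, Fintype.card_fun,
    Fintype.card_fin, Fintype.card_fin, Fintype.card_fin, ← pow_mul]
  have h3 : (D + 1) ^ (n * N) ≤ 2 ^ (n * N) * D ^ (n * N) := by
    rw [← mul_pow]
    exact Nat.pow_le_pow_left (by omega) _
  calc (D + 1) ^ (n * N) * (cst n r N * D ^ (n + (r - (N + 6))) * S.card ^ (n * r))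
      ≤ 2 ^ (n * N) * D ^ (n * N) * (cst n r N * D ^ (n + (r - (N + 6))) * S.card ^ (n * r)) :=
        Nat.mul_le_mul_right _ h3
    _ = 2 ^ (n * N) * cst n r N * (D ^ (n * N) * D ^ (n + (r - (N + 6)))) * S.card ^ (n * r) := by
        ring
    _ = 2 ^ (n * N) * cst n r N * D ^ (n * (N + 1) + (r - (N + 6))) * S.card ^ (n * r) := by
        rw [← pow_add]
        congr 3
        ring

/-- The theorem. -/
theorem thin_degree (n r N : ℕ) : ∃ K : ℕ, ∀ (𝕜 : IntermediateField ℚ ℂ),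
    Algebra.IsAlgebraic ℚ 𝕜 → ∀ t : Fin r → ℂ,
    (∀ j, t j ∈ Submodule.span 𝕜 {z : ℂ | IsAlgebraic ℚ (Complex.exp z)}) →
    LinearIndependent 𝕜 t → ∀ S : Finset 𝕜, S.Nonempty → ∀ D : ℕ,
    (∀ P : Submodule 𝕜 (MvPolynomial (Fin n) ℂ), FiniteDimensional 𝕜 P → finrank 𝕜 P ≤ N →
      (∀ f ∈ P, f.totalDegree ≤ D) →
      ({c : Fin n → Fin r → 𝕜 | (∀ i j, c i j ∈ S) ∧ ∃ f ∈ P,
        eval (fun i => ∑ j, (c i j : ℂ) * t j) f ∈
          Submodule.span 𝕜 ({1} ∪ {z : ℂ | IsAlgebraic ℚ (Complex.exp z)}) ∧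
        ¬ ∃ (a : ℂ) (q : Fin n → 𝕜), f = C a + ∑ i, C (q i : ℂ) * X i}.ncard : ℝ) ≤
      K * D ^ n * ((D : ℝ) / S.card) ^ (r - (N + 6)) * S.card ^ (n * r)) ∧
    ({c : Fin n → Fin r → 𝕜 | (∀ i j, c i j ∈ S) ∧ ∃ f : MvPolynomial (Fin n) 𝕜,
        f.totalDegree ≤ D ∧ 2 ≤ f.totalDegree ∧
        (f.support.filter fun m => 2 ≤ ∑ i, m i).card ≤ N ∧
        aeval (fun i => ∑ j, (c i j : ℂ) * t j) f ∈
          Submodule.span 𝕜 ({1} ∪ {z : ℂ | IsAlgebraic ℚ (Complex.exp z)})}.ncard : ℝ) ≤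
      K * D ^ (n * (N + 1)) * ((D : ℝ) / S.card) ^ (r - (N + 6)) * S.card ^ (n * r) := by
  refine ⟨2 ^ (n * N) * cst n r N, fun 𝕜 h𝕜 t htL ht S hS D => ⟨fun P hP1 hP2 hP3 => ?_, ?_⟩⟩
  · apply to_real hS.card_pos
    refine (part_one t ht htL S hS P hP1 hP2 hP3).trans ?_
    refine Nat.mul_le_mul_right _ (Nat.mul_le_mul_right _ ?_)
    exact Nat.le_mul_of_pos_left _ (by positivity)
  · exact to_real hS.card_pos (part_two t ht htL S hS)

end MP60829e.TV
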