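import Mathlib
import Pool.Agent.Lib.MP_60829e_nt.TV.Down
import Pool.Agent.Lib.MP_60829e_nt.TV.ThinD

/-! # The exceptional points of a grid in a space of logarithms -/

open MvPolynomial Module

namespace MP60829e.TV

/-- PROOF. `D' = max D 1`, `K0 = (N + 2) * (2 ^ (n r) * ((n r)! * ((N + 2) * D') ^ (n r)))`,
`C = K0 * (1 + (D + 1) * (n + 1) ^ D)`.  `g : Fin N → MvPolynomial (Fin n) ℂ` spans `P`
(`finrank ≤ N`, pad with zeros), all `g k ∈ P`.  The exceptional `c` (as functions on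
`Fin n × Fin r`) lie in the union of `{c | ¬ Good (LgOf 𝕜) (sub t ∘ g) ((n-1) r + (N+6)) c}` and
the sets `{c | ¬ Good ⊥ (sub t ∘ fam g ws) ((n-1) r + (N+1)) c}`, `ws.length ≤ D`, by
`linear_of_good`; each has at most `K0 * S.card ^ ((n-1) r + N + 6)` elements in the grid by
`grid_count` (`totalDegree_sub`, `totalDegree_pderiv`; `fam g ws` has degree `≤ D`).  The number of
words of length `≤ D` is at most `(D + 1) * (n + 1) ^ D`.
(The proof below uses the finer count `part_one` of `ThinD.lean`.) -/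
theorem thin (n r D N : ℕ) : ∃ K : ℕ, ∀ (𝕜 : IntermediateField ℚ ℂ), Algebra.IsAlgebraic ℚ 𝕜 →
    ∀ P : Submodule 𝕜 (MvPolynomial (Fin n) ℂ), FiniteDimensional 𝕜 P → finrank 𝕜 P ≤ N →
    (∀ f ∈ P, f.totalDegree ≤ D) → ∀ t : Fin r → ℂ,
    (∀ j, t j ∈ Submodule.span 𝕜 {z : ℂ | IsAlgebraic ℚ (Complex.exp z)}) →
    LinearIndependent 𝕜 t → ∀ S : Finset 𝕜, S.Nonempty →
      {c : Fin n → Fin r → 𝕜 | (∀ i j, c i j ∈ S) ∧ ∃ f ∈ P,
        eval (fun i => ∑ j, (c i j : ℂ) * t j) f ∈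
          Submodule.span 𝕜 ({1} ∪ {z : ℂ | IsAlgebraic ℚ (Complex.exp z)}) ∧
        ¬ ∃ (a : ℂ) (q : Fin n → 𝕜), f = C a + ∑ i, C (q i : ℂ) * X i}.ncard ≤
      K * S.card ^ ((n - 1) * r + N + 6) := by
  refine ⟨cst n r N * D ^ (n + (r - (N + 6))), fun 𝕜 h𝕜 P hP1 hP2 hP3 t htL ht S hS => ?_⟩
  have hs : 0 < S.card := hS.card_pos
  have h1 := part_one t ht htL S hS P hP1 hP2 hP3
  have h2 : n * r ≤ ((n - 1) * r + N + 6) + (r - (N + 6)) := by
    rcases Nat.eq_zero_or_pos n with h0 | h0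
    · rw [h0, Nat.zero_mul]
      exact Nat.zero_le _
    · obtain ⟨m, rfl⟩ : ∃ m, n = m + 1 := ⟨n - 1, by omega⟩
      rw [Nat.add_sub_cancel, Nat.succ_mul]
      omega
  have h3 : cst n r N * D ^ (n + (r - (N + 6))) * S.card ^ (n * r) ≤
      cst n r N * D ^ (n + (r - (N + 6))) * S.card ^ ((n - 1) * r + N + 6) *
        S.card ^ (r - (N + 6)) := by
    rw [mul_assoc _ (S.card ^ ((n - 1) * r + N + 6)), ← pow_add]
    exact Nat.mul_le_mul_left _ (Nat.pow_le_pow_right hs h2)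
  exact Nat.le_of_mul_le_mul_right (h1.trans h3) (pow_pos hs _)

end MP60829e.TV
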