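import Mathlib
import Pool.Agent.Lib.MP_60829e_nt.TV.ThinD

/-! # Sparse polynomials with coefficients in a finite dimensional space -/

open MvPolynomial Module

namespace MP60829e.TV

theorem exists_gens' {K V : Type} [Field K] [AddCommGroup V] [Module K V] {N : ℕ}
    (P : Submodule K V) (hP : FiniteDimensional K P)
    (hN : finrank K P ≤ N) : ∃ g : Fin N → V, ∀ f ∈ P, f ∈ Submodule.span K (Set.range g) := by
  classical
  refine ⟨fun k => if h : (k : ℕ) < finrank K P then (finBasis K P ⟨k, h⟩ : P).1 else 0,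
    fun f hf => ?_⟩
  have h1 := (finBasis K P).sum_repr ⟨f, hf⟩
  have h2 : f = (∑ i, ((finBasis K P).repr ⟨f, hf⟩) i • (finBasis K P) i : P).1 :=
    (congrArg Subtype.val h1).symm
  rw [h2]
  simp only [Submodule.coe_sum, Submodule.coe_smul]
  refine Submodule.sum_mem _ fun k _ => Submodule.smul_mem _ _ (Submodule.subset_span ?_)
  refine ⟨⟨k, k.2.trans_le hN⟩, ?_⟩
  dsimp only
  rw [dif_pos k.2]

/-- The multiples by the numbers `b i` of the monomials of a support. -/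
noncomputable def monb {n N κ D : ℕ} (b : Fin κ → ℂ) (τ : Fin N → Fin n → Fin (D + 1))
    (k : Fin (κ * N)) : MvPolynomial (Fin n) ℂ :=
  if ∑ i, (τ (finProdFinEquiv.symm k).2 i : ℕ) ≤ D then
    monomial (Finsupp.equivFunOnFinite.symm fun i => (τ (finProdFinEquiv.symm k).2 i : ℕ))
      (b (finProdFinEquiv.symm k).1) else 0

theorem totalDegree_monb {n N κ D : ℕ} (b : Fin κ → ℂ) (τ : Fin N → Fin n → Fin (D + 1))
    (k : Fin (κ * N)) : (monb b τ k).totalDegree ≤ D := by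
  unfold monb
  split_ifs with h
  · refine (totalDegree_monomial_le _ _).trans ?_
    rw [Finsupp.sum_fintype _ _ fun _ => rfl]
    exact h
  · rw [totalDegree_zero]
    exact Nat.zero_le _

theorem part_three {𝕜 : IntermediateField ℚ ℂ} [Algebra.IsAlgebraic ℚ 𝕜] {n r N κ D : ℕ}
    (t : Fin r → ℂ) (ht : LinearIndependent 𝕜 t) (htL : ∀ j, t j ∈ SK.LzOf 𝕜)
    (A : Submodule 𝕜 ℂ) (hAf : FiniteDimensional 𝕜 A) (hAκ : finrank 𝕜 A ≤ κ)
    (S : Finset 𝕜) (hS : S.Nonempty) :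
    {c : Fin n → Fin r → 𝕜 | (∀ i j, c i j ∈ S) ∧ ∃ f : MvPolynomial (Fin n) ℂ,
        f.totalDegree ≤ D ∧ f.support.card ≤ N ∧ (∀ m, coeff m f ∈ A) ∧
        eval (fun i => ∑ j, (c i j : ℂ) * t j) f ∈
          Submodule.span 𝕜 ({1} ∪ {z : ℂ | IsAlgebraic ℚ (Complex.exp z)}) ∧
        ¬ ∃ (a : ℂ) (q : Fin n → 𝕜), f = C a + ∑ i, C (q i : ℂ) * X i}.ncard *
          S.card ^ (r - (κ * N + 6)) ≤
      2 ^ (n * N) * cst n r (κ * N) * D ^ (n * (N + 1) + (r - (κ * N + 6))) *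
        S.card ^ (n * r) := by
  classical
  obtain ⟨b, hb⟩ := exists_gens' A hAf hAκ
  -- the union over the supports
  have hfin : (⋃ τ ∈ (Finset.univ : Finset (Fin N → Fin n → Fin (D + 1))),
      exc t (monb b τ) S).Finite :=
    Set.Finite.biUnion (Finset.finite_toSet _) fun τ _ => finite_grid S _
  have h1 : {c : Fin n → Fin r → 𝕜 | (∀ i j, c i j ∈ S) ∧ ∃ f : MvPolynomial (Fin n) ℂ,
        f.totalDegree ≤ D ∧ f.support.card ≤ N ∧ (∀ m, coeff m f ∈ A) ∧
        eval (fun i => ∑ j, (c i j : ℂ) * t j) f ∈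
          Submodule.span 𝕜 ({1} ∪ {z : ℂ | IsAlgebraic ℚ (Complex.exp z)}) ∧
        ¬ ∃ (a : ℂ) (q : Fin n → 𝕜), f = C a + ∑ i, C (q i : ℂ) * X i}.ncard ≤
      (⋃ τ ∈ (Finset.univ : Finset (Fin N → Fin n → Fin (D + 1))),
        exc t (monb b τ) S).ncard := by
    refine Set.ncard_le_ncard_of_injOn (fun (c : Fin n → Fin r → 𝕜) (p : Fin n × Fin r) =>
      c p.1 p.2) ?_ inj_curry.injOn hfin
    rintro c ⟨hc, f, hfD, hfN, hfA, hfL, hflin⟩
    have hdeg : ∀ m ∈ f.support, ∑ i, m i ≤ D := by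
      intro m hm
      have h3 := (le_totalDegree hm).trans hfD
      rwa [Finsupp.sum_fintype _ _ fun _ => rfl] at h3
    obtain ⟨τ, hτ⟩ := exists_enum (N := N) (D := D) f.support hfN hdeg
    rw [Set.mem_iUnion₂]
    refine ⟨τ, Finset.mem_univ _, fun p => hc p.1 p.2, f, ?_, ?_, hflin⟩
    · rw [← support_sum_monomial_coeff f]
      refine Submodule.sum_mem _ fun m hm => ?_
      obtain ⟨k, hk⟩ := hτ m hm
      have hmD := hdeg m hm
      obtain ⟨y, hy⟩ := (Submodule.mem_span_range_iff_exists_fun 𝕜).1 (hb _ (hfA m))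
      have h3 : ∀ i, monb b τ (finProdFinEquiv (i, k)) = monomial m (b i) := by
        intro i
        unfold monb
        rw [Equiv.symm_apply_apply]
        simp only
        rw [if_pos, ← hk]
        rw [hk] at hmD
        simpa using hmD
      have h4 : (monomial m (coeff m f) : MvPolynomial (Fin n) ℂ) =
          ∑ i, y i • monb b τ (finProdFinEquiv (i, k)) := by
        rw [← hy, map_sum]
        refine Finset.sum_congr rfl fun i _ => ?_
        rw [h3, smul_monomial]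
      rw [h4]
      exact Submodule.sum_mem _ fun i _ => Submodule.smul_mem _ _
        (Submodule.subset_span ⟨_, rfl⟩)
    · rw [span_union] at hfL
      rw [pt_curry]
      exact hfL
  -- the degree zero is trivial
  by_cases hD : D = 0
  · have h2 : {c : Fin n → Fin r → 𝕜 | (∀ i j, c i j ∈ S) ∧ ∃ f : MvPolynomial (Fin n) ℂ,
        f.totalDegree ≤ D ∧ f.support.card ≤ N ∧ (∀ m, coeff m f ∈ A) ∧
        eval (fun i => ∑ j, (c i j : ℂ) * t j) f ∈
          Submodule.span 𝕜 ({1} ∪ {z : ℂ | IsAlgebraic ℚ (Complex.exp z)}) ∧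
        ¬ ∃ (a : ℂ) (q : Fin n → 𝕜), f = C a + ∑ i, C (q i : ℂ) * X i} = ∅ := by
      rw [Set.eq_empty_iff_forall_notMem]
      rintro c ⟨_, f, hf, _, _, _, hfl⟩
      apply hfl
      rw [hD] at hf
      refine ⟨coeff 0 f, fun _ => 0, (totalDegree_eq_zero_iff_eq_C.1 (Nat.le_zero.1 hf)).trans ?_⟩
      simp
    rw [h2, Set.ncard_empty, zero_mul]
    exact Nat.zero_le _
  have hD1 : 1 ≤ D := Nat.one_le_iff_ne_zero.2 hD
  have h2 : (⋃ τ ∈ (Finset.univ : Finset (Fin N → Fin n → Fin (D + 1))),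
      exc t (monb b τ) S).ncard * S.card ^ (r - (κ * N + 6)) ≤
      ∑ _τ : Fin N → Fin n → Fin (D + 1),
        cst n r (κ * N) * D ^ (n + (r - (κ * N + 6))) * S.card ^ (n * r) := by
    refine (Nat.mul_le_mul_right _ (Finset.set_ncard_biUnion_le _ _)).trans ?_
    rw [Finset.sum_mul]
    exact Finset.sum_le_sum fun τ _ =>
      exc_card t ht htL (monb b τ) (totalDegree_monb b τ) S hS
  refine (Nat.mul_le_mul_right _ h1).trans (h2.trans ?_)
  rw [Finset.sum_const, smul_eq_mul, Finset.card_univ, Fintype.card_fun, Fintype.card_fun,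
    Fintype.card_fin, Fintype.card_fin, Fintype.card_fin, ← pow_mul]
  have h3 : (D + 1) ^ (n * N) ≤ 2 ^ (n * N) * D ^ (n * N) := by
    rw [← mul_pow]
    exact Nat.pow_le_pow_left (by omega) _
  calc (D + 1) ^ (n * N) *
        (cst n r (κ * N) * D ^ (n + (r - (κ * N + 6))) * S.card ^ (n * r))
      ≤ 2 ^ (n * N) * D ^ (n * N) *
        (cst n r (κ * N) * D ^ (n + (r - (κ * N + 6))) * S.card ^ (n * r)) :=
        Nat.mul_le_mul_right _ h3
    _ = 2 ^ (n * N) * cst n r (κ * N) * (D ^ (n * N) * D ^ (n + (r - (κ * N + 6)))) *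
        S.card ^ (n * r) := by
        ring
    _ = 2 ^ (n * N) * cst n r (κ * N) * D ^ (n * (N + 1) + (r - (κ * N + 6))) *
        S.card ^ (n * r) := by
        rw [← pow_add]
        congr 3
        ring

/-- The theorem. -/
theorem thin_sparse (n r N κ : ℕ) : ∃ K : ℕ, ∀ (𝕜 : IntermediateField ℚ ℂ),
    Algebra.IsAlgebraic ℚ 𝕜 → ∀ t : Fin r → ℂ,
    (∀ j, t j ∈ Submodule.span 𝕜 {z : ℂ | IsAlgebraic ℚ (Complex.exp z)}) →
    LinearIndependent 𝕜 t → ∀ A : Submodule 𝕜 ℂ, FiniteDimensional 𝕜 A → finrank 𝕜 A ≤ κ →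
    ∀ S : Finset 𝕜, S.Nonempty → ∀ D : ℕ,
    ({c : Fin n → Fin r → 𝕜 | (∀ i j, c i j ∈ S) ∧ ∃ f : MvPolynomial (Fin n) ℂ,
        f.totalDegree ≤ D ∧ f.support.card ≤ N ∧ (∀ m, coeff m f ∈ A) ∧
        eval (fun i => ∑ j, (c i j : ℂ) * t j) f ∈
          Submodule.span 𝕜 ({1} ∪ {z : ℂ | IsAlgebraic ℚ (Complex.exp z)}) ∧
        ¬ ∃ (a : ℂ) (q : Fin n → 𝕜), f = C a + ∑ i, C (q i : ℂ) * X i}.ncard : ℝ) ≤
      K * D ^ (n * (N + 1)) * ((D : ℝ) / S.card) ^ (r - (κ * N + 6)) * S.card ^ (n * r) :=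
  ⟨2 ^ (n * N) * cst n r (κ * N), fun _ _ t htL ht A hA1 hA2 S hS _ =>
    to_real hS.card_pos (part_three t ht htL A hA1 hA2 S hS)⟩

end MP60829e.TV
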